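import Mathlib

set_option autoImplicit false
set_option maxHeartbeats 4000000

open Matrix Finset

namespace Pool.Agent.TH704

noncomputable section

variable {m n ι : Type*} [Fintype m] [DecidableEq m] [Fintype n] [DecidableEq n]
  [Fintype ι] [DecidableEq ι]

/-- `P(A) = 1 - (1 + AᵀA)⁻¹` -/
def PP (A : Matrix m n ℝ) : Matrix n n ℝ := 1 - (1 + Aᵀ * A)⁻¹

/-- `Q(A) = 1 - (1 + AAᵀ)⁻¹` -/
def QQ (A : Matrix m n ℝ) : Matrix m m ℝ := 1 - (1 + A * Aᵀ)⁻¹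

/-- `Ψ(A) = tr AᵀA - log det (1 + AᵀA)` -/
def Psi (A : Matrix m n ℝ) : ℝ := trace (Aᵀ * A) - Real.log (det (1 + Aᵀ * A))

/-- the log-determinant defect of a pair -/
def LD (X Y : Matrix n n ℝ) : ℝ :=
  Real.log (det ((1 / 2 : ℝ) • (X + Y))) - (1 / 2) * Real.log (det X) - (1 / 2) * Real.log (det Y)

/-- sign of a half -/
def sg (b : Bool) : ℝ := if b then -1 else 1

/-- the sign matrix `diag(I, -I)` -/
def sgm : Matrix (Bool × ι) (Bool × ι) ℝ := diagonal (fun x => sg x.1)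

/-- the normalised block matrix `(1/2) [f_ab]` -/
def blk (f : Bool → Bool → Matrix ι ι ℝ) : Matrix (Bool × ι) (Bool × ι) ℝ :=
  fun x y => (1 / 2) * f x.1 y.1 x.2 y.2

/-- a block row `[u_0, u_1] / √2` -/
def rw2 (u : Bool → Matrix ι ι ℝ) : Matrix ι (Bool × ι) ℝ :=
  fun i y => (Real.sqrt 2)⁻¹ * u y.1 i y.2

/-- a block column `(u_0; u_1) / √2` -/
def cl2 (u : Bool → Matrix ι ι ℝ) : Matrix (Bool × ι) ι ℝ :=
  fun x j => (Real.sqrt 2)⁻¹ * u x.1 x.2 j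

/-- the potential -/
def phi (A B C : Matrix ι ι ℝ) : ℝ :=
  trace (PP A * QQ B) + trace (PP B * QQ C) + trace (PP C * QQ A) + 22 * (Psi A + Psi B + Psi C)

/-- the energy -/
def EE (A B : Matrix (Bool × ι) (Bool × ι) ℝ) : ℝ := trace (PP A * sgm * QQ B * sgm)

/-- total energy -/
def E3 (A B C : Matrix (Bool × ι) (Bool × ι) ℝ) : ℝ := EE A B + EE B C + EE C A

/-- `β(A) = A (1 + AᵀA)⁻¹` -/
def bet (A : Matrix ι ι ℝ) : Matrix ι ι ℝ := A * (1 + Aᵀ * A)⁻¹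

/-- the trilinear form at a node -/
def DD (A B C : Matrix (Bool × ι) (Bool × ι) ℝ) : ℝ := trace (sgm * A * sgm * B * sgm * C)

/-- the truncated trilinear form at scale `l` -/
def TT (l : ℝ) (A B C : Matrix (Bool × ι) (Bool × ι) ℝ) : ℝ :=
  l ^ 3 * DD (bet (l⁻¹ • A)) (bet (l⁻¹ • B)) (bet (l⁻¹ • C))

/-- index sets with `2^n` elements -/
def Idx : ℕ → Type
  | 0 => Unit
  | n + 1 => Bool × Idx n

instance instFintypeIdx : ∀ n, Fintype (Idx n)
  | 0 => inferInstanceAs (Fintype Unit)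
  | n + 1 => by
    haveI := instFintypeIdx n
    exact inferInstanceAs (Fintype (Bool × Idx n))

instance instDecidableEqIdx : ∀ n, DecidableEq (Idx n)
  | 0 => inferInstanceAs (DecidableEq Unit)
  | n + 1 => by
    haveI := instDecidableEqIdx n
    exact inferInstanceAs (DecidableEq (Bool × Idx n))

/-- offset of a half -/
def off (n : ℕ) (a : Bool) : ℕ := if a then 2 ^ n else 0

/-- the number of an index -/
def vl : (n : ℕ) → Idx n → ℕ
  | 0, _ => 0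
  | n + 1, (a, i) => off n a + vl n i

/-- normalised matrix of an array -/
def mt (n : ℕ) (f : ℕ → ℕ → ℝ) : Matrix (Idx n) (Idx n) ℝ :=
  fun i j => (1 / 2) ^ n * f (vl n i) (vl n j)

/-- the same at level `n+1`, with the product index type -/
def mt1 (n : ℕ) (f : ℕ → ℕ → ℝ) : Matrix (Bool × Idx n) (Bool × Idx n) ℝ :=
  fun i j => (1 / 2) ^ (n + 1) * f (off n i.1 + vl n i.2) (off n j.1 + vl n j.2)

/-- shifted array (sub-block) -/
def sh (n : ℕ) (a b : Bool) (f : ℕ → ℕ → ℝ) : ℕ → ℕ → ℝ := fun i j => f (off n a + i) (off n b + j)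

/-- arrays -/
abbrev Arr := ℕ → ℕ → ℝ

/-- sum of a node functional over the tree of nodes -/
def tree (N : ℕ → Arr → Arr → Arr → ℝ) : ℕ → Arr → Arr → Arr → ℝ
  | 0, _, _, _ => 0
  | n + 1, f, g, h => N n f g h + (1 / 4) * ∑ a : Bool, ∑ b : Bool,
      tree N n (sh n a b f) (sh n b (xor a b) g) (sh n (xor a b) a h)

/-- average of a functional over the leaves -/
def leaf (L : ℝ → ℝ → ℝ → ℝ) : ℕ → Arr → Arr → Arr → ℝ
  | 0, f, g, h => L (f 0 0) (g 0 0) (h 0 0)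
  | n + 1, f, g, h => (1 / 4) * ∑ a : Bool, ∑ b : Bool,
      leaf L n (sh n a b f) (sh n b (xor a b) g) (sh n (xor a b) a h)

/-- scalar potential `x⁴/(1+x²)` -/
def sc (x : ℝ) : ℝ := x ^ 4 / (1 + x ^ 2)

/-- sign in `{0,…,M-1}` -/
def sgn (M i : ℕ) : ℝ := if 2 * i < M then 1 else -1

/-- the discrete form at scale `s` -/
def Lam (n s : ℕ) (f g h : ℕ → ℕ → ℝ) : ℝ :=
  (1 / 4) ^ s * (1 / 8) ^ (n - s) * ∑ p ∈ range (2 ^ s), ∑ q ∈ range (2 ^ s),
    ∑ i ∈ range (2 ^ (n - s)), ∑ j ∈ range (2 ^ (n - s)), ∑ k ∈ range (2 ^ (n - s)),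
      sgn (2 ^ (n - s)) i * sgn (2 ^ (n - s)) j * sgn (2 ^ (n - s)) k *
      f (p * 2 ^ (n - s) + i) (q * 2 ^ (n - s) + j) *
      g (q * 2 ^ (n - s) + j) ((p ^^^ q) * 2 ^ (n - s) + k) *
      h ((p ^^^ q) * 2 ^ (n - s) + k) (p * 2 ^ (n - s) + i)

/-- the normalised cube norm -/
def a3 (n : ℕ) (f : ℕ → ℕ → ℝ) : ℝ :=
  (1 / 4) ^ n * ∑ i ∈ range (2 ^ n), ∑ j ∈ range (2 ^ n), |f i j| ^ 3

end

end Pool.Agent.TH704
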