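import Pool.Agent.Helper704.TH.Defs

set_option autoImplicit false

open Matrix Finset

namespace Pool.Agent.TH704

noncomputable section

variable {m n ι : Type*} [Fintype m] [DecidableEq m] [Fintype n] [DecidableEq n]
  [Fintype ι] [DecidableEq ι]

/-- the defect of `Ψ` -/
def dPsi (f : Bool → Bool → Matrix ι ι ℝ) : ℝ :=
  (1 / 4) * ∑ a : Bool, ∑ b : Bool, Psi (f a b) - Psi (blk f)

/-- `β₂(A) = 2 β(A/2)` -/
def bet2 (A : Matrix ι ι ℝ) : Matrix ι ι ℝ := (2 : ℝ) • bet ((1 / 2 : ℝ) • A)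

end

end Pool.Agent.TH704
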