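import Pool.Agent.Helper704.TH.Defs

set_option autoImplicit false
set_option maxHeartbeats 4000000
set_option linter.unusedVariables false
set_option linter.unusedSectionVars false

open Matrix Finset

namespace Pool.Agent.TH704

noncomputable section

variable {m n ι : Type*} [Fintype m] [DecidableEq m] [Fintype n] [DecidableEq n]
  [Fintype ι] [DecidableEq ι]


theorem TT_inv_tendsto {κ : Type*} [Fintype κ] [DecidableEq κ] (M : Matrix κ κ ℝ) :
    Filter.Tendsto (fun t : ℝ => (1 + t ^ 2 • M)⁻¹) (nhds 0) (nhds 1) := by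
  have h : ContinuousAt (fun t : ℝ => (1 + t ^ 2 • M)⁻¹) 0 := by
    simp only [Matrix.inv_def, Ring.inverse_eq_inv']
    have a1 : ContinuousAt (fun t : ℝ => ((1 + t ^ 2 • M).det)⁻¹) 0 := by
      apply ContinuousAt.inv₀
      · apply Continuous.continuousAt
        apply Continuous.matrix_det
        fun_prop
      · simp
    have a2 : ContinuousAt (fun t : ℝ => (1 + t ^ 2 • M).adjugate) 0 := by
      apply Continuous.continuousAt
      apply Continuous.matrix_adjugate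
      fun_prop
    exact Filter.Tendsto.smul a1 a2
  have h2 := h.tendsto
  simpa using h2

theorem TT_bet (l : ℝ) (hl : l ≠ 0) (A : Matrix (Bool × ι) (Bool × ι) ℝ) :
    l • bet (l⁻¹ • A) = A * (1 + (l⁻¹) ^ 2 • (Aᵀ * A))⁻¹ := by
  unfold bet
  rw [Matrix.transpose_smul, Matrix.smul_mul, Matrix.smul_mul, Matrix.mul_smul, smul_smul,
    smul_smul, mul_inv_cancel₀ hl, one_smul, sq]

theorem TT_hom (l : ℝ) (X Y Z : Matrix (Bool × ι) (Bool × ι) ℝ) :
    l ^ 3 * DD X Y Z = DD (l • X) (l • Y) (l • Z) := by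
  unfold DD
  simp only [Matrix.mul_smul, Matrix.smul_mul, Matrix.trace_smul, smul_eq_mul]
  ring

theorem TT_atTop (A B C : Matrix (Bool × ι) (Bool × ι) ℝ) :
    Filter.Tendsto (fun K : ℕ => TT (2 ^ K) A B C) Filter.atTop (nhds (DD A B C)) := by
  have h0 : Filter.Tendsto (fun K : ℕ => ((2:ℝ) ^ K)⁻¹) Filter.atTop (nhds 0) :=
    (tendsto_pow_atTop_atTop_of_one_lt one_lt_two).inv_tendsto_atTop
  have h1 : ∀ A : Matrix (Bool × ι) (Bool × ι) ℝ,
      Filter.Tendsto (fun K : ℕ => A * (1 + (((2:ℝ) ^ K)⁻¹) ^ 2 • (Aᵀ * A))⁻¹) Filter.atTop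
        (nhds A) := by
    intro A
    have h2 := (TT_inv_tendsto (Aᵀ * A)).comp h0
    have h3 : Filter.Tendsto (fun K : ℕ => A * (1 + (((2:ℝ) ^ K)⁻¹) ^ 2 • (Aᵀ * A))⁻¹)
        Filter.atTop (nhds (A * 1)) := by
      have hc : Continuous (fun X : Matrix (Bool × ι) (Bool × ι) ℝ => A * X) := by fun_prop
      exact (hc.tendsto 1).comp h2
    simpa using h3
  have hc : Continuous (fun p : Matrix (Bool × ι) (Bool × ι) ℝ ×
      Matrix (Bool × ι) (Bool × ι) ℝ × Matrix (Bool × ι) (Bool × ι) ℝ =>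
      DD p.1 p.2.1 p.2.2) := by
    unfold DD
    apply Continuous.matrix_trace
    fun_prop
  have h4 := (hc.tendsto (A, B, C)).comp ((h1 A).prodMk_nhds ((h1 B).prodMk_nhds (h1 C)))
  refine h4.congr ?_
  intro K
  show DD (A * (1 + (((2:ℝ) ^ K)⁻¹) ^ 2 • (Aᵀ * A))⁻¹) (B * (1 + (((2:ℝ) ^ K)⁻¹) ^ 2 • (Bᵀ * B))⁻¹)
    (C * (1 + (((2:ℝ) ^ K)⁻¹) ^ 2 • (Cᵀ * C))⁻¹) = TT (2 ^ K) A B C
  have hl : ((2:ℝ) ^ K) ≠ 0 := by positivity
  rw [← TT_bet _ hl, ← TT_bet _ hl, ← TT_bet _ hl, ← TT_hom]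
  rfl

end

end Pool.Agent.TH704
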