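import Pool.Agent.Helper704.TH.Defs

set_option autoImplicit false
set_option maxHeartbeats 4000000
set_option linter.unusedVariables false
set_option linter.unusedSectionVars false

open Matrix Finset

namespace Pool.Agent.TH704

noncomputable section

variable {m n ι : Type*} [Fintype m] [DecidableEq m] [Fintype n] [DecidableEq n]
  [Fintype ι] [DecidableEq ι]


theorem posdef_row (A : Matrix m n ℝ) : (1 + Aᵀ * A).PosDef := by
  have h := Matrix.posSemidef_conjTranspose_mul_self A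
  rw [Matrix.conjTranspose_eq_transpose_of_trivial] at h
  exact Matrix.PosDef.one.add_posSemidef h

theorem posdef_col (A : Matrix m n ℝ) : (1 + A * Aᵀ).PosDef := by
  have h := posdef_row Aᵀ
  rw [Matrix.transpose_transpose] at h
  exact h

theorem trace_mul_nonneg {M N : Matrix n n ℝ} (hM : M.PosSemidef) (hN : N.PosSemidef) :
    0 ≤ trace (M * N) := by
  obtain ⟨B, rfl⟩ : ∃ B : Matrix n n ℝ, N = Bᴴ * B := by
    open scoped MatrixOrder in
    obtain ⟨B, hB⟩ := CStarAlgebra.nonneg_iff_eq_star_mul_self.mp hN.nonneg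
    exact ⟨B, hB⟩
  have h1 : trace (M * (Bᴴ * B)) = trace (B * M * Bᴴ) := by
    rw [← Matrix.mul_assoc, Matrix.trace_mul_comm, Matrix.mul_assoc]
  rw [h1]
  exact (hM.mul_mul_conjTranspose_same B).trace_nonneg

theorem PP_eq (A : Matrix m n ℝ) : PP A = Aᵀ * (1 + A * Aᵀ)⁻¹ * A := by
  have hS : IsUnit (1 + Aᵀ * A).det := (Matrix.isUnit_iff_isUnit_det _).mp (posdef_row A).isUnit
  have hT : IsUnit (1 + A * Aᵀ).det := (Matrix.isUnit_iff_isUnit_det _).mp (posdef_col A).isUnit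
  have h1 : (1 + Aᵀ * A) * Aᵀ = Aᵀ * (1 + A * Aᵀ) := by
    rw [Matrix.add_mul, Matrix.mul_add, Matrix.one_mul, Matrix.mul_one, Matrix.mul_assoc]
  have h2 : Aᵀ * (1 + A * Aᵀ)⁻¹ = (1 + Aᵀ * A)⁻¹ * Aᵀ := by
    calc Aᵀ * (1 + A * Aᵀ)⁻¹
        = (1 + Aᵀ * A)⁻¹ * (1 + Aᵀ * A) * (Aᵀ * (1 + A * Aᵀ)⁻¹) := by
          rw [Matrix.nonsing_inv_mul _ hS, Matrix.one_mul]
      _ = (1 + Aᵀ * A)⁻¹ * (((1 + Aᵀ * A) * Aᵀ) * (1 + A * Aᵀ)⁻¹) := by
          simp only [Matrix.mul_assoc]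
      _ = (1 + Aᵀ * A)⁻¹ * (Aᵀ * ((1 + A * Aᵀ) * (1 + A * Aᵀ)⁻¹)) := by
          rw [h1, Matrix.mul_assoc]
      _ = (1 + Aᵀ * A)⁻¹ * Aᵀ := by
          rw [Matrix.mul_nonsing_inv _ hT, Matrix.mul_one]
  rw [h2, Matrix.mul_assoc]
  unfold PP
  have h3 : (1 + Aᵀ * A)⁻¹ * (Aᵀ * A) = (1 + Aᵀ * A)⁻¹ * (1 + Aᵀ * A) - (1 + Aᵀ * A)⁻¹ := by
    rw [Matrix.mul_add, Matrix.mul_one]
    abel
  rw [h3, Matrix.nonsing_inv_mul _ hS]

theorem PP_psd (A : Matrix m n ℝ) : (PP A).PosSemidef := by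
  rw [PP_eq]
  have h := (posdef_col A).inv.posSemidef.conjTranspose_mul_mul_same A
  rw [Matrix.conjTranspose_eq_transpose_of_trivial] at h
  exact h

theorem one_sub_PP_psd (A : Matrix m n ℝ) : (1 - PP A).PosSemidef := by
  unfold PP
  rw [sub_sub_cancel]
  exact (posdef_row A).inv.posSemidef

theorem QQ_psd (A : Matrix m n ℝ) : (QQ A).PosSemidef := by
  have h := PP_psd Aᵀ
  unfold PP at h
  rw [Matrix.transpose_transpose] at h
  exact h

theorem one_sub_QQ_psd (A : Matrix m n ℝ) : (1 - QQ A).PosSemidef := by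
  unfold QQ
  rw [sub_sub_cancel]
  exact (posdef_col A).inv.posSemidef

end

end Pool.Agent.TH704
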