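import Pool.Agent.Helper704.TH.Defs
import Pool.Agent.Helper704.TH.L_psd
import Pool.Agent.Helper704.TH.Defs2

set_option autoImplicit false
set_option maxHeartbeats 4000000
set_option linter.unusedVariables false
set_option linter.unusedSectionVars false

open Matrix Finset

namespace Pool.Agent.TH704

noncomputable section

variable {m n ι : Type*} [Fintype m] [DecidableEq m] [Fintype n] [DecidableEq n]
  [Fintype ι] [DecidableEq ι]














theorem b2_alg (X V W : Matrix ι ι ℝ) (hX : X.PosSemidef) (h1 : (1 + X) * V = 1)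
    (h2 : V * (1 + X) = 1) (h3 : (1 + 1 + 1 + 1 + X) * W = 1) (h4 : W * (1 + 1 + 1 + 1 + X) = 1)
    (hV : Vᵀ = V) (hW : Wᵀ = W) :
    ((4 : ℕ) • (1 - V) - (16 : ℕ) • (W * X * W)).PosSemidef := by
  have hXt : Xᴴ = X := hX.isHermitian
  set S := 1 + 1 + 1 + 1 + X with hS
  have hc : (1 + X) * S = S * (1 + X) := by rw [hS]; noncomm_ring
  have e1 : (1 + X) * S * V = S := by
    rw [hc, mul_assoc, h1, mul_one]
  have hM : (1 + X) * S * ((4 : ℕ) • (1 - V) - (16 : ℕ) • (W * X * W)) * (S * (1 + X)) =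
      (48 : ℕ) • X + (64 : ℕ) • (X * X) + (20 : ℕ) • (X * X * X) + (4 : ℕ) • (X * X * X * X) := by
    have : (1 + X) * S * ((4 : ℕ) • (1 - V) - (16 : ℕ) • (W * X * W)) * (S * (1 + X)) =
        (4 : ℕ) • ((1 + X) * S * (S * (1 + X))) -
        (4 : ℕ) • (((1 + X) * S * V) * (S * (1 + X))) -
        (16 : ℕ) • ((1 + X) * (S * W) * X * (W * S) * (1 + X)) := by
      simp only [mul_sub, sub_mul, mul_smul_comm, smul_mul_assoc, smul_sub, mul_one, mul_assoc]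
    rw [this, e1, h3, h4, hS]
    noncomm_ring
  have hL : (W * V) * ((1 + X) * S) = 1 := by
    have : (W * V) * ((1 + X) * S) = W * (V * (1 + X)) * S := by simp only [mul_assoc]
    rw [this, h2, mul_one, h4]
  have hR : (S * (1 + X)) * (V * W) = 1 := by
    have : (S * (1 + X)) * (V * W) = S * ((1 + X) * V) * W := by simp only [mul_assoc]
    rw [this, h1, mul_one, h3]
  have hG : (4 : ℕ) • (1 - V) - (16 : ℕ) • (W * X * W) =
      (V * W)ᴴ * ((48 : ℕ) • X + (64 : ℕ) • (X * X) + (20 : ℕ) • (X * X * X) +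
        (4 : ℕ) • (X * X * X * X)) * (V * W) := by
    have ht : (V * W)ᴴ = W * V := by
      rw [conjTranspose_eq_transpose_of_trivial, transpose_mul, hV, hW]
    rw [ht, ← hM]
    have : (W * V) * ((1 + X) * S * ((4 : ℕ) • (1 - V) - (16 : ℕ) • (W * X * W)) *
        (S * (1 + X))) * (V * W) = ((W * V) * ((1 + X) * S)) *
        ((4 : ℕ) • (1 - V) - (16 : ℕ) • (W * X * W)) * ((S * (1 + X)) * (V * W)) := by
      simp only [mul_assoc]
    rw [this, hL, hR, one_mul, mul_one]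
  rw [hG]
  refine Matrix.PosSemidef.conjTranspose_mul_mul_same ?_ _
  have p2 : (X * X).PosSemidef := by
    have := posSemidef_conjTranspose_mul_self X
    rwa [hXt] at this
  have p3 : (X * X * X).PosSemidef := by
    have := hX.conjTranspose_mul_mul_same X
    rwa [hXt] at this
  have p4 : (X * X * X * X).PosSemidef := by
    have := p2.conjTranspose_mul_mul_same X
    rw [hXt] at this
    rwa [← mul_assoc] at this
  have sc : ∀ (k : ℕ) (M : Matrix ι ι ℝ), M.PosSemidef → (k • M).PosSemidef := by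
    intro k M hM
    induction k with
    | zero => rw [zero_smul]; exact Matrix.PosSemidef.zero
    | succ k ih => rw [succ_nsmul]; exact ih.add hM
  exact (((sc 48 _ hX).add (sc 64 _ p2)).add (sc 20 _ p3)).add (sc 4 _ p4)

theorem b2_row (A : Matrix ι ι ℝ) :
    ((4 : ℝ) • PP A - (bet2 A)ᵀ * bet2 A).PosSemidef := by
  set X := Aᵀ * A with hX
  have hXp : X.PosSemidef := by
    have := posSemidef_conjTranspose_mul_self A
    rwa [conjTranspose_eq_transpose_of_trivial] at this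
  have d1 : (1 + X).PosDef := posdef_row A
  have d2 : (1 + ((1 / 2 : ℝ) • A)ᵀ * ((1 / 2 : ℝ) • A)).PosDef := posdef_row _
  have u1 : IsUnit (1 + X).det := (isUnit_iff_ne_zero.2 d1.det_pos.ne')
  have u2 : IsUnit (1 + ((1 / 2 : ℝ) • A)ᵀ * ((1 / 2 : ℝ) • A)).det :=
    (isUnit_iff_ne_zero.2 d2.det_pos.ne')
  set T := (1 + ((1 / 2 : ℝ) • A)ᵀ * ((1 / 2 : ℝ) • A))⁻¹ with hT
  have hU : 1 + ((1 / 2 : ℝ) • A)ᵀ * ((1 / 2 : ℝ) • A) = (1 / 4 : ℝ) • (1 + 1 + 1 + 1 + X) := by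
    rw [transpose_smul, smul_mul_smul_comm, ← hX]
    module
  have t1 : (1 + ((1 / 2 : ℝ) • A)ᵀ * ((1 / 2 : ℝ) • A)) * T = 1 := mul_nonsing_inv _ u2
  have t2 : T * (1 + ((1 / 2 : ℝ) • A)ᵀ * ((1 / 2 : ℝ) • A)) = 1 := nonsing_inv_mul _ u2
  have hTt : Tᵀ = T := by
    rw [hT, transpose_nonsing_inv]
    congr 1
    simp [transpose_mul]
  have hVt : ((1 + X)⁻¹)ᵀ = (1 + X)⁻¹ := by
    rw [transpose_nonsing_inv]
    congr 1
    simp [hX, transpose_mul]
  have h3 : (1 + 1 + 1 + 1 + X) * ((1 / 4 : ℝ) • T) = 1 := by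
    rw [mul_smul_comm, ← smul_mul_assoc, ← hU]; exact t1
  have h4 : ((1 / 4 : ℝ) • T) * (1 + 1 + 1 + 1 + X) = 1 := by
    rw [smul_mul_assoc, ← mul_smul_comm, ← hU]; exact t2
  have hWt : ((1 / 4 : ℝ) • T)ᵀ = (1 / 4 : ℝ) • T := by rw [transpose_smul, hTt]
  have main := b2_alg X (1 + X)⁻¹ ((1 / 4 : ℝ) • T) hXp (mul_nonsing_inv _ u1)
    (nonsing_inv_mul _ u1) h3 h4 hVt hWt
  have hb : bet2 A = A * T := by
    unfold bet2 bet
    rw [smul_mul_assoc, smul_smul, ← hT]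
    norm_num
  have h16 : (16 : ℕ) • (((1 / 4 : ℝ) • T) * X * ((1 / 4 : ℝ) • T)) = T * X * T := by
    rw [smul_mul_assoc, smul_mul_assoc, mul_smul_comm, smul_smul]
    module
  have h44 : (4 : ℕ) • (1 - (1 + X)⁻¹) = (4 : ℝ) • (1 - (1 + X)⁻¹) := by
    module
  rw [h16, h44] at main
  have hfin : (4 : ℝ) • PP A - (bet2 A)ᵀ * bet2 A = (4 : ℝ) • (1 - (1 + X)⁻¹) - T * X * T := by
    rw [hb, transpose_mul, hTt]
    unfold PP
    rw [← hX]
    congr 1
    rw [hX]; simp only [mul_assoc]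
  rw [hfin]
  exact main

theorem b2_push (A : Matrix ι ι ℝ) : (bet2 A)ᵀ = bet2 Aᵀ := by
  unfold bet2 bet
  rw [transpose_smul]
  congr 1
  set B := (1 / 2 : ℝ) • A with hB
  have hBt : (1 / 2 : ℝ) • Aᵀ = Bᵀ := by rw [hB, transpose_smul]
  rw [hBt, transpose_transpose, transpose_mul, transpose_nonsing_inv]
  have e : (1 + Bᵀ * B)ᵀ = 1 + Bᵀ * B := by simp [transpose_mul]
  rw [e]
  have u1 : IsUnit (1 + Bᵀ * B).det := (isUnit_iff_ne_zero.2 (posdef_row B).det_pos.ne')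
  have u2 : IsUnit (1 + B * Bᵀ).det := (isUnit_iff_ne_zero.2 (posdef_col B).det_pos.ne')
  have h1 : (1 + Bᵀ * B) * (Bᵀ * (1 + B * Bᵀ)⁻¹) = Bᵀ := by
    have : (1 + Bᵀ * B) * (Bᵀ * (1 + B * Bᵀ)⁻¹) = Bᵀ * ((1 + B * Bᵀ) * (1 + B * Bᵀ)⁻¹) := by
      noncomm_ring
    rw [this, mul_nonsing_inv _ u2, mul_one]
  calc (1 + Bᵀ * B)⁻¹ * Bᵀ = (1 + Bᵀ * B)⁻¹ * ((1 + Bᵀ * B) * (Bᵀ * (1 + B * Bᵀ)⁻¹)) := by rw [h1]
    _ = Bᵀ * (1 + B * Bᵀ)⁻¹ := by rw [← mul_assoc, nonsing_inv_mul _ u1, one_mul]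



theorem bet2_facts (A : Matrix ι ι ℝ) :
    ((4 : ℝ) • QQ A - bet2 A * (bet2 A)ᵀ).PosSemidef ∧
      ((4 : ℝ) • PP A - (bet2 A)ᵀ * bet2 A).PosSemidef := by
  refine ⟨?_, b2_row A⟩
  have h := b2_row Aᵀ
  have e1 : PP Aᵀ = QQ A := by unfold PP QQ; rw [transpose_transpose]
  have e2 : bet2 Aᵀ = (bet2 A)ᵀ := (b2_push A).symm
  rw [e1, e2, transpose_transpose] at h
  exact h

end

end Pool.Agent.TH704
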