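import Pool.Agent.Helper704.TH.Defs
import Pool.Agent.Helper704.TH.L_psd
import Pool.Agent.Helper704.TH.Defs2

set_option autoImplicit false
set_option maxHeartbeats 4000000
set_option linter.unusedVariables false
set_option linter.unusedSectionVars false

open Matrix Finset

namespace Pool.Agent.TH704

noncomputable section

variable {m n ι : Type*} [Fintype m] [DecidableEq m] [Fintype n] [DecidableEq n]
  [Fintype ι] [DecidableEq ι]















theorem bet_facts (A : Matrix ι ι ℝ) :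
    (QQ A - bet A * (bet A)ᵀ).PosSemidef ∧ (PP A - (bet A)ᵀ * bet A).PosSemidef := by
  have hR1 : IsUnit (1 + Aᵀ * A).det := (posdef_row A).det_pos.ne'.isUnit
  have hS1 : IsUnit (1 + A * Aᵀ).det := (posdef_col A).det_pos.ne'.isUnit
  have hbet : bet A = A * (1 + Aᵀ * A)⁻¹ := rfl
  have hPP : PP A = 1 - (1 + Aᵀ * A)⁻¹ := rfl
  have hQQ : QQ A = 1 - (1 + A * Aᵀ)⁻¹ := rfl
  have hRt : ((1 + Aᵀ * A)⁻¹)ᵀ = (1 + Aᵀ * A)⁻¹ := by
    rw [transpose_nonsing_inv]
    congr 1
    rw [transpose_add, transpose_one, transpose_mul, transpose_transpose]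
  have hSt : ((1 + A * Aᵀ)⁻¹)ᵀ = (1 + A * Aᵀ)⁻¹ := by
    rw [transpose_nonsing_inv]
    congr 1
    rw [transpose_add, transpose_one, transpose_mul, transpose_transpose]
  have hRR : (1 + Aᵀ * A) * (1 + Aᵀ * A)⁻¹ = 1 := Matrix.mul_nonsing_inv _ hR1
  have hSS : (1 + A * Aᵀ) * (1 + A * Aᵀ)⁻¹ = 1 := Matrix.mul_nonsing_inv _ hS1
  have hSS' : (1 + A * Aᵀ)⁻¹ * (1 + A * Aᵀ) = 1 := Matrix.nonsing_inv_mul _ hS1
  rw [hbet, hPP, hQQ]
  generalize (1 + Aᵀ * A)⁻¹ = R at *
  generalize (1 + A * Aᵀ)⁻¹ = S at *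
  have hcomm : A * R = S * A := by
    calc A * R = (S * (1 + A * Aᵀ)) * (A * R) := by rw [hSS', one_mul]
      _ = S * (A * ((1 + Aᵀ * A) * R)) := by noncomm_ring
      _ = S * A := by rw [hRR, mul_one]
  have hX : Aᵀ * A * R = 1 - R := by
    rw [add_mul, one_mul] at hRR
    exact eq_sub_of_add_eq' hRR
  have hY : A * Aᵀ * S = 1 - S := by
    rw [add_mul, one_mul] at hSS
    exact eq_sub_of_add_eq' hSS
  constructor
  · have h1 : 1 - S - A * R * (A * R)ᵀ = (1 - S) * (1 - S)ᴴ := by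
      rw [conjTranspose_eq_transpose_of_trivial, hcomm, transpose_mul, transpose_sub,
        transpose_one, hSt]
      have h2 : S * A * (Aᵀ * S) = S * (A * Aᵀ * S) := by noncomm_ring
      rw [h2, hY]
      noncomm_ring
    rw [h1]
    exact posSemidef_self_mul_conjTranspose _
  · have h1 : 1 - R - (A * R)ᵀ * (A * R) = (1 - R) * (1 - R)ᴴ := by
      rw [conjTranspose_eq_transpose_of_trivial, transpose_mul, transpose_sub,
        transpose_one, hRt]
      have h2 : R * Aᵀ * (A * R) = R * (Aᵀ * A * R) := by noncomm_ring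
      rw [h2, hX]
      noncomm_ring
    rw [h1]
    exact posSemidef_self_mul_conjTranspose _

end

end Pool.Agent.TH704
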