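import Pool.Agent.Helper704.TH.Defs
import Pool.Agent.Helper704.TH.L_psd
import Pool.Agent.Helper704.TH.Defs2

set_option autoImplicit false
set_option maxHeartbeats 4000000
set_option linter.unusedVariables false
set_option linter.unusedSectionVars false

open Matrix Finset

namespace Pool.Agent.TH704

noncomputable section

variable {m n ι : Type*} [Fintype m] [DecidableEq m] [Fintype n] [DecidableEq n]
  [Fintype ι] [DecidableEq ι]









/-! aux -/

theorem h704_sq : (Real.sqrt 2)⁻¹ * (Real.sqrt 2)⁻¹ = (1 / 2 : ℝ) := by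
  rw [← mul_inv, Real.mul_self_sqrt (by norm_num)]
  norm_num

theorem h704_tr (f : Bool → Bool → Matrix ι ι ℝ) :
    trace ((blk f)ᵀ * blk f) = (1 / 4) * ∑ a : Bool, ∑ b : Bool, trace ((f a b)ᵀ * f a b) := by
  simp only [Matrix.trace, Matrix.diag_apply, Matrix.mul_apply, Matrix.transpose_apply, blk,
    Fintype.sum_prod_type, Fintype.sum_bool, Finset.mul_sum]
  simp only [Finset.mul_sum, mul_add, ← Finset.sum_add_distrib]
  refine Finset.sum_congr rfl fun i _ => ?_
  refine Finset.sum_congr rfl fun j _ => ?_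
  ring

theorem h704_dPsi (f : Bool → Bool → Matrix ι ι ℝ) :
    dPsi f = Real.log (det (1 + (blk f)ᵀ * blk f)) -
      (1 / 4) * ∑ a : Bool, ∑ b : Bool, Real.log (det (1 + (f a b)ᵀ * f a b)) := by
  unfold dPsi Psi
  rw [h704_tr]
  simp only [Fintype.sum_bool]
  ring

theorem h704_row1 (f : Bool → Bool → Matrix ι ι ℝ) :
    (1 / 2 : ℝ) • ((1 + (rw2 (f false))ᵀ * rw2 (f false)) + (1 + (rw2 (f true))ᵀ * rw2 (f true)))
      = 1 + (blk f)ᵀ * blk f := by
  ext x y
  simp only [Matrix.smul_apply, Matrix.add_apply, Matrix.mul_apply, Matrix.transpose_apply, blk,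
    rw2, Fintype.sum_prod_type, Fintype.sum_bool, smul_eq_mul]
  have h := h704_sq
  have e : ∀ a, ∑ j, (Real.sqrt 2)⁻¹ * f a x.1 j x.2 * ((Real.sqrt 2)⁻¹ * f a y.1 j y.2) =
      (1 / 2) * ∑ j, f a x.1 j x.2 * f a y.1 j y.2 := by
    intro a
    rw [Finset.mul_sum]
    refine Finset.sum_congr rfl fun j _ => ?_
    rw [← h]; ring
  have e2 : ∀ a, ∑ j, (1 / 2) * f a x.1 j x.2 * ((1 / 2) * f a y.1 j y.2) =
      (1 / 4) * ∑ j, f a x.1 j x.2 * f a y.1 j y.2 := by
    intro a
    rw [Finset.mul_sum]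
    refine Finset.sum_congr rfl fun j _ => ?_
    ring
  simp only [e, e2]
  ring

theorem h704_row2 (u : Bool → Matrix ι ι ℝ) :
    det (1 + (rw2 u)ᵀ * rw2 u) =
      det ((1 / 2 : ℝ) • ((1 + u false * (u false)ᵀ) + (1 + u true * (u true)ᵀ))) := by
  rw [Matrix.det_one_add_mul_comm]
  congr 1
  ext x y
  simp only [Matrix.smul_apply, Matrix.add_apply, Matrix.mul_apply, Matrix.transpose_apply,
    rw2, Fintype.sum_prod_type, Fintype.sum_bool, smul_eq_mul]
  have h := h704_sq
  have e : ∀ a, ∑ j, (Real.sqrt 2)⁻¹ * u a x j * ((Real.sqrt 2)⁻¹ * u a y j) =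
      (1 / 2) * ∑ j, u a x j * u a y j := by
    intro a
    rw [Finset.mul_sum]
    refine Finset.sum_congr rfl fun j _ => ?_
    rw [← h]; ring
  simp only [e]
  ring

theorem h704_col1 (f : Bool → Bool → Matrix ι ι ℝ) :
    (1 / 2 : ℝ) • ((1 + cl2 (fun b => f b false) * (cl2 (fun b => f b false))ᵀ) +
        (1 + cl2 (fun b => f b true) * (cl2 (fun b => f b true))ᵀ))
      = 1 + blk f * (blk f)ᵀ := by
  ext x y
  simp only [Matrix.smul_apply, Matrix.add_apply, Matrix.mul_apply, Matrix.transpose_apply, blk,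
    cl2, Fintype.sum_prod_type, Fintype.sum_bool, smul_eq_mul]
  have h := h704_sq
  have e : ∀ a, ∑ j, (Real.sqrt 2)⁻¹ * f x.1 a x.2 j * ((Real.sqrt 2)⁻¹ * f y.1 a y.2 j) =
      (1 / 2) * ∑ j, f x.1 a x.2 j * f y.1 a y.2 j := by
    intro a
    rw [Finset.mul_sum]
    refine Finset.sum_congr rfl fun j _ => ?_
    rw [← h]; ring
  have e2 : ∀ a, ∑ j, (1 / 2) * f x.1 a x.2 j * ((1 / 2) * f y.1 a y.2 j) =
      (1 / 4) * ∑ j, f x.1 a x.2 j * f y.1 a y.2 j := by
    intro a
    rw [Finset.mul_sum]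
    refine Finset.sum_congr rfl fun j _ => ?_
    ring
  simp only [e, e2]
  ring

theorem h704_col2 (u : Bool → Matrix ι ι ℝ) :
    det (1 + cl2 u * (cl2 u)ᵀ) =
      det ((1 / 2 : ℝ) • ((1 + (u false)ᵀ * u false) + (1 + (u true)ᵀ * u true))) := by
  rw [Matrix.det_one_add_mul_comm]
  congr 1
  ext x y
  simp only [Matrix.smul_apply, Matrix.add_apply, Matrix.mul_apply, Matrix.transpose_apply,
    cl2, Fintype.sum_prod_type, Fintype.sum_bool, smul_eq_mul]
  have h := h704_sq
  have e : ∀ a, ∑ j, (Real.sqrt 2)⁻¹ * u a j x * ((Real.sqrt 2)⁻¹ * u a j y) =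
      (1 / 2) * ∑ j, u a j x * u a j y := by
    intro a
    rw [Finset.mul_sum]
    refine Finset.sum_congr rfl fun j _ => ?_
    rw [← h]; ring
  simp only [e]
  ring



theorem chain_row (f : Bool → Bool → Matrix ι ι ℝ) :
    dPsi f = LD (1 + (rw2 (f false))ᵀ * rw2 (f false)) (1 + (rw2 (f true))ᵀ * rw2 (f true))
      + (1 / 2) * ∑ a : Bool, LD (1 + f a false * (f a false)ᵀ) (1 + f a true * (f a true)ᵀ) := by
  rw [h704_dPsi]
  unfold LD
  rw [h704_row1, h704_row2 (f false), h704_row2 (f true)]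
  simp only [Fintype.sum_bool]
  rw [Matrix.det_one_add_mul_comm (f true true), Matrix.det_one_add_mul_comm (f true false),
    Matrix.det_one_add_mul_comm (f false true), Matrix.det_one_add_mul_comm (f false false)]
  ring

theorem chain_col (f : Bool → Bool → Matrix ι ι ℝ) :
    dPsi f = LD (1 + cl2 (fun b => f b false) * (cl2 (fun b => f b false))ᵀ)
            (1 + cl2 (fun b => f b true) * (cl2 (fun b => f b true))ᵀ)
      + (1 / 2) * ∑ b : Bool, LD (1 + (f false b)ᵀ * f false b) (1 + (f true b)ᵀ * f true b) := by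
  rw [h704_dPsi]
  unfold LD
  rw [h704_col1, h704_col2 (fun b => f b false), h704_col2 (fun b => f b true),
    Matrix.det_one_add_mul_comm (blk f)]
  simp only [Fintype.sum_bool]
  ring

end

end Pool.Agent.TH704
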