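import Pool.Agent.Helper704.TH.Defs
import Pool.Agent.Helper704.TH.L_psd

set_option autoImplicit false
set_option maxHeartbeats 4000000
set_option linter.unusedVariables false
set_option linter.unusedSectionVars false

open Matrix Finset

namespace Pool.Agent.TH704

noncomputable section

variable {m n ι : Type*} [Fintype m] [DecidableEq m] [Fintype n] [DecidableEq n]
  [Fintype ι] [DecidableEq ι]











theorem dbt_abs {k l : Type*} [Fintype k] [DecidableEq k] [Fintype l] [DecidableEq l]
    (P : Matrix l l ℝ) (hP : P.PosSemidef) (x : Matrix k l ℝ) (y : Matrix l k ℝ) :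
    |trace (x * P * y)| ≤ (1 / 2) * (trace (x * P * xᵀ) + trace (yᵀ * P * y)) := by
  have hPt : Pᵀ = P := by
    have := hP.isHermitian
    rw [Matrix.IsHermitian, Matrix.conjTranspose_eq_transpose_of_trivial] at this
    exact this
  have hsym : trace (yᵀ * P * xᵀ) = trace (x * P * y) := by
    rw [← Matrix.trace_transpose (x * P * y)]
    congr 1
    rw [Matrix.transpose_mul, Matrix.transpose_mul, hPt, Matrix.mul_assoc]
  have key : ∀ z : Matrix k l ℝ, 0 ≤ trace (z * P * zᵀ) := by
    intro z
    have h1 : (z * P * zᴴ).PosSemidef := hP.mul_mul_conjTranspose_same z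
    rw [Matrix.conjTranspose_eq_transpose_of_trivial] at h1
    exact h1.trace_nonneg
  have h1 := key (x + yᵀ)
  have h2 := key (x - yᵀ)
  simp only [Matrix.transpose_add, Matrix.transpose_sub, Matrix.transpose_transpose,
    Matrix.add_mul, Matrix.sub_mul, Matrix.mul_add, Matrix.mul_sub, Matrix.trace_add,
    Matrix.trace_sub, hsym] at h1 h2
  rw [abs_le]
  constructor <;> linarith

theorem dbt_sgmT : (sgm : Matrix (Bool × ι) (Bool × ι) ℝ)ᵀ = sgm := by
  unfold sgm
  exact Matrix.diagonal_transpose _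

theorem dbt_sgm_sq : (sgm : Matrix (Bool × ι) (Bool × ι) ℝ) * sgm = 1 := by
  unfold sgm
  rw [Matrix.diagonal_mul_diagonal, ← Matrix.diagonal_one]
  congr 1
  funext x
  rcases x with ⟨_ | _, i⟩ <;> simp [sg]

theorem DBterm (A B C G b c : Matrix (Bool × ι) (Bool × ι) ℝ)
    (hG : (QQ A - G * PP A * Gᵀ).PosSemidef) (hb : ((4 : ℝ) • QQ B - b * bᵀ).PosSemidef)
    (hc : ((4 : ℝ) • PP C - cᵀ * c).PosSemidef) :
    |trace (sgm * (G * PP A) * sgm * b * sgm * c)| ≤ 2 * (EE A B + EE C A) := by
  have hP := PP_psd A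
  have hcyc : trace (sgm * (G * PP A) * sgm * b * sgm * c)
      = trace ((c * sgm * G) * PP A * (sgm * b * sgm)) := by
    rw [Matrix.trace_mul_comm _ c]
    congr 1
    simp only [Matrix.mul_assoc]
  have hconj : ∀ M : Matrix (Bool × ι) (Bool × ι) ℝ, M.PosSemidef → (sgm * M * sgm).PosSemidef := by
    intro M hM
    have h1 : (sgm * M * sgmᴴ).PosSemidef := hM.mul_mul_conjTranspose_same sgm
    rw [Matrix.conjTranspose_eq_transpose_of_trivial, dbt_sgmT] at h1
    exact h1
  have hcc : (cᵀ * c).PosSemidef := by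
    have := Matrix.posSemidef_conjTranspose_mul_self c
    rwa [Matrix.conjTranspose_eq_transpose_of_trivial] at this
  have h1 : trace ((c * sgm * G) * PP A * (c * sgm * G)ᵀ) ≤ 4 * EE C A := by
    have e1 : trace ((c * sgm * G) * PP A * (c * sgm * G)ᵀ)
        = trace ((G * PP A * Gᵀ) * (sgm * (cᵀ * c) * sgm)) := by
      rw [Matrix.transpose_mul, Matrix.transpose_mul, dbt_sgmT]
      have : c * sgm * G * PP A * (Gᵀ * (sgm * cᵀ)) = (c * sgm) * (G * PP A * Gᵀ * (sgm * cᵀ)) := by
        simp only [Matrix.mul_assoc]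
      rw [this, Matrix.trace_mul_comm]
      congr 1
      simp only [Matrix.mul_assoc]
    have e2 := trace_mul_nonneg hG (hconj _ hcc)
    rw [Matrix.sub_mul, Matrix.trace_sub] at e2
    have e3 := trace_mul_nonneg hc (hconj _ (QQ_psd A))
    rw [Matrix.sub_mul, Matrix.trace_sub, Matrix.smul_mul, Matrix.trace_smul, smul_eq_mul] at e3
    have e4 : trace (QQ A * (sgm * (cᵀ * c) * sgm)) = trace ((cᵀ * c) * (sgm * QQ A * sgm)) := by
      have : QQ A * (sgm * (cᵀ * c) * sgm) = (QQ A * sgm) * ((cᵀ * c) * sgm) := by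
        simp only [Matrix.mul_assoc]
      rw [this, Matrix.trace_mul_comm]
      congr 1
      simp only [Matrix.mul_assoc]
    have e5 : trace (PP C * (sgm * QQ A * sgm)) = EE C A := by
      unfold EE
      congr 1
      simp only [Matrix.mul_assoc]
    rw [e1]
    rw [e5] at e3
    linarith
  have h2 : trace ((sgm * b * sgm)ᵀ * PP A * (sgm * b * sgm)) ≤ 4 * EE A B := by
    have e1 : trace ((sgm * b * sgm)ᵀ * PP A * (sgm * b * sgm))
        = trace ((b * bᵀ) * (sgm * PP A * sgm)) := by
      rw [Matrix.transpose_mul, Matrix.transpose_mul, dbt_sgmT]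
      have : sgm * (bᵀ * sgm) * PP A * (sgm * b * sgm)
          = (sgm * (bᵀ * sgm) * PP A) * (sgm * b * sgm) := rfl
      rw [this, Matrix.trace_mul_comm]
      have h3 : sgm * b * sgm * (sgm * (bᵀ * sgm) * PP A) = sgm * (b * bᵀ * (sgm * PP A)) := by
        calc sgm * b * sgm * (sgm * (bᵀ * sgm) * PP A)
            = sgm * b * (sgm * sgm) * (bᵀ * sgm * PP A) := by simp only [Matrix.mul_assoc]
          _ = sgm * (b * bᵀ * (sgm * PP A)) := by
            rw [dbt_sgm_sq, Matrix.mul_one]; simp only [Matrix.mul_assoc]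
      rw [h3, Matrix.trace_mul_comm]
      congr 1
      simp only [Matrix.mul_assoc]
    have e3 := trace_mul_nonneg hb (hconj _ hP)
    rw [Matrix.sub_mul, Matrix.trace_sub, Matrix.smul_mul, Matrix.trace_smul, smul_eq_mul] at e3
    have e5 : trace (QQ B * (sgm * PP A * sgm)) = EE A B := by
      unfold EE
      have h4 : QQ B * (sgm * PP A * sgm) = (QQ B * sgm) * (PP A * sgm) := by
        simp only [Matrix.mul_assoc]
      rw [h4, Matrix.trace_mul_comm]
      congr 1
      simp only [Matrix.mul_assoc]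
    rw [e5] at e3
    rw [e1]
    linarith
  rw [hcyc]
  refine (dbt_abs (PP A) hP _ _).trans ?_
  linarith

end

end Pool.Agent.TH704
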