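import Pool.Agent.Helper704.TH.Defs
import Pool.Agent.Helper704.TH.L_psd
import Pool.Agent.Helper704.TH.Defs2

set_option autoImplicit false
set_option maxHeartbeats 4000000
set_option linter.unusedVariables false
set_option linter.unusedSectionVars false

open Matrix Finset

namespace Pool.Agent.TH704

noncomputable section

variable {m n ι : Type*} [Fintype m] [DecidableEq m] [Fintype n] [DecidableEq n]
  [Fintype ι] [DecidableEq ι]















theorem del_fact (A : Matrix ι ι ℝ) :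
    ∃ G : Matrix ι ι ℝ, bet2 A - bet A = G * PP A ∧ (QQ A - G * PP A * Gᵀ).PosSemidef := by
  obtain ⟨X, hX⟩ : ∃ X, X = Aᵀ * A := ⟨_, rfl⟩
  obtain ⟨R, hR⟩ : ∃ R, R = (1 + X)⁻¹ := ⟨_, rfl⟩
  have hXT : Xᵀ = X := by rw [hX, transpose_mul, transpose_transpose]
  have hpd : (1 + X).PosDef := by rw [hX]; exact posdef_row A
  have hRpsd : R.PosSemidef := by rw [hR]; exact hpd.inv.posSemidef
  have hdet : IsUnit (1 + X).det := isUnit_iff_ne_zero.2 hpd.det_pos.ne'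
  have hR1 : (1 + X) * R = 1 := by rw [hR]; exact mul_nonsing_inv _ hdet
  have hR2 : R * (1 + X) = 1 := by rw [hR]; exact nonsing_inv_mul _ hdet
  have e1 : X * R = 1 - R := by
    rw [add_mul, one_mul] at hR1
    rw [← hR1]; abel
  have e2 : R * X = 1 - R := by
    rw [mul_add, mul_one] at hR2
    rw [← hR2]; abel
  have hRT : Rᵀ = R := by
    rw [hR, transpose_nonsing_inv, transpose_add, transpose_one, hXT]
  -- the half scale
  have hX4 : (1 + ((1 / 2 : ℝ) • A)ᵀ * ((1 / 2 : ℝ) • A)) = 1 + (1 / 4 : ℝ) • X := by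
    rw [transpose_smul, smul_mul_assoc, mul_smul_comm, smul_smul, ← hX]
    norm_num
  obtain ⟨W, hW⟩ : ∃ W, W = (1 + (1 / 4 : ℝ) • X)⁻¹ := ⟨_, rfl⟩
  have hpd4 : (1 + (1 / 4 : ℝ) • X).PosDef := by rw [← hX4]; exact posdef_row _
  have hdet4 : IsUnit (1 + (1 / 4 : ℝ) • X).det := isUnit_iff_ne_zero.2 hpd4.det_pos.ne'
  have hW1 : (1 + (1 / 4 : ℝ) • X) * W = 1 := by rw [hW]; exact mul_nonsing_inv _ hdet4
  have hW2 : W * (1 + (1 / 4 : ℝ) • X) = 1 := by rw [hW]; exact nonsing_inv_mul _ hdet4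
  have hWT : Wᵀ = W := by
    rw [hW, transpose_nonsing_inv, transpose_add, transpose_one, transpose_smul, hXT]
  have hP : PP A = 1 - R := by unfold PP; rw [← hX, ← hR]
  have hbet : bet A = A * R := by unfold bet; rw [← hX, ← hR]
  have hbet2 : bet2 A = A * W := by
    unfold bet2 bet
    rw [hX4, ← hW, smul_mul_assoc, smul_smul]
    norm_num
  have hQ : QQ A = A * R * Aᵀ := by
    unfold QQ
    have h1 : (1 + A * Aᵀ)⁻¹ = 1 - A * R * Aᵀ := by
      apply inv_eq_right_inv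
      have h2 : A * Aᵀ * (A * R * Aᵀ) = A * (X * R) * Aᵀ := by
        rw [hX]; simp only [Matrix.mul_assoc]
      rw [add_mul, one_mul, mul_sub, mul_one, h2, e1, mul_sub, mul_one, sub_mul]
      abel
    rw [h1]; abel
  -- `W - R = (3/4) W (1 - R)`
  have h3 : X * R * X = X - 1 + R := by
    rw [e1, sub_mul, one_mul, e2]; abel
  have hWR : W - R = (3 / 4 : ℝ) • (W * (1 - R)) := by
    have h4 : (1 + (1 / 4 : ℝ) • X) * R = (1 / 4 : ℝ) • (1 : Matrix ι ι ℝ) + (3 / 4 : ℝ) • R := by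
      rw [add_mul, one_mul, smul_mul_assoc, e1]
      module
    have h5 : R = W * ((1 / 4 : ℝ) • (1 : Matrix ι ι ℝ) + (3 / 4 : ℝ) • R) := by
      rw [← h4, ← Matrix.mul_assoc, hW2, one_mul]
    have h6 : W * ((1 / 4 : ℝ) • (1 : Matrix ι ι ℝ) + (3 / 4 : ℝ) • R) =
        (1 / 4 : ℝ) • W + (3 / 4 : ℝ) • (W * R) := by
      rw [mul_add, mul_smul_comm, mul_one, mul_smul_comm]
    rw [h6] at h5
    rw [mul_sub, mul_one]
    calc W - R = W - ((1 / 4 : ℝ) • W + (3 / 4 : ℝ) • (W * R)) := by rw [← h5]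
      _ = _ := by module
  have hM : (1 + (1 / 4 : ℝ) • X) * R * (1 + (1 / 4 : ℝ) • X) =
      (9 / 16 : ℝ) • R + (7 / 16 : ℝ) • (1 : Matrix ι ι ℝ) + (1 / 16 : ℝ) • X := by
    have h4 : (1 + (1 / 4 : ℝ) • X) * R * (1 + (1 / 4 : ℝ) • X) =
        R + (1 / 4 : ℝ) • (X * R) + (1 / 4 : ℝ) • (R * X) + (1 / 16 : ℝ) • (X * R * X) := by
      simp only [add_mul, mul_add, one_mul, mul_one, smul_mul_assoc, mul_smul_comm]
      module
    rw [h4, h3, e1, e2]
    module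
  have hN : (X - (1 / 2 : ℝ) • (1 : Matrix ι ι ℝ)) * R * (X - (1 / 2 : ℝ) • (1 : Matrix ι ι ℝ)) =
      X - (2 : ℝ) • (1 : Matrix ι ι ℝ) + (9 / 4 : ℝ) • R := by
    have h4 : (X - (1 / 2 : ℝ) • (1 : Matrix ι ι ℝ)) * R * (X - (1 / 2 : ℝ) • (1 : Matrix ι ι ℝ)) =
        X * R * X - (1 / 2 : ℝ) • (X * R) - (1 / 2 : ℝ) • (R * X) + (1 / 4 : ℝ) • R := by
      simp only [sub_mul, mul_sub, one_mul, mul_one, smul_mul_assoc, mul_smul_comm]
      module
    rw [h4, h3, e1, e2]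
    module
  have hRW : R = W * ((9 / 16 : ℝ) • R + (7 / 16 : ℝ) • (1 : Matrix ι ι ℝ) + (1 / 16 : ℝ) • X) *
      W := by
    rw [← hM]
    calc R = (W * (1 + (1 / 4 : ℝ) • X)) * R * ((1 + (1 / 4 : ℝ) • X) * W) := by
          rw [hW1, hW2, one_mul, mul_one]
      _ = _ := by simp only [Matrix.mul_assoc]
  have key : R - (9 / 16 : ℝ) • (W * (1 - R) * W) =
      W * ((1 / 16 : ℝ) • ((X - (1 / 2 : ℝ) • (1 : Matrix ι ι ℝ)) * R *
        (X - (1 / 2 : ℝ) • (1 : Matrix ι ι ℝ))) + (63 / 64 : ℝ) • R) * W := by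
    have h5 : (9 / 16 : ℝ) • (W * (1 - R) * W) = W * ((9 / 16 : ℝ) • (1 - R)) * W := by
      rw [mul_smul_comm, smul_mul_assoc]
    rw [h5]
    nth_rewrite 1 [hRW]
    rw [← sub_mul, ← mul_sub, hN]
    congr 2
    module
  refine ⟨(3 / 4 : ℝ) • (A * W), ?_, ?_⟩
  · rw [hbet, hbet2, hP, ← mul_sub, hWR, mul_smul_comm, smul_mul_assoc, Matrix.mul_assoc]
  · have htot : QQ A - (3 / 4 : ℝ) • (A * W) * PP A * ((3 / 4 : ℝ) • (A * W))ᵀ =
        (1 / 16 : ℝ) • ((A * W * (X - (1 / 2 : ℝ) • (1 : Matrix ι ι ℝ))) * R *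
          (A * W * (X - (1 / 2 : ℝ) • (1 : Matrix ι ι ℝ)))ᵀ) +
        (63 / 64 : ℝ) • ((A * W) * R * (A * W)ᵀ) := by
      have t1 : (A * W * (X - (1 / 2 : ℝ) • (1 : Matrix ι ι ℝ)))ᵀ =
          (X - (1 / 2 : ℝ) • (1 : Matrix ι ι ℝ)) * W * Aᵀ := by
        rw [transpose_mul, transpose_mul, hWT, transpose_sub, hXT, transpose_smul, transpose_one,
          Matrix.mul_assoc]
      have t2 : (A * W)ᵀ = W * Aᵀ := by rw [transpose_mul, hWT]
      rw [hQ, hP, transpose_smul, t1, t2]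
      have s1 : (3 / 4 : ℝ) • (A * W) * (1 - R) * ((3 / 4 : ℝ) • (W * Aᵀ)) =
          A * ((9 / 16 : ℝ) • (W * (1 - R) * W)) * Aᵀ := by
        simp only [smul_mul_assoc, mul_smul_comm, smul_smul, Matrix.mul_assoc]
        norm_num
      have s2 : (1 / 16 : ℝ) • ((A * W * (X - (1 / 2 : ℝ) • (1 : Matrix ι ι ℝ))) * R *
          ((X - (1 / 2 : ℝ) • (1 : Matrix ι ι ℝ)) * W * Aᵀ)) +
          (63 / 64 : ℝ) • ((A * W) * R * (W * Aᵀ)) =
          A * (W * ((1 / 16 : ℝ) • ((X - (1 / 2 : ℝ) • (1 : Matrix ι ι ℝ)) * R *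
            (X - (1 / 2 : ℝ) • (1 : Matrix ι ι ℝ))) + (63 / 64 : ℝ) • R) * W) * Aᵀ := by
        rw [mul_add, add_mul, mul_add, add_mul]
        simp only [smul_mul_assoc, mul_smul_comm, Matrix.mul_assoc]
      have s3 : A * (R - (9 / 16 : ℝ) • (W * (1 - R) * W)) * Aᵀ =
          A * R * Aᵀ - A * ((9 / 16 : ℝ) • (W * (1 - R) * W)) * Aᵀ := by
        rw [Matrix.mul_sub A R, Matrix.sub_mul]
      rw [s1, s2, ← key, s3]
    rw [htot]
    have c1 := hRpsd.mul_mul_conjTranspose_same (A * W * (X - (1 / 2 : ℝ) • (1 : Matrix ι ι ℝ)))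
    have c2 := hRpsd.mul_mul_conjTranspose_same (A * W)
    rw [conjTranspose_eq_transpose_of_trivial] at c1 c2
    exact (c1.smul (by norm_num)).add (c2.smul (by norm_num))

end

end Pool.Agent.TH704
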