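import Pool.Agent.Helper704.TH.Defs

set_option autoImplicit false
set_option maxHeartbeats 4000000
set_option linter.unusedVariables false
set_option linter.unusedSectionVars false

open Matrix Finset

namespace Pool.Agent.TH704

noncomputable section

variable {m n ι : Type*} [Fintype m] [DecidableEq m] [Fintype n] [DecidableEq n]
  [Fintype ι] [DecidableEq ι]


theorem LD_sum_sq (S : Matrix n n ℝ) (d : n → ℝ) (hS : IsUnit S.det) (hd : ∀ i, |d i| < 1) :
    ∑ i, d i ^ 2 ≤ 2 * LD (S * diagonal (fun i => 1 + d i) * Sᵀ)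
      (S * diagonal (fun i => 1 - d i) * Sᵀ) := by
  have hdet : S.det ≠ 0 := hS.ne_zero
  have hs2 : S.det ^ 2 ≠ 0 := pow_ne_zero _ hdet
  have hp : ∀ i, 0 < 1 + d i := fun i => by have := (abs_lt.mp (hd i)).1; linarith
  have hm : ∀ i, 0 < 1 - d i := fun i => by have := (abs_lt.mp (hd i)).2; linarith
  have hX : det (S * diagonal (fun i => 1 + d i) * Sᵀ) = S.det ^ 2 * ∏ i, (1 + d i) := by
    rw [det_mul, det_mul, det_transpose, det_diagonal]; ring
  have hY : det (S * diagonal (fun i => 1 - d i) * Sᵀ) = S.det ^ 2 * ∏ i, (1 - d i) := by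
    rw [det_mul, det_mul, det_transpose, det_diagonal]; ring
  have hXY : (1 / 2 : ℝ) • (S * diagonal (fun i => 1 + d i) * Sᵀ
      + S * diagonal (fun i => 1 - d i) * Sᵀ) = S * Sᵀ := by
    rw [← Matrix.add_mul, ← Matrix.mul_add, diagonal_add]
    have h2 : (diagonal (fun i => 1 + d i + (1 - d i)) : Matrix n n ℝ) = (2 : ℝ) • 1 := by
      ext i j
      by_cases hij : i = j
      · subst hij; simp; norm_num
      · simp [hij]
    rw [h2, Matrix.mul_smul, Matrix.mul_one, Matrix.smul_mul, smul_smul]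
    norm_num
  have hZ : det (S * Sᵀ) = S.det ^ 2 := by rw [det_mul, det_transpose]; ring
  have hpp : (∏ i, (1 + d i)) ≠ 0 := Finset.prod_ne_zero_iff.mpr (fun i _ => (hp i).ne')
  have hmm : (∏ i, (1 - d i)) ≠ 0 := Finset.prod_ne_zero_iff.mpr (fun i _ => (hm i).ne')
  unfold LD
  rw [hXY, hX, hY, hZ, Real.log_mul hs2 hpp, Real.log_mul hs2 hmm,
    Real.log_prod (fun i _ => (hp i).ne'), Real.log_prod (fun i _ => (hm i).ne')]
  have hkey : ∀ i, d i ^ 2 ≤ -(Real.log (1 + d i) + Real.log (1 - d i)) := by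
    intro i
    rw [← Real.log_mul (hp i).ne' (hm i).ne']
    have := Real.log_le_sub_one_of_pos (mul_pos (hp i) (hm i))
    nlinarith
  calc ∑ i, d i ^ 2 ≤ ∑ i, -(Real.log (1 + d i) + Real.log (1 - d i)) :=
        Finset.sum_le_sum (fun i _ => hkey i)
    _ = _ := by
        rw [Finset.sum_neg_distrib, Finset.sum_add_distrib]; ring

end

end Pool.Agent.TH704
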