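import Pool.Agent.Helper704.TH.Defs

set_option autoImplicit false
set_option maxHeartbeats 4000000
set_option linter.unusedVariables false
set_option linter.unusedSectionVars false

open Matrix Finset

namespace Pool.Agent.TH704

noncomputable section

variable {m n ι : Type*} [Fintype m] [DecidableEq m] [Fintype n] [DecidableEq n]
  [Fintype ι] [DecidableEq ι]


/-- real spectral theorem in matrix form -/
theorem spec408 (A : Matrix n n ℝ) (hA : A.IsHermitian) :
    ∃ (U : Matrix n n ℝ) (e : n → ℝ), U * Uᵀ = 1 ∧ Uᵀ * U = 1 ∧ A = U * diagonal e * Uᵀ := by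
  refine ⟨hA.eigenvectorUnitary, hA.eigenvalues, ?_, ?_, ?_⟩
  · have := Matrix.mem_unitaryGroup_iff.mp hA.eigenvectorUnitary.2
    simpa [star_eq_conjTranspose] using this
  · have := Matrix.mem_unitaryGroup_iff'.mp hA.eigenvectorUnitary.2
    simpa [star_eq_conjTranspose] using this
  · have h := hA.spectral_theorem
    conv_lhs => rw [h]
    rw [Unitary.conjStarAlgAut_apply]
    simp [star_eq_conjTranspose]

theorem conj408 (W B C : Matrix n n ℝ) (hW : W.PosDef) (hBC : B * C = 1) : (B * W * Bᵀ).PosDef := by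
  have h := hW.mul_mul_conjTranspose_same (B := B) (by
    intro v w hvw
    have h2 := congrArg (fun z => z ᵥ* C) hvw
    simpa [Matrix.vecMul_vecMul, hBC] using h2)
  simpa [Matrix.conjTranspose_eq_transpose_of_trivial] using h

theorem simdiag (X Y : Matrix n n ℝ) (hX : X.PosDef) (hY : Y.PosDef) :
    ∃ (S : Matrix n n ℝ) (d : n → ℝ), IsUnit S.det ∧ (∀ i, |d i| < 1) ∧
      X = S * diagonal (fun i => 1 + d i) * Sᵀ ∧ Y = S * diagonal (fun i => 1 - d i) * Sᵀ := by
  have hXY : (X + Y).PosDef := hX.add hY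
  obtain ⟨U, e, hU1, hU2, hM⟩ := spec408 (X + Y) hXY.1
  -- eigenvalues positive
  have hdiag : diagonal e = Uᵀ * (X + Y) * U := by
    rw [hM]
    calc diagonal e = (Uᵀ * U) * diagonal e * (Uᵀ * U) := by rw [hU2]; simp
      _ = _ := by simp only [Matrix.mul_assoc]
  have he : ∀ i, 0 < e i := by
    have h1 : (Uᵀ * (X + Y) * U).PosDef := by
      have := conj408 (X + Y) Uᵀ U hXY hU2
      rwa [Matrix.transpose_transpose] at this
    rw [← hdiag] at h1
    exact Matrix.posDef_diagonal_iff.mp h1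
  -- square root
  let S0 : Matrix n n ℝ := U * diagonal (fun i => Real.sqrt (e i / 2))
  let T0 : Matrix n n ℝ := diagonal (fun i => (Real.sqrt (e i / 2))⁻¹) * Uᵀ
  have hs : ∀ i, Real.sqrt (e i / 2) ≠ 0 := fun i => (Real.sqrt_pos.mpr (by have := he i; linarith)).ne'
  have hST : S0 * T0 = 1 := by
    calc S0 * T0 = U * (diagonal (fun i => Real.sqrt (e i / 2)) * diagonal (fun i => (Real.sqrt (e i / 2))⁻¹)) * Uᵀ := by
          simp only [S0, T0, Matrix.mul_assoc]
      _ = 1 := by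
          rw [Matrix.diagonal_mul_diagonal]
          have : (fun i => Real.sqrt (e i / 2) * (Real.sqrt (e i / 2))⁻¹) = fun _ => (1:ℝ) := by
            funext i; exact mul_inv_cancel₀ (hs i)
          rw [this, Matrix.diagonal_one, Matrix.mul_one, hU1]
  have hTS : T0 * S0 = 1 := mul_eq_one_comm.mp hST
  have hM0 : S0 * S0ᵀ = (1/2 : ℝ) • (X + Y) := by
    have : S0ᵀ = diagonal (fun i => Real.sqrt (e i / 2)) * Uᵀ := by
      simp only [S0, Matrix.transpose_mul, Matrix.diagonal_transpose]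
    rw [this]
    calc S0 * (diagonal (fun i => Real.sqrt (e i / 2)) * Uᵀ)
        = U * (diagonal (fun i => Real.sqrt (e i / 2)) * diagonal (fun i => Real.sqrt (e i / 2))) * Uᵀ := by
          simp only [S0, Matrix.mul_assoc]
      _ = U * ((1/2 : ℝ) • diagonal e) * Uᵀ := by
          rw [Matrix.diagonal_mul_diagonal, ← Matrix.diagonal_smul]
          congr 3
          funext i
          rw [Real.mul_self_sqrt (by have := he i; linarith)]
          simp; ring
      _ = (1/2 : ℝ) • (X + Y) := by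
          rw [hM]; simp
  have hT0 : S0ᵀ * T0ᵀ = 1 := by rw [← Matrix.transpose_mul, hTS, Matrix.transpose_one]
  have hT0' : T0ᵀ * S0ᵀ = 1 := by rw [← Matrix.transpose_mul, hST, Matrix.transpose_one]
  -- the difference
  have hsymX : Xᵀ = X := by simpa [Matrix.IsHermitian] using hX.1
  have hsymY : Yᵀ = Y := by simpa [Matrix.IsHermitian] using hY.1
  let Z : Matrix n n ℝ := T0 * ((1/2 : ℝ) • (X - Y)) * T0ᵀ
  have hZ : Z.IsHermitian := by
    rw [Matrix.IsHermitian, Matrix.conjTranspose_eq_transpose_of_trivial]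
    simp only [Z, Matrix.transpose_mul, Matrix.transpose_transpose, Matrix.transpose_smul, Matrix.transpose_sub, hsymX, hsymY, Matrix.mul_assoc]
  obtain ⟨V, d, hV1, hV2, hZd⟩ := spec408 Z hZ
  have hZ' : S0 * Z * S0ᵀ = (1/2 : ℝ) • (X - Y) := by
    calc S0 * Z * S0ᵀ = (S0 * T0) * ((1/2 : ℝ) • (X - Y)) * (T0ᵀ * S0ᵀ) := by simp only [Z, Matrix.mul_assoc]
      _ = _ := by rw [hST, hT0']; simp
  let S : Matrix n n ℝ := S0 * V
  have hSt : Sᵀ = Vᵀ * S0ᵀ := by simp only [S, Matrix.transpose_mul]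
  have hSS : S * Sᵀ = (1/2 : ℝ) • (X + Y) := by
    rw [hSt]
    calc S * (Vᵀ * S0ᵀ) = S0 * (V * Vᵀ) * S0ᵀ := by simp only [S, Matrix.mul_assoc]
      _ = _ := by rw [hV1, Matrix.mul_one, hM0]
  have hSdS : S * diagonal d * Sᵀ = (1/2 : ℝ) • (X - Y) := by
    rw [hSt]
    calc S * diagonal d * (Vᵀ * S0ᵀ) = S0 * (V * diagonal d * Vᵀ) * S0ᵀ := by simp only [S, Matrix.mul_assoc]
      _ = _ := by rw [← hZd, hZ']
  have hXe : X = S * diagonal (fun i => 1 + d i) * Sᵀ := by
    have : diagonal (fun i => 1 + d i) = (1 : Matrix n n ℝ) + diagonal d := by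
      rw [← Matrix.diagonal_one, Matrix.diagonal_add]
    rw [this, Matrix.mul_add, Matrix.add_mul, Matrix.mul_one, hSS, hSdS]
    module
  have hYe : Y = S * diagonal (fun i => 1 - d i) * Sᵀ := by
    have : diagonal (fun i => 1 - d i) = (1 : Matrix n n ℝ) - diagonal d := by
      rw [← Matrix.diagonal_one, Matrix.diagonal_sub]
    rw [this, Matrix.mul_sub, Matrix.sub_mul, Matrix.mul_one, hSS, hSdS]
    module
  have hSu : S * (Vᵀ * T0) = 1 := by
    calc S * (Vᵀ * T0) = S0 * (V * Vᵀ) * T0 := by simp only [S, Matrix.mul_assoc]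
      _ = 1 := by rw [hV1, Matrix.mul_one, hST]
  have hdet : IsUnit S.det := by
    have := congrArg Matrix.det hSu
    rw [Matrix.det_mul, Matrix.det_one] at this
    exact IsUnit.of_mul_eq_one _ this
  have key : ∀ (W : Matrix n n ℝ) (f : n → ℝ), W.PosDef → W = S * diagonal f * Sᵀ → ∀ i, 0 < f i := by
    intro W f hW hWe
    have hS2 : (Vᵀ * T0) * S = 1 := mul_eq_one_comm.mp hSu
    have h1 : diagonal f = (Vᵀ * T0) * W * (Vᵀ * T0)ᵀ := by
      have h3 : Sᵀ * (Vᵀ * T0)ᵀ = 1 := by rw [← Matrix.transpose_mul, hS2, Matrix.transpose_one]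
      rw [hWe]
      calc diagonal f = ((Vᵀ * T0) * S) * diagonal f * (Sᵀ * (Vᵀ * T0)ᵀ) := by rw [hS2, h3]; simp
        _ = _ := by simp only [Matrix.mul_assoc]
    have h2 : ((Vᵀ * T0) * W * (Vᵀ * T0)ᵀ).PosDef := conj408 W (Vᵀ * T0) S hW hS2
    rw [← h1] at h2
    exact Matrix.posDef_diagonal_iff.mp h2
  refine ⟨S, d, hdet, ?_, hXe, hYe⟩
  intro i
  have h1 := key X _ hX hXe i
  have h2 := key Y _ hY hYe i
  rw [abs_lt]
  constructor <;> linarith

end

end Pool.Agent.TH704
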