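import Pool.Agent.Helper704.TH.Defs
import Pool.Agent.Helper704.TH.L_ldsum
import Pool.Agent.Helper704.TH.L_simdiag

set_option autoImplicit false
set_option maxHeartbeats 4000000
set_option linter.unusedVariables false
set_option linter.unusedSectionVars false

open Matrix Finset

namespace Pool.Agent.TH704

noncomputable section

variable {m n ι : Type*} [Fintype m] [DecidableEq m] [Fintype n] [DecidableEq n]
  [Fintype ι] [DecidableEq ι]









theorem pair_delta (X Y : Matrix n n ℝ) (hX : (X - 1).PosSemidef) (hY : (Y - 1).PosSemidef) :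
    ((1 / 2 : ℝ) • (X⁻¹ + Y⁻¹) - ((1 / 2 : ℝ) • (X + Y))⁻¹).PosSemidef ∧
      trace ((1 / 2 : ℝ) • (X⁻¹ + Y⁻¹) - ((1 / 2 : ℝ) • (X + Y))⁻¹) ≤ 2 * LD X Y := by
  have hct : ∀ M : Matrix n n ℝ, Mᴴ = Mᵀ := fun M => Matrix.conjTranspose_eq_transpose_of_trivial M
  have hXp : X.PosDef := by
    have h := Matrix.PosDef.one.posSemidef_add hX
    rwa [sub_add_cancel] at h
  have hYp : Y.PosDef := by
    have h := Matrix.PosDef.one.posSemidef_add hY
    rwa [sub_add_cancel] at h
  obtain ⟨S, d, hS, hd, hXS, hYS⟩ := simdiag X Y hXp hYp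
  set T : Matrix n n ℝ := S⁻¹ with hT
  have hST : S * T = 1 := Matrix.mul_nonsing_inv S hS
  have hTS : T * S = 1 := Matrix.nonsing_inv_mul S hS
  have hSTt : Tᵀ * Sᵀ = 1 := by rw [← Matrix.transpose_mul, hST, Matrix.transpose_one]
  have hTSt : Sᵀ * Tᵀ = 1 := by rw [← Matrix.transpose_mul, hTS, Matrix.transpose_one]
  have hinv : ∀ e e' : n → ℝ, (∀ i, e i * e' i = 1) →
      (S * diagonal e * Sᵀ)⁻¹ = Tᵀ * diagonal e' * T := by
    intro e e' he
    apply Matrix.inv_eq_right_inv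
    calc S * diagonal e * Sᵀ * (Tᵀ * diagonal e' * T)
        = S * diagonal e * (Sᵀ * Tᵀ) * diagonal e' * T := by simp only [Matrix.mul_assoc]
      _ = S * (diagonal e * diagonal e') * T := by rw [hTSt, Matrix.mul_one, Matrix.mul_assoc S]
      _ = 1 := by
        rw [Matrix.diagonal_mul_diagonal]
        have : (fun i => e i * e' i) = fun _ => (1:ℝ) := funext he
        rw [this, Matrix.diagonal_one, Matrix.mul_one, hST]
  have hd1 : ∀ i, 0 < 1 + d i := fun i => by have := (abs_lt.1 (hd i)).1; linarith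
  have hd2 : ∀ i, 0 < 1 - d i := fun i => by have := (abs_lt.1 (hd i)).2; linarith
  have hd3 : ∀ i, 0 < 1 - d i ^ 2 := fun i => by
    have := mul_pos (hd1 i) (hd2 i)
    nlinarith
  have hXi : X⁻¹ = Tᵀ * diagonal (fun i => (1 + d i)⁻¹) * T := by
    rw [hXS]
    exact hinv _ _ (fun i => mul_inv_cancel₀ (hd1 i).ne')
  have hYi : Y⁻¹ = Tᵀ * diagonal (fun i => (1 - d i)⁻¹) * T := by
    rw [hYS]
    exact hinv _ _ (fun i => mul_inv_cancel₀ (hd2 i).ne')
  have hXY : (1 / 2 : ℝ) • (X + Y) = S * diagonal (fun _ => (1:ℝ)) * Sᵀ := by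
    rw [hXS, hYS, ← Matrix.add_mul, ← Matrix.mul_add, Matrix.diagonal_add, ← Matrix.smul_mul,
      ← Matrix.mul_smul]
    congr 2
    ext i j
    by_cases hij : i = j
    · subst hij
      simp only [Matrix.smul_apply, Matrix.diagonal_apply_eq, smul_eq_mul]
      ring
    · simp [Matrix.diagonal_apply_ne _ hij, Matrix.one_apply_ne hij]
  have hXYi : ((1 / 2 : ℝ) • (X + Y))⁻¹ = Tᵀ * diagonal (fun _ => (1:ℝ)) * T := by
    rw [hXY]
    exact hinv _ _ (fun i => mul_one _)
  have hΔ : (1 / 2 : ℝ) • (X⁻¹ + Y⁻¹) - ((1 / 2 : ℝ) • (X + Y))⁻¹ =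
      Tᵀ * diagonal (fun i => d i ^ 2 / (1 - d i ^ 2)) * T := by
    rw [hXi, hYi, hXYi, ← Matrix.add_mul, ← Matrix.mul_add, Matrix.diagonal_add, ← Matrix.smul_mul,
      ← Matrix.mul_smul, ← Matrix.sub_mul, ← Matrix.mul_sub]
    congr 2
    ext i j
    by_cases hij : i = j
    · subst hij
      simp only [Matrix.smul_apply, Matrix.diagonal_apply_eq, smul_eq_mul, Matrix.sub_apply]
      have e1 := (hd1 i).ne'
      have e2 := (hd2 i).ne'
      have e3 := (hd3 i).ne'
      field_simp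
      ring
    · simp [Matrix.diagonal_apply_ne _ hij, Matrix.one_apply_ne hij]
  have hR : ∀ i, (T * Tᵀ) i i ≤ 1 - d i ^ 2 := by
    intro i
    have h1 : (T * (X - 1) * Tᵀ).PosSemidef := by
      have := hX.mul_mul_conjTranspose_same T
      rwa [hct] at this
    have h2 : (T * (Y - 1) * Tᵀ).PosSemidef := by
      have := hY.mul_mul_conjTranspose_same T
      rwa [hct] at this
    have h3 : T * (X - 1) * Tᵀ = diagonal (fun i => 1 + d i) - T * Tᵀ := by
      rw [Matrix.mul_sub, Matrix.sub_mul, Matrix.mul_one]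
      congr 1
      rw [hXS]
      calc T * (S * diagonal (fun i => 1 + d i) * Sᵀ) * Tᵀ
          = (T * S) * diagonal (fun i => 1 + d i) * (Sᵀ * Tᵀ) := by simp only [Matrix.mul_assoc]
        _ = diagonal (fun i => 1 + d i) := by rw [hTS, hTSt, Matrix.mul_one, Matrix.one_mul]
    have h4 : T * (Y - 1) * Tᵀ = diagonal (fun i => 1 - d i) - T * Tᵀ := by
      rw [Matrix.mul_sub, Matrix.sub_mul, Matrix.mul_one]
      congr 1
      rw [hYS]
      calc T * (S * diagonal (fun i => 1 - d i) * Sᵀ) * Tᵀ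
          = (T * S) * diagonal (fun i => 1 - d i) * (Sᵀ * Tᵀ) := by simp only [Matrix.mul_assoc]
        _ = diagonal (fun i => 1 - d i) := by rw [hTS, hTSt, Matrix.mul_one, Matrix.one_mul]
    rw [h3] at h1
    rw [h4] at h2
    have e1 := h1.diag_nonneg (i := i)
    have e2 := h2.diag_nonneg (i := i)
    simp only [Matrix.sub_apply, Matrix.diagonal_apply_eq] at e1 e2
    have f1 := hd1 i
    have f2 := hd2 i
    rcases le_total 0 (d i) with h | h
    · nlinarith
    · nlinarith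
  refine ⟨?_, ?_⟩
  · rw [hΔ]
    have h1 : (diagonal (fun i => d i ^ 2 / (1 - d i ^ 2)) : Matrix n n ℝ).PosSemidef := by
      apply Matrix.PosSemidef.diagonal
      intro i
      exact div_nonneg (sq_nonneg _) (hd3 i).le
    have := h1.conjTranspose_mul_mul_same T
    rwa [hct] at this
  · rw [hΔ, Matrix.mul_assoc, Matrix.trace_mul_comm, Matrix.mul_assoc]
    have h1 : trace (diagonal (fun i => d i ^ 2 / (1 - d i ^ 2)) * (T * Tᵀ)) ≤ ∑ i, d i ^ 2 := by
      rw [Matrix.trace]
      apply Finset.sum_le_sum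
      intro i _
      rw [Matrix.diag_apply, Matrix.diagonal_mul]
      calc d i ^ 2 / (1 - d i ^ 2) * (T * Tᵀ) i i
          ≤ d i ^ 2 / (1 - d i ^ 2) * (1 - d i ^ 2) :=
            mul_le_mul_of_nonneg_left (hR i) (div_nonneg (sq_nonneg _) (hd3 i).le)
        _ = d i ^ 2 := div_mul_cancel₀ _ (hd3 i).ne'
    have h2 := LD_sum_sq S d hS hd
    rw [← hXS, ← hYS] at h2
    exact h1.trans h2

end

end Pool.Agent.TH704
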