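import Pool.Agent.Helper704.TH.Defs
import Pool.Agent.Helper704.TH.L_ldsum
import Pool.Agent.Helper704.TH.L_psd
import Pool.Agent.Helper704.TH.L_simdiag

set_option autoImplicit false
set_option maxHeartbeats 4000000
set_option linter.unusedVariables false
set_option linter.unusedSectionVars false

open Matrix Finset

namespace Pool.Agent.TH704

noncomputable section

variable {m n ι : Type*} [Fintype m] [DecidableEq m] [Fintype n] [DecidableEq n]
  [Fintype ι] [DecidableEq ι]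









theorem pf_inv (S : Matrix n n ℝ) (hS : IsUnit S.det) (e : n → ℝ) (he : ∀ i, e i ≠ 0) :
    (S * diagonal e * Sᵀ)⁻¹ = (S⁻¹)ᵀ * diagonal (fun i => (e i)⁻¹) * S⁻¹ := by
  have hGS : S⁻¹ * S = 1 := Matrix.nonsing_inv_mul S hS
  have hSG : S * S⁻¹ = 1 := Matrix.mul_nonsing_inv S hS
  have hSTG : Sᵀ * (S⁻¹)ᵀ = 1 := by rw [← transpose_mul, hGS, transpose_one]
  have hDD : diagonal e * diagonal (fun i => (e i)⁻¹) = (1 : Matrix n n ℝ) := by
    rw [diagonal_mul_diagonal]
    have : (fun i => e i * (e i)⁻¹) = fun _ => (1:ℝ) := by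
      funext i; exact mul_inv_cancel₀ (he i)
    rw [this]
    exact diagonal_one
  apply Matrix.inv_eq_right_inv
  rw [show S * diagonal e * Sᵀ * ((S⁻¹)ᵀ * diagonal (fun i => (e i)⁻¹) * S⁻¹)
    = S * (diagonal e * (Sᵀ * (S⁻¹)ᵀ) * diagonal (fun i => (e i)⁻¹)) * S⁻¹ by
      simp only [Matrix.mul_assoc], hSTG, Matrix.mul_one, hDD, Matrix.mul_one, hSG]

theorem pf_conj (S : Matrix n n ℝ) (hS : IsUnit S.det) (e : n → ℝ)
    (h : (S * diagonal e * Sᵀ - 1).PosSemidef) :
    (diagonal e - S⁻¹ * (S⁻¹)ᵀ).PosSemidef := by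
  have hGS : S⁻¹ * S = 1 := Matrix.nonsing_inv_mul S hS
  have hSTG : Sᵀ * (S⁻¹)ᵀ = 1 := by rw [← transpose_mul, hGS, transpose_one]
  have h2 := h.mul_mul_conjTranspose_same (S⁻¹)
  rw [conjTranspose_eq_transpose_of_trivial] at h2
  have e2 : S⁻¹ * (S * diagonal e * Sᵀ - 1) * (S⁻¹)ᵀ = diagonal e - S⁻¹ * (S⁻¹)ᵀ := by
    rw [Matrix.mul_sub, Matrix.sub_mul, Matrix.mul_one]
    congr 1
    rw [show S⁻¹ * (S * diagonal e * Sᵀ) * (S⁻¹)ᵀ = (S⁻¹ * S) * diagonal e * (Sᵀ * (S⁻¹)ᵀ) by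
      simp only [Matrix.mul_assoc], hGS, hSTG, Matrix.one_mul, Matrix.mul_one]
  rwa [e2] at h2

theorem pf_psd (R : Matrix n n ℝ) (d : n → ℝ) (hR : R.PosSemidef)
    (h1 : (diagonal (fun i => 1 + d i) - R).PosSemidef)
    (h2 : (diagonal (fun i => 1 - d i) - R).PosSemidef) :
    (diagonal (fun i => 1 - d i ^ 2) - R).PosSemidef := by
  have key : ∀ (v : n → ℝ) (M : Matrix n n ℝ), M.PosSemidef →
      (diagonal v * M * diagonal v).PosSemidef := by
    intro v M hM
    have h := hM.mul_mul_conjTranspose_same (diagonal v)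
    rwa [conjTranspose_eq_transpose_of_trivial, diagonal_transpose] at h
  have k1 := key (fun i => Real.sqrt 2 * ((1 - d i) / 2)) _ h1
  have k2 := key (fun i => Real.sqrt 2 * ((1 + d i) / 2)) _ h2
  have k3 := key (fun i => d i) _ hR
  have e : diagonal (fun i => 1 - d i ^ 2) - R =
      diagonal (fun i => Real.sqrt 2 * ((1 - d i) / 2)) * (diagonal (fun i => 1 + d i) - R) *
          diagonal (fun i => Real.sqrt 2 * ((1 - d i) / 2))
      + diagonal (fun i => Real.sqrt 2 * ((1 + d i) / 2)) * (diagonal (fun i => 1 - d i) - R) *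
          diagonal (fun i => Real.sqrt 2 * ((1 + d i) / 2))
      + diagonal (fun i => d i) * R * diagonal (fun i => d i) := by
    have hs : Real.sqrt 2 * Real.sqrt 2 = 2 := Real.mul_self_sqrt (by norm_num)
    ext i j
    simp only [Matrix.add_apply, Matrix.sub_apply, Matrix.mul_diagonal, Matrix.diagonal_mul]
    by_cases hij : i = j
    · subst hij
      simp only [diagonal_apply_eq]
      linear_combination (-(1 - d i)^2/4 * (1 + d i - R i i) - (1 + d i)^2/4 * (1 - d i - R i i)) * hs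
    · simp only [diagonal_apply_ne _ hij]
      linear_combination ((1 - d i) * (1 - d j)/4 * R i j + (1 + d i) * (1 + d j)/4 * R i j) * hs
  rw [e]
  exact (k1.add k2).add k3



theorem pair_frob (X Y : Matrix n n ℝ) (hX : (X - 1).PosSemidef) (hY : (Y - 1).PosSemidef) :
    trace ((X⁻¹ - Y⁻¹) * (X⁻¹ - Y⁻¹)) ≤ 8 * LD X Y := by
  have h1 : (1 : Matrix n n ℝ).PosDef := Matrix.PosDef.one
  have hXp : X.PosDef := by
    have h := Matrix.PosDef.posSemidef_add hX h1
    simpa using h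
  have hYp : Y.PosDef := by
    have h := Matrix.PosDef.posSemidef_add hY h1
    simpa using h
  obtain ⟨S, d, hS, hd, rfl, rfl⟩ := simdiag X Y hXp hYp
  have hd1 : ∀ i, 0 < 1 + d i := fun i => by have := (abs_lt.1 (hd i)).1; linarith
  have hd2 : ∀ i, 0 < 1 - d i := fun i => by have := (abs_lt.1 (hd i)).2; linarith
  have c1 := pf_conj S hS _ hX
  have c2 := pf_conj S hS _ hY
  rw [pf_inv S hS _ (fun i => (hd1 i).ne'), pf_inv S hS _ (fun i => (hd2 i).ne')]
  set G := S⁻¹ with hG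
  have hR : (G * Gᵀ).PosSemidef := by
    have := Matrix.posSemidef_self_mul_conjTranspose G
    rwa [conjTranspose_eq_transpose_of_trivial] at this
  set w : n → ℝ := fun i => (1 + d i)⁻¹ - (1 - d i)⁻¹ with hw
  have hsub : Gᵀ * diagonal (fun i => (1 + d i)⁻¹) * G - Gᵀ * diagonal (fun i => (1 - d i)⁻¹) * G
      = Gᵀ * diagonal w * G := by
    rw [← Matrix.sub_mul, ← Matrix.mul_sub, diagonal_sub]
  rw [hsub]
  have htr : trace (Gᵀ * diagonal w * G * (Gᵀ * diagonal w * G)) =
      trace ((diagonal w * (G * Gᵀ) * diagonal w) * (G * Gᵀ)) := by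
    rw [show Gᵀ * diagonal w * G * (Gᵀ * diagonal w * G) =
      Gᵀ * (diagonal w * (G * Gᵀ) * diagonal w * G) by simp only [Matrix.mul_assoc],
      Matrix.trace_mul_comm]
    congr 1
    simp only [Matrix.mul_assoc]
  rw [htr]
  have hK : (diagonal w * (G * Gᵀ) * diagonal w).PosSemidef := by
    have h := hR.mul_mul_conjTranspose_same (diagonal w)
    rwa [conjTranspose_eq_transpose_of_trivial, diagonal_transpose] at h
  have hD := pf_psd (G * Gᵀ) d hR c1 c2
  have hle := trace_mul_nonneg hK hD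
  rw [Matrix.mul_sub, Matrix.trace_sub] at hle
  have hdiag : trace (diagonal w * (G * Gᵀ) * diagonal w * diagonal (fun i => 1 - d i ^ 2)) =
      ∑ i, w i * (G * Gᵀ) i i * w i * (1 - d i ^ 2) := by
    unfold trace
    refine Finset.sum_congr rfl fun i _ => ?_
    rw [diag_apply, Matrix.mul_diagonal, Matrix.mul_diagonal, Matrix.diagonal_mul]
  rw [hdiag] at hle
  have hterm : ∀ i, w i * (G * Gᵀ) i i * w i * (1 - d i ^ 2) ≤ 4 * d i ^ 2 := by
    intro i
    have r0 : 0 ≤ (G * Gᵀ) i i := hR.diag_nonneg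
    have r1 : 0 ≤ (diagonal (fun i => 1 + d i) - G * Gᵀ) i i := c1.diag_nonneg
    have r2 : 0 ≤ (diagonal (fun i => 1 - d i) - G * Gᵀ) i i := c2.diag_nonneg
    rw [Matrix.sub_apply, diagonal_apply_eq] at r1 r2
    set r := (G * Gᵀ) i i
    have hr : r ≤ 1 - d i ^ 2 := by
      rcases le_total 0 (d i) with h | h
      · nlinarith [hd2 i]
      · nlinarith [hd1 i]
    have hwi : w i = -2 * d i / (1 - d i ^ 2) := by
      have a1 := (hd1 i).ne'
      have a2 := (hd2 i).ne'
      have a3 : 1 - d i ^ 2 = (1 + d i) * (1 - d i) := by ring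
      rw [hw, a3]
      field_simp
      ring
    have hpos : 0 < 1 - d i ^ 2 := by
      have a3 : 1 - d i ^ 2 = (1 + d i) * (1 - d i) := by ring
      rw [a3]; exact mul_pos (hd1 i) (hd2 i)
    rw [hwi]
    have e : -2 * d i / (1 - d i ^ 2) * r * (-2 * d i / (1 - d i ^ 2)) * (1 - d i ^ 2)
        = 4 * d i ^ 2 * (r / (1 - d i ^ 2)) := by
      field_simp
      ring
    rw [e]
    have hq : r / (1 - d i ^ 2) ≤ 1 := by rwa [div_le_one hpos]
    nlinarith [sq_nonneg (d i)]
  have hsum := Finset.sum_le_sum (fun i (_ : i ∈ Finset.univ) => hterm i)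
  have hLD := LD_sum_sq S d hS hd
  rw [← Finset.mul_sum] at hsum
  linarith

end

end Pool.Agent.TH704
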