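import Pool.Agent.Helper704.TH.Defs

set_option autoImplicit false
set_option maxHeartbeats 4000000
set_option linter.unusedVariables false
set_option linter.unusedSectionVars false

open Matrix Finset

namespace Pool.Agent.TH704

noncomputable section

variable {m n ι : Type*} [Fintype m] [DecidableEq m] [Fintype n] [DecidableEq n]
  [Fintype ι] [DecidableEq ι]


theorem Lam_succ_xor (s a b p q : ℕ) (hp : p < 2 ^ s) (hq : q < 2 ^ s) :
    (2 ^ s * a + p) ^^^ (2 ^ s * b + q) = 2 ^ s * (a ^^^ b) + (p ^^^ q) := by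
  have h0 : 0 < 2 ^ s := by positivity
  rw [← Nat.div_add_mod ((2 ^ s * a + p) ^^^ (2 ^ s * b + q)) (2 ^ s), Nat.xor_div_two_pow,
    Nat.xor_mod_two_pow, Nat.mul_add_div h0, Nat.mul_add_div h0, Nat.div_eq_of_lt hp,
    Nat.div_eq_of_lt hq, Nat.mul_add_mod, Nat.mul_add_mod, Nat.mod_eq_of_lt hp, Nat.mod_eq_of_lt hq,
    add_zero, add_zero]

theorem Lam_succ_off (s : ℕ) (a b : Bool) (p q : ℕ) (hp : p < 2 ^ s) (hq : q < 2 ^ s) :
    (off s a + p) ^^^ (off s b + q) = off s (xor a b) + (p ^^^ q) := by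
  have h : ∀ c : Bool, off s c = 2 ^ s * (if c then 1 else 0) := by
    intro c; cases c <;> simp [off]
  rw [h a, h b, h (xor a b), Lam_succ_xor s _ _ p q hp hq]
  cases a <;> cases b <;> simp

theorem Lam_succ_range (s : ℕ) (F : ℕ → ℝ) :
    ∑ p ∈ range (2 ^ (s + 1)), F p = ∑ a : Bool, ∑ p ∈ range (2 ^ s), F (off s a + p) := by
  rw [pow_succ, mul_two, Finset.sum_range_add, Fintype.sum_bool]
  simp [off]
  ring

theorem Lam_succ_mul (n s : ℕ) (hs : s ≤ n) (a : Bool) (p i : ℕ) :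
    (off s a + p) * 2 ^ (n - s) + i = off n a + (p * 2 ^ (n - s) + i) := by
  cases a
  · simp [off]
  · simp only [off, if_true]
    rw [add_mul, ← pow_add, Nat.add_sub_cancel' hs, add_assoc]

theorem Lam_succ (n s : ℕ) (hs : s ≤ n) (f g h : Arr) :
    Lam (n + 1) (s + 1) f g h = (1 / 4) * ∑ a : Bool, ∑ b : Bool,
      Lam n s (sh n a b f) (sh n b (xor a b) g) (sh n (xor a b) a h) := by
  unfold Lam
  rw [Nat.add_sub_add_right]
  simp only [← Finset.mul_sum]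
  rw [pow_succ]
  have key : ∑ p ∈ range (2 ^ (s + 1)), ∑ q ∈ range (2 ^ (s + 1)),
      ∑ i ∈ range (2 ^ (n - s)), ∑ j ∈ range (2 ^ (n - s)), ∑ k ∈ range (2 ^ (n - s)),
      sgn (2 ^ (n - s)) i * sgn (2 ^ (n - s)) j * sgn (2 ^ (n - s)) k *
      f (p * 2 ^ (n - s) + i) (q * 2 ^ (n - s) + j) *
      g (q * 2 ^ (n - s) + j) ((p ^^^ q) * 2 ^ (n - s) + k) *
      h ((p ^^^ q) * 2 ^ (n - s) + k) (p * 2 ^ (n - s) + i) =
      ∑ a : Bool, ∑ b : Bool, ∑ p ∈ range (2 ^ s), ∑ q ∈ range (2 ^ s),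
      ∑ i ∈ range (2 ^ (n - s)), ∑ j ∈ range (2 ^ (n - s)), ∑ k ∈ range (2 ^ (n - s)),
      sgn (2 ^ (n - s)) i * sgn (2 ^ (n - s)) j * sgn (2 ^ (n - s)) k *
      sh n a b f (p * 2 ^ (n - s) + i) (q * 2 ^ (n - s) + j) *
      sh n b (xor a b) g (q * 2 ^ (n - s) + j) ((p ^^^ q) * 2 ^ (n - s) + k) *
      sh n (xor a b) a h ((p ^^^ q) * 2 ^ (n - s) + k) (p * 2 ^ (n - s) + i) := by
    rw [Lam_succ_range]
    refine Finset.sum_congr rfl (fun a _ => ?_)
    simp only [Lam_succ_range s]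
    rw [Finset.sum_comm]
    refine Finset.sum_congr rfl (fun b _ => ?_)
    refine Finset.sum_congr rfl (fun p hp => ?_)
    refine Finset.sum_congr rfl (fun q hq => ?_)
    rw [Finset.mem_range] at hp hq
    rw [Lam_succ_off s a b p q hp hq]
    simp only [Lam_succ_mul n s hs, sh]
  rw [key]
  ring

end

end Pool.Agent.TH704
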