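import Pool.Agent.Helper704.TH.Defs

set_option autoImplicit false
set_option maxHeartbeats 4000000
set_option linter.unusedVariables false
set_option linter.unusedSectionVars false

open Matrix Finset

namespace Pool.Agent.TH704

noncomputable section

variable {m n ι : Type*} [Fintype m] [DecidableEq m] [Fintype n] [DecidableEq n]
  [Fintype ι] [DecidableEq ι]


theorem Lam_zero_vl_lt : ∀ (n : ℕ) (i : Idx n), vl n i < 2 ^ n
  | 0, _ => by
    show 0 < 2 ^ 0
    norm_num
  | n + 1, (a, i) => by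
    have h := Lam_zero_vl_lt n i
    show off n a + vl n i < 2 ^ (n + 1)
    unfold off
    rw [pow_succ]
    split_ifs <;> omega

theorem Lam_zero_sum : ∀ (n : ℕ) (F : ℕ → ℝ), ∑ i : Idx n, F (vl n i) = ∑ i ∈ range (2 ^ n), F i
  | 0, F => by
    show ∑ i : Unit, F 0 = _
    simp
  | n + 1, F => by
    show ∑ i : Bool × Idx n, F (off n i.1 + vl n i.2) = _
    rw [Fintype.sum_prod_type, Fintype.sum_bool, pow_succ, mul_two, Finset.sum_range_add,
      ← Lam_zero_sum n (fun i => F i), ← Lam_zero_sum n (fun i => F (2 ^ n + i)), add_comm]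
    simp [off]

theorem Lam_zero_sum1 (n : ℕ) (F : ℕ → ℝ) :
    ∑ i ∈ range (2 ^ (n + 1)), F i = ∑ x : Bool × Idx n, F (off n x.1 + vl n x.2) :=
  (Lam_zero_sum (n + 1) F).symm

theorem Lam_zero_sgn (n : ℕ) (x : Bool × Idx n) :
    sgn (2 ^ (n + 1)) (off n x.1 + vl n x.2) = sg x.1 := by
  obtain ⟨a, i⟩ := x
  have h := Lam_zero_vl_lt n i
  unfold sgn sg off
  rw [pow_succ]
  cases a
  · simp only [Bool.false_eq_true, if_false]
    rw [if_pos (by omega)]
  · simp only [if_true]
    rw [if_neg (by omega)]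

theorem Lam_zero_DD {κ : Type*} [Fintype κ] [DecidableEq κ]
    (A B C : Matrix (Bool × κ) (Bool × κ) ℝ) :
    DD A B C = ∑ x, ∑ y, ∑ z, sg x.1 * sg y.1 * sg z.1 * A x y * B y z * C z x := by
  unfold DD sgm
  have e1 : diagonal (fun x : Bool × κ => sg x.1) * A * diagonal (fun x => sg x.1) * B *
      diagonal (fun x => sg x.1) * C = (diagonal (fun x => sg x.1) * A) *
        ((diagonal (fun x => sg x.1) * B) * (diagonal (fun x => sg x.1) * C)) := by
    simp only [Matrix.mul_assoc]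
  rw [e1, Matrix.trace]
  refine Finset.sum_congr rfl fun x _ => ?_
  rw [Matrix.diag_apply, Matrix.mul_apply]
  refine Finset.sum_congr rfl fun y _ => ?_
  rw [Matrix.diagonal_mul, Matrix.mul_apply, Finset.mul_sum]
  refine Finset.sum_congr rfl fun z _ => ?_
  rw [Matrix.diagonal_mul, Matrix.diagonal_mul]
  ring

theorem Lam_zero (n : ℕ) (f g h : Arr) :
    Lam (n + 1) 0 f g h = DD (mt1 n f) (mt1 n g) (mt1 n h) := by
  unfold Lam
  rw [Lam_zero_DD, pow_zero, pow_zero, Nat.sub_zero, Finset.sum_range_one, Finset.sum_range_one,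
    Nat.xor_self, Lam_zero_sum1, one_mul, Finset.mul_sum]
  refine Finset.sum_congr rfl fun x _ => ?_
  rw [Lam_zero_sum1, Finset.mul_sum]
  refine Finset.sum_congr rfl fun y _ => ?_
  rw [Lam_zero_sum1, Finset.mul_sum]
  refine Finset.sum_congr rfl fun z _ => ?_
  rw [Lam_zero_sgn, Lam_zero_sgn, Lam_zero_sgn]
  simp only [zero_mul, zero_add]
  unfold mt1
  have h8 : ((1 : ℝ) / 8) ^ (n + 1) = (1 / 2) ^ (n + 1) * (1 / 2) ^ (n + 1) * (1 / 2) ^ (n + 1) := by
    rw [← mul_pow, ← mul_pow]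
    norm_num
  rw [h8]
  ring

end

end Pool.Agent.TH704
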