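import Pool.Agent.Helper704.TH.Defs

set_option autoImplicit false
set_option maxHeartbeats 4000000
set_option linter.unusedVariables false
set_option linter.unusedSectionVars false

open Matrix Finset

namespace Pool.Agent.TH704

noncomputable section

variable {m n ι : Type*} [Fintype m] [DecidableEq m] [Fintype n] [DecidableEq n]
  [Fintype ι] [DecidableEq ι]


theorem sum_two_pow_succ (n : ℕ) (F : ℕ → ℝ) :
    ∑ i ∈ range (2 ^ (n + 1)), F i = ∑ a : Bool, ∑ i ∈ range (2 ^ n), F (off n a + i) := by
  rw [pow_succ, mul_two, Finset.sum_range_add]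
  simp [off, add_comm]

theorem a3_succ (n : ℕ) (f : Arr) :
    a3 (n + 1) f = (1 / 4) * ∑ a : Bool, ∑ b : Bool, a3 n (sh n a b f) := by
  unfold a3 sh
  rw [sum_two_pow_succ]
  simp only [sum_two_pow_succ]
  simp only [Fintype.sum_bool, pow_succ, Finset.sum_add_distrib]
  ring

theorem leaf_cube (n : ℕ) (f g h : Arr) :
    leaf (fun x y z => |x| ^ 3 + |y| ^ 3 + |z| ^ 3) n f g h = a3 n f + a3 n g + a3 n h := by
  induction n generalizing f g h with
  | zero => simp [leaf, a3]
  | succ n ih =>
    rw [leaf, a3_succ, a3_succ, a3_succ]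
    simp only [ih, Fintype.sum_bool, Bool.xor_true, Bool.xor_false, Bool.not_true, Bool.not_false]
    ring

end

end Pool.Agent.TH704
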