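import Pool.Agent.Helper704.TH.Defs

set_option autoImplicit false
set_option maxHeartbeats 4000000
set_option linter.unusedVariables false
set_option linter.unusedSectionVars false

open Matrix Finset

namespace Pool.Agent.TH704

noncomputable section

variable {m n ι : Type*} [Fintype m] [DecidableEq m] [Fintype n] [DecidableEq n]
  [Fintype ι] [DecidableEq ι]


section leafaux

variable {κ : Type} [Unique κ] [Fintype κ] [DecidableEq κ]

theorem inv_uniq_aux (M : Matrix κ κ ℝ) (h : M default default ≠ 0) :
    M⁻¹ default default = (M default default)⁻¹ := by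
  have h1 : M⁻¹ = Matrix.of (fun _ _ => (M default default)⁻¹) := by
    apply Matrix.inv_eq_right_inv
    ext i j
    have hi : i = default := Subsingleton.elim _ _
    have hj : j = default := Subsingleton.elim _ _
    subst hi; subst hj
    rw [Matrix.mul_apply, Fintype.sum_unique, Matrix.one_apply_eq]
    simp [h]
  rw [h1]; rfl

theorem mulT_uniq_aux (M N : Matrix κ κ ℝ) :
    (M * N) default default = M default default * N default default := by
  rw [Matrix.mul_apply, Fintype.sum_unique]

theorem trace_uniq_aux (M : Matrix κ κ ℝ) : trace M = M default default := by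
  rw [Matrix.trace, Fintype.sum_unique]; rfl

theorem PP_uniq_aux (A : Matrix κ κ ℝ) :
    PP A default default = 1 - (1 + A default default ^ 2)⁻¹ := by
  unfold PP
  have h1 : (1 + Aᵀ * A) default default = 1 + A default default ^ 2 := by
    rw [Matrix.add_apply, Matrix.one_apply_eq, mulT_uniq_aux, Matrix.transpose_apply]; ring
  rw [Matrix.sub_apply, Matrix.one_apply_eq, inv_uniq_aux, h1]
  rw [h1]; positivity

theorem QQ_uniq_aux (A : Matrix κ κ ℝ) :
    QQ A default default = 1 - (1 + A default default ^ 2)⁻¹ := by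
  unfold QQ
  have h1 : (1 + A * Aᵀ) default default = 1 + A default default ^ 2 := by
    rw [Matrix.add_apply, Matrix.one_apply_eq, mulT_uniq_aux, Matrix.transpose_apply]; ring
  rw [Matrix.sub_apply, Matrix.one_apply_eq, inv_uniq_aux, h1]
  rw [h1]; positivity

theorem Psi_uniq_aux (A : Matrix κ κ ℝ) :
    Psi A = A default default ^ 2 - Real.log (1 + A default default ^ 2) := by
  unfold Psi
  have h1 : (1 + Aᵀ * A) default default = 1 + A default default ^ 2 := by
    rw [Matrix.add_apply, Matrix.one_apply_eq, mulT_uniq_aux, Matrix.transpose_apply]; ring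
  rw [trace_uniq_aux, Matrix.det_unique, h1, mulT_uniq_aux, Matrix.transpose_apply]; ring_nf

theorem Psi_le_aux (A : Matrix κ κ ℝ) : Psi A ≤ sc (A default default) := by
  rw [Psi_uniq_aux]
  unfold sc
  set x := A default default
  have h1 : (0:ℝ) < 1 + x ^ 2 := by positivity
  have h2 := Real.one_sub_inv_le_log_of_pos h1
  have h3 : x ^ 4 / (1 + x ^ 2) = x ^ 2 - (1 - (1 + x ^ 2)⁻¹) := by
    field_simp; ring
  rw [h3]; linarith

theorem sq_le_aux (x : ℝ) : (1 - (1 + x ^ 2)⁻¹) ^ 2 ≤ sc x := by
  unfold sc
  have h1 : (0:ℝ) < 1 + x ^ 2 := by positivity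
  have h3 : (1 - (1 + x ^ 2)⁻¹) ^ 2 = x ^ 4 / (1 + x ^ 2) ^ 2 := by
    field_simp; ring
  rw [h3]
  apply div_le_div_of_nonneg_left (by positivity) h1
  nlinarith [sq_nonneg x]

theorem phi_leaf_aux (A B C : Matrix κ κ ℝ) :
    phi A B C ≤ 23 * (sc (A default default) + sc (B default default) + sc (C default default)) := by
  unfold phi
  rw [trace_uniq_aux, trace_uniq_aux, trace_uniq_aux, mulT_uniq_aux, mulT_uniq_aux, mulT_uniq_aux,
    PP_uniq_aux, PP_uniq_aux, PP_uniq_aux, QQ_uniq_aux, QQ_uniq_aux, QQ_uniq_aux]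
  have a1 := Psi_le_aux A
  have a2 := Psi_le_aux B
  have a3' := Psi_le_aux C
  have b1 := sq_le_aux (A default default)
  have b2 := sq_le_aux (B default default)
  have b3 := sq_le_aux (C default default)
  set p := 1 - (1 + A default default ^ 2)⁻¹
  set q := 1 - (1 + B default default ^ 2)⁻¹
  set r := 1 - (1 + C default default ^ 2)⁻¹
  nlinarith [sq_nonneg (p - q), sq_nonneg (q - r), sq_nonneg (r - p)]

end leafaux

theorem phi_leaf (f g h : Arr) :
    phi (mt 0 f) (mt 0 g) (mt 0 h) ≤ 23 * (sc (f 0 0) + sc (g 0 0) + sc (h 0 0)) := by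
  letI : Unique (Idx 0) := inferInstanceAs (Unique Unit)
  have h1 := phi_leaf_aux (κ := Idx 0) (mt 0 f) (mt 0 g) (mt 0 h)
  have e : ∀ f : Arr, mt 0 f default default = f 0 0 := by
    intro f
    show (1 / 2 : ℝ) ^ 0 * f 0 0 = f 0 0
    simp
  rw [e, e, e] at h1
  exact h1

end

end Pool.Agent.TH704
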