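import Pool.Agent.Helper704.TH.Defs
import Pool.Agent.Helper704.TH.L_psd

set_option autoImplicit false
set_option maxHeartbeats 4000000
set_option linter.unusedVariables false
set_option linter.unusedSectionVars false

open Matrix Finset

namespace Pool.Agent.TH704

noncomputable section

variable {m n ι : Type*} [Fintype m] [DecidableEq m] [Fintype n] [DecidableEq n]
  [Fintype ι] [DecidableEq ι]







theorem Psi_nonneg (A : Matrix m n ℝ) : 0 ≤ Psi A := by
  have hP := posdef_row A
  have hH := hP.isHermitian
  have hdet : det (1 + Aᵀ * A) = ∏ i, hH.eigenvalues i := by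
    rw [hH.det_eq_prod_eigenvalues]
    simp
  have htr : trace (1 + Aᵀ * A) = ∑ i, hH.eigenvalues i := by
    rw [hH.trace_eq_sum_eigenvalues]
    simp
  have hpos : ∀ i, 0 < hH.eigenvalues i := fun i => hP.eigenvalues_pos i
  have hlog : Real.log (det (1 + Aᵀ * A)) ≤ ∑ i, (hH.eigenvalues i - 1) := by
    rw [hdet, Real.log_prod (fun i _ => (hpos i).ne')]
    exact Finset.sum_le_sum fun i _ => Real.log_le_sub_one_of_pos (hpos i)
  have h1 : ∑ i, (hH.eigenvalues i - 1) = trace (Aᵀ * A) := by
    rw [Finset.sum_sub_distrib, ← htr, trace_add, trace_one]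
    simp
  unfold Psi
  linarith

end

end Pool.Agent.TH704
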