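import Pool.Agent.Helper704.TH.Defs

set_option autoImplicit false
set_option maxHeartbeats 4000000
set_option linter.unusedVariables false
set_option linter.unusedSectionVars false

open Matrix Finset

namespace Pool.Agent.TH704

noncomputable section

variable {m n ι : Type*} [Fintype m] [DecidableEq m] [Fintype n] [DecidableEq n]
  [Fintype ι] [DecidableEq ι]


theorem sc_sum_key (L y : ℝ) (hL : 0 < L) (hy : 0 < y) (x : ℝ) (hx : x ^ 2 = y ^ 2) :
    L ^ 3 * sc (L⁻¹ * x) ≤ 4 * y ^ 3 * (2 * L / (2 * L + y) - L / (L + y)) := by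
  have hx4 : x ^ 4 = y ^ 4 := by
    calc x ^ 4 = (x ^ 2) ^ 2 := by ring
      _ = (y ^ 2) ^ 2 := by rw [hx]
      _ = y ^ 4 := by ring
  have h1 : L ^ 3 * sc (L⁻¹ * x) = L * y ^ 4 / (L ^ 2 + y ^ 2) := by
    unfold sc
    rw [mul_pow, mul_pow, hx4, hx]
    have h2 : L ^ 2 + y ^ 2 ≠ 0 := by positivity
    have h3 : 1 + L⁻¹ ^ 2 * y ^ 2 ≠ 0 := by positivity
    field_simp
  have h2 : 4 * y ^ 3 * (2 * L / (2 * L + y) - L / (L + y)) =
      4 * y ^ 4 * L / ((2 * L + y) * (L + y)) := by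
    have h3 : 2 * L + y ≠ 0 := by positivity
    have h4 : L + y ≠ 0 := by positivity
    field_simp
    ring
  rw [h1, h2, div_le_div_iff₀ (by positivity) (by positivity)]
  have h5 : (2 * L + y) * (L + y) ≤ 4 * (L ^ 2 + y ^ 2) := by nlinarith [sq_nonneg (L - y)]
  calc L * y ^ 4 * ((2 * L + y) * (L + y)) ≤ L * y ^ 4 * (4 * (L ^ 2 + y ^ 2)) :=
        mul_le_mul_of_nonneg_left h5 (by positivity)
    _ = 4 * y ^ 4 * L * (L ^ 2 + y ^ 2) := by ring

theorem sc_sum_tel (l : ℝ) (hl : 0 < l) (K : ℕ) (x y : ℝ) (hy : 0 < y) (hx : x ^ 2 = y ^ 2) :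
    ∑ k ∈ range K, (2 ^ k * l) ^ 3 * sc ((2 ^ k * l)⁻¹ * x) ≤
      4 * y ^ 3 * ((2 ^ K * l) / (2 ^ K * l + y) - l / (l + y)) := by
  induction K with
  | zero => simp
  | succ K ih =>
    rw [Finset.sum_range_succ]
    have h1 := sc_sum_key (2 ^ K * l) y (by positivity) hy x hx
    have h2 : 2 * (2 ^ K * l) = 2 ^ (K + 1) * l := by ring
    rw [h2] at h1
    calc _ ≤ 4 * y ^ 3 * ((2 ^ K * l) / (2 ^ K * l + y) - l / (l + y)) +
          4 * y ^ 3 * (2 ^ (K + 1) * l / (2 ^ (K + 1) * l + y) - 2 ^ K * l / (2 ^ K * l + y)) :=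
          add_le_add ih h1
      _ = _ := by ring

/-- scalar bound over scales -/
theorem sc_sum (l : ℝ) (hl : 0 < l) (K : ℕ) (x : ℝ) :
    ∑ k ∈ range K, (2 ^ k * l) ^ 3 * sc ((2 ^ k * l)⁻¹ * x) ≤ 4 * |x| ^ 3 := by
  rcases eq_or_ne x 0 with rfl | hx
  · have h1 : ∀ k ∈ range K, (2 ^ k * l) ^ 3 * sc ((2 ^ k * l)⁻¹ * 0) = 0 := by
      intro k _
      unfold sc
      simp
    rw [Finset.sum_congr rfl h1]
    simp
  · have hy : 0 < |x| := abs_pos.2 hx
    have h1 := sc_sum_tel l hl K x |x| hy (sq_abs x).symm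
    refine h1.trans ?_
    have h2 : (2 ^ K * l) / (2 ^ K * l + |x|) ≤ 1 := by
      rw [div_le_one (by positivity)]
      linarith
    have h3 : 0 ≤ l / (l + |x|) := by positivity
    calc 4 * |x| ^ 3 * ((2 ^ K * l) / (2 ^ K * l + |x|) - l / (l + |x|))
        ≤ 4 * |x| ^ 3 * 1 := mul_le_mul_of_nonneg_left (by linarith) (by positivity)
      _ = 4 * |x| ^ 3 := mul_one _

end

end Pool.Agent.TH704
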