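import Pool.Agent.Helper704.TH.Defs
import Pool.Agent.Helper704.TH.L_delta
import Pool.Agent.Helper704.TH.L_psd

set_option autoImplicit false
set_option maxHeartbeats 4000000
set_option linter.unusedVariables false
set_option linter.unusedSectionVars false

open Matrix Finset

namespace Pool.Agent.TH704

noncomputable section

variable {m n ι : Type*} [Fintype m] [DecidableEq m] [Fintype n] [DecidableEq n]
  [Fintype ι] [DecidableEq ι]






















theorem abs_step' {k : Type*} [Fintype k] [DecidableEq k] (P Q Pb Qb Df Dg S : Matrix k k ℝ)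
    (hP : P = Pb + Df) (hQ : Q = Qb + Dg) (hDf : Df.PosSemidef) (hDg : Dg.PosSemidef)
    (hQ1 : (1 - Q).PosSemidef) (hPb1 : (1 - Pb).PosSemidef)
    (hS : Sᵀ = S) (hSS : S * S = 1) :
    trace (P * Q) + (1 / 2) * trace (P * S * Q * S) ≤
      trace (Pb * Qb) + (1 / 2) * trace (Pb * S * Qb * S) + (3 / 2) * (trace Df + trace Dg) := by
  have hconj : ∀ M : Matrix k k ℝ, M.PosSemidef → (S * M * S).PosSemidef := by
    intro M hM
    have h := hM.mul_mul_conjTranspose_same S
    rwa [conjTranspose_eq_transpose_of_trivial, hS] at h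
  have e1 : trace (P * Q) = trace (Pb * Qb) + trace (Pb * Dg) + trace (Df * Q) := by
    rw [hP]
    nth_rewrite 1 [Matrix.add_mul]
    rw [trace_add]
    nth_rewrite 1 [hQ]
    rw [Matrix.mul_add, trace_add]
  have e2 : trace (P * S * Q * S) = trace (Pb * S * Qb * S) + trace (Pb * (S * Dg * S)) +
      trace (Df * (S * Q * S)) := by
    have h1 : P * S * Q * S = Pb * S * Qb * S + Pb * (S * Dg * S) + Df * (S * Q * S) := by
      have h2 : P * S * Q * S = Pb * S * Q * S + Df * (S * Q * S) := by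
        rw [hP]
        simp only [Matrix.add_mul, Matrix.mul_assoc]
      have h3 : Pb * S * Q * S = Pb * S * Qb * S + Pb * (S * Dg * S) := by
        rw [hQ]
        simp only [Matrix.add_mul, Matrix.mul_add, Matrix.mul_assoc]
      rw [h2, h3]
    rw [h1, trace_add, trace_add]
  have i1 : trace (Df * Q) ≤ trace Df := by
    have h := trace_mul_nonneg hDf hQ1
    rw [Matrix.mul_sub, Matrix.mul_one, trace_sub] at h
    linarith
  have i2 : trace (Pb * Dg) ≤ trace Dg := by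
    have h := trace_mul_nonneg hPb1 hDg
    rw [Matrix.sub_mul, Matrix.one_mul, trace_sub] at h
    linarith
  have i3 : trace (Df * (S * Q * S)) ≤ trace Df := by
    have h := trace_mul_nonneg hDf (hconj _ hQ1)
    have h2 : S * (1 - Q) * S = 1 - S * Q * S := by
      rw [Matrix.mul_sub, Matrix.sub_mul, Matrix.mul_one, hSS]
    rw [h2, Matrix.mul_sub, Matrix.mul_one, trace_sub] at h
    linarith
  have i4 : trace (Pb * (S * Dg * S)) ≤ trace Dg := by
    have h := trace_mul_nonneg hPb1 (hconj _ hDg)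
    have h2 : trace (S * Dg * S) = trace Dg := by
      rw [trace_mul_comm, ← Matrix.mul_assoc, hSS, Matrix.one_mul]
    rw [Matrix.sub_mul, Matrix.one_mul, trace_sub, h2] at h
    linarith
  rw [e1, e2]
  linarith

theorem blk_gram' (f : Bool → Bool → Matrix ι ι ℝ) :
    1 + (blk f)ᵀ * blk f = (1 / 2 : ℝ) • ((1 + (rw2 (f false))ᵀ * rw2 (f false)) +
      (1 + (rw2 (f true))ᵀ * rw2 (f true))) := by
  have hs : (Real.sqrt 2)⁻¹ * (Real.sqrt 2)⁻¹ = 1 / 2 := by
    rw [← mul_inv, Real.mul_self_sqrt (by norm_num)]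
    norm_num
  have hk : (blk f)ᵀ * blk f = (1 / 2 : ℝ) • ((rw2 (f false))ᵀ * rw2 (f false) +
      (rw2 (f true))ᵀ * rw2 (f true)) := by
    ext x y
    simp only [Matrix.mul_apply, Matrix.transpose_apply, Matrix.smul_apply, Matrix.add_apply, blk,
      rw2, Fintype.sum_prod_type, Fintype.sum_bool, smul_eq_mul]
    have h1 : ∀ a : Bool, ∑ i : ι, (Real.sqrt 2)⁻¹ * f a x.1 i x.2 * ((Real.sqrt 2)⁻¹ * f a y.1 i y.2)
        = ∑ i : ι, (1 / 2) * (f a x.1 i x.2 * f a y.1 i y.2) := by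
      intro a
      refine Finset.sum_congr rfl fun i _ => ?_
      rw [← hs]; ring
    have h2 : ∀ a : Bool, ∑ i : ι, (1 / 2) * f a x.1 i x.2 * ((1 / 2) * f a y.1 i y.2)
        = (1 / 2) * ∑ i : ι, (1 / 2) * (f a x.1 i x.2 * f a y.1 i y.2) := by
      intro a
      rw [Finset.mul_sum]
      refine Finset.sum_congr rfl fun i _ => ?_
      ring
    rw [h1, h1, h2, h2]
    ring
  rw [hk]
  ext x y
  simp only [Matrix.smul_apply, Matrix.add_apply, smul_eq_mul]
  ring

theorem blk_gram2' (g : Bool → Bool → Matrix ι ι ℝ) :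
    1 + blk g * (blk g)ᵀ = (1 / 2 : ℝ) •
      ((1 + cl2 (fun b => g b false) * (cl2 (fun b => g b false))ᵀ) +
      (1 + cl2 (fun b => g b true) * (cl2 (fun b => g b true))ᵀ)) := by
  have hs : (Real.sqrt 2)⁻¹ * (Real.sqrt 2)⁻¹ = 1 / 2 := by
    rw [← mul_inv, Real.mul_self_sqrt (by norm_num)]
    norm_num
  have hk : blk g * (blk g)ᵀ = (1 / 2 : ℝ) •
      (cl2 (fun b => g b false) * (cl2 (fun b => g b false))ᵀ +
      cl2 (fun b => g b true) * (cl2 (fun b => g b true))ᵀ) := by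
    ext x y
    simp only [Matrix.mul_apply, Matrix.transpose_apply, Matrix.smul_apply, Matrix.add_apply, blk,
      cl2, Fintype.sum_prod_type, Fintype.sum_bool, smul_eq_mul]
    have h1 : ∀ a : Bool, ∑ i : ι, (Real.sqrt 2)⁻¹ * g x.1 a x.2 i * ((Real.sqrt 2)⁻¹ * g y.1 a y.2 i)
        = ∑ i : ι, (1 / 2) * (g x.1 a x.2 i * g y.1 a y.2 i) := by
      intro a
      refine Finset.sum_congr rfl fun i _ => ?_
      rw [← hs]; ring
    have h2 : ∀ a : Bool, ∑ i : ι, (1 / 2) * g x.1 a x.2 i * ((1 / 2) * g y.1 a y.2 i)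
        = (1 / 2) * ∑ i : ι, (1 / 2) * (g x.1 a x.2 i * g y.1 a y.2 i) := by
      intro a
      rw [Finset.mul_sum]
      refine Finset.sum_congr rfl fun i _ => ?_
      ring
    rw [h1, h1, h2, h2]
    ring
  rw [hk]
  ext x y
  simp only [Matrix.smul_apply, Matrix.add_apply, smul_eq_mul]
  ring

theorem step1 (f g : Bool → Bool → Matrix ι ι ℝ) :
    trace (PP (blk f) * QQ (blk g)) + (1 / 2) * EE (blk f) (blk g)
      ≤ (1 / 4) * ∑ a : Bool, ∑ c : Bool,
          (trace (PP (rw2 (f a)) * QQ (cl2 (fun b => g b c)))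
            + (1 / 2) * trace (PP (rw2 (f a)) * sgm * QQ (cl2 (fun b => g b c)) * sgm))
        + 3 * LD (1 + (rw2 (f false))ᵀ * rw2 (f false)) (1 + (rw2 (f true))ᵀ * rw2 (f true))
        + 3 * LD (1 + cl2 (fun b => g b false) * (cl2 (fun b => g b false))ᵀ)
            (1 + cl2 (fun b => g b true) * (cl2 (fun b => g b true))ᵀ) := by
  set r0 := rw2 (f false) with hr0
  set r1 := rw2 (f true) with hr1
  set c0 := cl2 (fun b => g b false) with hc0
  set c1 := cl2 (fun b => g b true) with hc1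
  have hX : ∀ r : Matrix ι (Bool × ι) ℝ, ((1 + rᵀ * r) - 1).PosSemidef := by
    intro r
    rw [add_sub_cancel_left, ← conjTranspose_eq_transpose_of_trivial]
    exact posSemidef_conjTranspose_mul_self r
  have hY : ∀ r : Matrix (Bool × ι) ι ℝ, ((1 + r * rᵀ) - 1).PosSemidef := by
    intro r
    rw [add_sub_cancel_left, ← conjTranspose_eq_transpose_of_trivial]
    exact posSemidef_self_mul_conjTranspose r
  obtain ⟨p1, p2⟩ := pair_delta _ _ (hX r0) (hX r1)
  obtain ⟨q1, q2⟩ := pair_delta _ _ (hY c0) (hY c1)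
  have hSt : (sgm : Matrix (Bool × ι) (Bool × ι) ℝ)ᵀ = sgm := by
    unfold sgm
    exact diagonal_transpose _
  have hSS : (sgm : Matrix (Bool × ι) (Bool × ι) ℝ) * sgm = 1 := by
    unfold sgm
    rw [diagonal_mul_diagonal, ← diagonal_one]
    congr 1
    funext x
    unfold sg
    split_ifs <;> norm_num
  have hPb1 : (1 - (1 / 2 : ℝ) • (PP r0 + PP r1)).PosSemidef := by
    have h : 1 - (1 / 2 : ℝ) • (PP r0 + PP r1) =
        (1 / 2 : ℝ) • (1 - PP r0) + (1 / 2 : ℝ) • (1 - PP r1) := by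
      ext x y
      simp only [Matrix.smul_apply, Matrix.add_apply, Matrix.sub_apply, smul_eq_mul]
      ring
    rw [h]
    exact ((one_sub_PP_psd r0).smul (by norm_num)).add ((one_sub_PP_psd r1).smul (by norm_num))
  have hP : PP (blk f) = (1 / 2 : ℝ) • (PP r0 + PP r1) +
      ((1 / 2 : ℝ) • ((1 + r0ᵀ * r0)⁻¹ + (1 + r1ᵀ * r1)⁻¹) -
        ((1 / 2 : ℝ) • ((1 + r0ᵀ * r0) + (1 + r1ᵀ * r1)))⁻¹) := by
    rw [← blk_gram' f]
    unfold PP
    ext x y
    simp only [Matrix.smul_apply, Matrix.add_apply, Matrix.sub_apply, smul_eq_mul]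
    ring
  have hQ : QQ (blk g) = (1 / 2 : ℝ) • (QQ c0 + QQ c1) +
      ((1 / 2 : ℝ) • ((1 + c0 * c0ᵀ)⁻¹ + (1 + c1 * c1ᵀ)⁻¹) -
        ((1 / 2 : ℝ) • ((1 + c0 * c0ᵀ) + (1 + c1 * c1ᵀ)))⁻¹) := by
    rw [← blk_gram2' g]
    unfold QQ
    ext x y
    simp only [Matrix.smul_apply, Matrix.add_apply, Matrix.sub_apply, smul_eq_mul]
    ring
  have key := abs_step' (PP (blk f)) (QQ (blk g)) _ _ _ _ sgm hP hQ p1 q1 (one_sub_QQ_psd _) hPb1
    hSt hSS
  have e1 : trace ((1 / 2 : ℝ) • (PP r0 + PP r1) * (1 / 2 : ℝ) • (QQ c0 + QQ c1)) =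
      (1 / 4) * (trace (PP r0 * QQ c0) + trace (PP r0 * QQ c1) + trace (PP r1 * QQ c0) +
        trace (PP r1 * QQ c1)) := by
    simp only [Matrix.smul_mul, Matrix.mul_smul, Matrix.add_mul, Matrix.mul_add, trace_smul,
      trace_add, smul_eq_mul]
    ring
  have e2 : trace ((1 / 2 : ℝ) • (PP r0 + PP r1) * sgm * (1 / 2 : ℝ) • (QQ c0 + QQ c1) * sgm) =
      (1 / 4) * (trace (PP r0 * sgm * QQ c0 * sgm) + trace (PP r0 * sgm * QQ c1 * sgm) +
        trace (PP r1 * sgm * QQ c0 * sgm) + trace (PP r1 * sgm * QQ c1 * sgm)) := by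
    simp only [Matrix.smul_mul, Matrix.mul_smul, Matrix.add_mul, Matrix.mul_add, trace_smul,
      trace_add, smul_eq_mul]
    ring
  rw [e1, e2] at key
  unfold EE
  simp only [Fintype.sum_bool]
  rw [← hr0, ← hr1, ← hc0, ← hc1]
  linarith

end

end Pool.Agent.TH704
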