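import Pool.Agent.Helper704.TH.Defs
import Pool.Agent.Helper704.TH.L_ldsum
import Pool.Agent.Helper704.TH.L_psd
import Pool.Agent.Helper704.TH.L_simdiag

set_option autoImplicit false
set_option maxHeartbeats 4000000
set_option linter.unusedVariables false
set_option linter.unusedSectionVars false

open Matrix Finset

namespace Pool.Agent.TH704

noncomputable section

variable {m n ι : Type*} [Fintype m] [DecidableEq m] [Fintype n] [DecidableEq n]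
  [Fintype ι] [DecidableEq ι]























theorem P0_s2 (u : Matrix m n ℝ) (G : Matrix m m ℝ) (h : (1 + u * uᵀ) * G = 1) :
    PP u = uᵀ * G * u := by
  have e : (1 + uᵀ * u) * (1 - uᵀ * G * u) = 1 := by
    have h1 : (1 + uᵀ * u) * (1 - uᵀ * G * u) =
        1 + uᵀ * u - uᵀ * ((1 + u * uᵀ) * G) * u := by
      simp only [Matrix.add_mul, Matrix.mul_sub, Matrix.mul_add, Matrix.one_mul, Matrix.mul_one,
        Matrix.mul_assoc]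
    rw [h1, h, Matrix.mul_one, add_sub_cancel_right]
  unfold PP
  rw [Matrix.inv_eq_right_inv e, sub_sub_cancel]

theorem Q0_s2 (v : Matrix m n ℝ) (H : Matrix n n ℝ) (h : (1 + vᵀ * v) * H = 1) :
    QQ v = v * H * vᵀ := by
  have h1 := P0_s2 vᵀ H (by rwa [Matrix.transpose_transpose])
  unfold PP at h1
  rw [Matrix.transpose_transpose] at h1
  unfold QQ
  exact h1

theorem invdiag_s2 (S : Matrix m m ℝ) (δ : m → ℝ) (hS : IsUnit S.det) (hδ : ∀ i, δ i ≠ 0) :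
    (S * diagonal δ * Sᵀ) * ((S⁻¹)ᵀ * diagonal (fun i => (δ i)⁻¹) * S⁻¹) = 1 := by
  have h1 : S⁻¹ * S = 1 := Matrix.nonsing_inv_mul S hS
  have h2 : S * S⁻¹ = 1 := Matrix.mul_nonsing_inv S hS
  have h3 : Sᵀ * (S⁻¹)ᵀ = 1 := by rw [← Matrix.transpose_mul, h1, Matrix.transpose_one]
  have h4 : diagonal δ * diagonal (fun i => (δ i)⁻¹) = 1 := by
    rw [Matrix.diagonal_mul_diagonal]
    have : (fun i => δ i * (δ i)⁻¹) = fun _ => (1 : ℝ) := by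
      funext i
      exact mul_inv_cancel₀ (hδ i)
    rw [this, Matrix.diagonal_one]
  calc (S * diagonal δ * Sᵀ) * ((S⁻¹)ᵀ * diagonal (fun i => (δ i)⁻¹) * S⁻¹)
      = S * diagonal δ * (Sᵀ * (S⁻¹)ᵀ) * diagonal (fun i => (δ i)⁻¹) * S⁻¹ := by
        simp only [Matrix.mul_assoc]
    _ = S * (diagonal δ * diagonal (fun i => (δ i)⁻¹)) * S⁻¹ := by
        rw [h3, Matrix.mul_one]
        simp only [Matrix.mul_assoc]
    _ = 1 := by rw [h4, Matrix.mul_one, h2]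

theorem trdiag_s2 (a : m → ℝ) (b : n → ℝ) (K : Matrix m n ℝ) :
    trace (diagonal a * K * diagonal b * Kᵀ) = ∑ i, ∑ j, a i * K i j * b j * K i j := by
  rw [Matrix.trace]
  refine Finset.sum_congr rfl fun i _ => ?_
  rw [Matrix.diag_apply, Matrix.mul_apply]
  refine Finset.sum_congr rfl fun j _ => ?_
  rw [Matrix.mul_diagonal, Matrix.diagonal_mul, Matrix.transpose_apply]

theorem trPQ_s2 {k : Type*} [Fintype k] [DecidableEq k] (u : Matrix m n ℝ) (v : Matrix n k ℝ)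
    (S : Matrix m m ℝ) (T : Matrix k k ℝ) (δ : m → ℝ) (ε : k → ℝ) (hS : IsUnit S.det)
    (hT : IsUnit T.det) (hδ : ∀ i, δ i ≠ 0) (hε : ∀ j, ε j ≠ 0)
    (hW : 1 + u * uᵀ = S * diagonal δ * Sᵀ) (hV : 1 + vᵀ * v = T * diagonal ε * Tᵀ) :
    trace (PP u * QQ v) = ∑ i, ∑ j, (S⁻¹ * (u * v) * (T⁻¹)ᵀ) i j ^ 2 / (δ i * ε j) := by
  have hP := P0_s2 u ((S⁻¹)ᵀ * diagonal (fun i => (δ i)⁻¹) * S⁻¹)
    (by rw [hW]; exact invdiag_s2 S δ hS hδ)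
  have hQ := Q0_s2 v ((T⁻¹)ᵀ * diagonal (fun i => (ε i)⁻¹) * T⁻¹)
    (by rw [hV]; exact invdiag_s2 T ε hT hε)
  have h1 : PP u * QQ v = (uᵀ * (S⁻¹)ᵀ) * (diagonal (fun i => (δ i)⁻¹) *
      (S⁻¹ * (u * v) * (T⁻¹)ᵀ) * diagonal (fun i => (ε i)⁻¹) * (T⁻¹ * vᵀ)) := by
    rw [hP, hQ]
    simp only [Matrix.mul_assoc]
  have h2 : (diagonal (fun i => (δ i)⁻¹) *
      (S⁻¹ * (u * v) * (T⁻¹)ᵀ) * diagonal (fun i => (ε i)⁻¹) * (T⁻¹ * vᵀ)) * (uᵀ * (S⁻¹)ᵀ) =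
      diagonal (fun i => (δ i)⁻¹) * (S⁻¹ * (u * v) * (T⁻¹)ᵀ) * diagonal (fun i => (ε i)⁻¹) *
        (S⁻¹ * (u * v) * (T⁻¹)ᵀ)ᵀ := by
    simp only [Matrix.transpose_mul, Matrix.transpose_transpose, Matrix.mul_assoc]
  rw [h1, Matrix.trace_mul_comm, h2, trdiag_s2]
  refine Finset.sum_congr rfl fun i _ => Finset.sum_congr rfl fun j _ => ?_
  have := hδ i
  have := hε j
  field_simp

theorem rowR_s2 {k : Type*} [Fintype k] [DecidableEq k] (X : Matrix m n ℝ) (Y : Matrix n k ℝ)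
    (hY : (1 - Y * Yᵀ).PosSemidef) (i : m) (hX : (X * Xᵀ) i i ≤ 1) :
    ∑ j, (X * Y) i j ^ 2 ≤ 1 := by
  have h1 : (X * (1 - Y * Yᵀ) * Xᵀ).PosSemidef := by
    have := hY.mul_mul_conjTranspose_same X
    rwa [Matrix.conjTranspose_eq_transpose_of_trivial] at this
  have h2 : 0 ≤ (X * (1 - Y * Yᵀ) * Xᵀ : Matrix m m ℝ) i i := h1.diag_nonneg
  have h3 : X * (1 - Y * Yᵀ) * Xᵀ = X * Xᵀ - (X * Y) * (X * Y)ᵀ := by
    rw [Matrix.mul_sub, Matrix.sub_mul, Matrix.mul_one, Matrix.transpose_mul]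
    simp only [Matrix.mul_assoc]
  rw [h3, Matrix.sub_apply] at h2
  have h4 : ((X * Y) * (X * Y)ᵀ) i i = ∑ j, (X * Y) i j ^ 2 := by
    rw [Matrix.mul_apply]
    refine Finset.sum_congr rfl fun j _ => ?_
    rw [Matrix.transpose_apply]
    ring
  linarith

theorem point_s2 (d e p q : ℝ) (hd : |d| < 1) (he : |e| < 1) :
    p ^ 2 + 1 / 2 * q ^ 2 ≤ 1 / 2 * ((p + q) ^ 2 / ((1 + d) * (1 + e)) +
      (p - q) ^ 2 / ((1 - d) * (1 - e))) + d ^ 2 * (9 / 2 * p ^ 2 + 1 / 2 * q ^ 2) +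
      e ^ 2 * (9 / 2 * p ^ 2 + 1 / 2 * q ^ 2) := by
  obtain ⟨d1, d2⟩ := abs_lt.1 hd
  obtain ⟨e1, e2⟩ := abs_lt.1 he
  have a1 : 0 < 1 + d := by linarith
  have a2 : 0 < 1 - d := by linarith
  have a3 : 0 < 1 + e := by linarith
  have a4 : 0 < 1 - e := by linarith
  have hprod : (1 - d) * (1 - e) * ((1 + d) * (1 + e)) ≤ 1 := by
    have h1 : 0 ≤ d ^ 2 := sq_nonneg d
    have h2 : 0 ≤ e ^ 2 := sq_nonneg e
    have h3 : d ^ 2 < 1 := by nlinarith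
    have h4 : e ^ 2 < 1 := by nlinarith
    have h5 : (1 - d) * (1 - e) * ((1 + d) * (1 + e)) = (1 - d ^ 2) * (1 - e ^ 2) := by ring
    rw [h5]
    nlinarith
  have b1 : (p + q) ^ 2 * ((1 - d) * (1 - e)) ≤ (p + q) ^ 2 / ((1 + d) * (1 + e)) := by
    rw [le_div_iff₀ (mul_pos a1 a3)]
    have := mul_le_mul_of_nonneg_left hprod (sq_nonneg (p + q))
    nlinarith [this]
  have b2 : (p - q) ^ 2 * ((1 + d) * (1 + e)) ≤ (p - q) ^ 2 / ((1 - d) * (1 - e)) := by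
    rw [le_div_iff₀ (mul_pos a2 a4)]
    have := mul_le_mul_of_nonneg_left hprod (sq_nonneg (p - q))
    nlinarith [this]
  have b3 : 1 / 2 * ((p + q) ^ 2 * ((1 - d) * (1 - e)) + (p - q) ^ 2 * ((1 + d) * (1 + e))) +
      d ^ 2 * (9 / 2 * p ^ 2 + 1 / 2 * q ^ 2) + e ^ 2 * (9 / 2 * p ^ 2 + 1 / 2 * q ^ 2) -
      (p ^ 2 + 1 / 2 * q ^ 2) =
      1 / 2 * (d + e) ^ 2 * (p ^ 2 + q ^ 2) + 1 / 2 * (q - 2 * (d + e) * p) ^ 2 +
        2 * (d - e) ^ 2 * p ^ 2 := by ring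
  have b4 : 0 ≤ 1 / 2 * (d + e) ^ 2 * (p ^ 2 + q ^ 2) + 1 / 2 * (q - 2 * (d + e) * p) ^ 2 +
        2 * (d - e) ^ 2 * p ^ 2 := by positivity
  linarith

theorem scal_s2 (d e : ι → ℝ) (p q : ι → ι → ℝ) (hd : ∀ i, |d i| < 1) (he : ∀ i, |e i| < 1)
    (hpr : ∀ i, ∑ j, p i j ^ 2 ≤ 1) (hpc : ∀ j, ∑ i, p i j ^ 2 ≤ 1)
    (hqr : ∀ i, ∑ j, q i j ^ 2 ≤ 1) (hqc : ∀ j, ∑ i, q i j ^ 2 ≤ 1) :
    ∑ i, ∑ j, p i j ^ 2 + 1 / 2 * ∑ i, ∑ j, q i j ^ 2 ≤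
      1 / 2 * (∑ i, ∑ j, (p i j + q i j) ^ 2 / ((1 + d i) * (1 + e j)) +
        ∑ i, ∑ j, (p i j - q i j) ^ 2 / ((1 - d i) * (1 - e j))) +
      5 * ∑ i, d i ^ 2 + 5 * ∑ j, e j ^ 2 := by
  have h1 : ∑ i, ∑ j, (p i j ^ 2 + 1 / 2 * q i j ^ 2) ≤
      ∑ i, ∑ j, (1 / 2 * ((p i j + q i j) ^ 2 / ((1 + d i) * (1 + e j)) +
      (p i j - q i j) ^ 2 / ((1 - d i) * (1 - e j))) +
      d i ^ 2 * (9 / 2 * p i j ^ 2 + 1 / 2 * q i j ^ 2) +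
      e j ^ 2 * (9 / 2 * p i j ^ 2 + 1 / 2 * q i j ^ 2)) :=
    Finset.sum_le_sum fun i _ => Finset.sum_le_sum fun j _ =>
      point_s2 (d i) (e j) (p i j) (q i j) (hd i) (he j)
  have hr : ∀ i, ∑ j, d i ^ 2 * (9 / 2 * p i j ^ 2 + 1 / 2 * q i j ^ 2) ≤ 5 * d i ^ 2 := by
    intro i
    have h2 : ∑ j, d i ^ 2 * (9 / 2 * p i j ^ 2 + 1 / 2 * q i j ^ 2) =
        d i ^ 2 * (9 / 2 * ∑ j, p i j ^ 2 + 1 / 2 * ∑ j, q i j ^ 2) := by
      rw [← Finset.mul_sum, Finset.sum_add_distrib, ← Finset.mul_sum, ← Finset.mul_sum]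
    rw [h2]
    have h3 : 9 / 2 * ∑ j, p i j ^ 2 + 1 / 2 * ∑ j, q i j ^ 2 ≤ 5 := by
      linarith [hpr i, hqr i]
    nlinarith [sq_nonneg (d i), h3]
  have hc : ∀ j, ∑ i, e j ^ 2 * (9 / 2 * p i j ^ 2 + 1 / 2 * q i j ^ 2) ≤ 5 * e j ^ 2 := by
    intro j
    have h2 : ∑ i, e j ^ 2 * (9 / 2 * p i j ^ 2 + 1 / 2 * q i j ^ 2) =
        e j ^ 2 * (9 / 2 * ∑ i, p i j ^ 2 + 1 / 2 * ∑ i, q i j ^ 2) := by
      rw [← Finset.mul_sum, Finset.sum_add_distrib, ← Finset.mul_sum, ← Finset.mul_sum]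
    rw [h2]
    have h3 : 9 / 2 * ∑ i, p i j ^ 2 + 1 / 2 * ∑ i, q i j ^ 2 ≤ 5 := by
      linarith [hpc j, hqc j]
    nlinarith [sq_nonneg (e j), h3]
  have hr' : ∑ i, ∑ j, d i ^ 2 * (9 / 2 * p i j ^ 2 + 1 / 2 * q i j ^ 2) ≤ 5 * ∑ i, d i ^ 2 := by
    rw [Finset.mul_sum]
    exact Finset.sum_le_sum fun i _ => hr i
  have hc' : ∑ i, ∑ j, e j ^ 2 * (9 / 2 * p i j ^ 2 + 1 / 2 * q i j ^ 2) ≤ 5 * ∑ j, e j ^ 2 := by
    rw [Finset.sum_comm, Finset.mul_sum]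
    exact Finset.sum_le_sum fun j _ => hc j
  simp only [Finset.sum_add_distrib, ← Finset.mul_sum] at h1 hr' hc' ⊢
  linarith

theorem half_sq_s2 : (Real.sqrt 2)⁻¹ * (Real.sqrt 2)⁻¹ = 1 / 2 := by
  rw [← mul_inv, Real.mul_self_sqrt (by norm_num)]
  norm_num

theorem rw2_mul_self_s2 (u : Bool → Matrix ι ι ℝ) : rw2 u * (rw2 u)ᵀ =
    (1 / 2 : ℝ) • (u false * (u false)ᵀ + u true * (u true)ᵀ) := by
  ext i j
  rw [Matrix.mul_apply, Fintype.sum_prod_type, Fintype.sum_bool]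
  simp only [Matrix.smul_apply, Matrix.add_apply, Matrix.mul_apply, Matrix.transpose_apply, rw2,
    smul_eq_mul, mul_add, Finset.mul_sum]
  rw [add_comm]
  congr 1 <;>
  · refine Finset.sum_congr rfl fun k _ => ?_
    rw [← half_sq_s2]
    ring

theorem cl2_mul_self_s2 (v : Bool → Matrix ι ι ℝ) : (cl2 v)ᵀ * cl2 v =
    (1 / 2 : ℝ) • ((v false)ᵀ * v false + (v true)ᵀ * v true) := by
  ext i j
  rw [Matrix.mul_apply, Fintype.sum_prod_type, Fintype.sum_bool]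
  simp only [Matrix.smul_apply, Matrix.add_apply, Matrix.mul_apply, Matrix.transpose_apply, cl2,
    smul_eq_mul, mul_add, Finset.mul_sum]
  rw [add_comm]
  congr 1 <;>
  · refine Finset.sum_congr rfl fun k _ => ?_
    rw [← half_sq_s2]
    ring

theorem rw2_mul_cl2_s2 (u v : Bool → Matrix ι ι ℝ) : rw2 u * cl2 v =
    (1 / 2 : ℝ) • (u false * v false + u true * v true) := by
  ext i j
  rw [Matrix.mul_apply, Fintype.sum_prod_type, Fintype.sum_bool]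
  simp only [Matrix.smul_apply, Matrix.add_apply, Matrix.mul_apply, rw2, cl2,
    smul_eq_mul, mul_add, Finset.mul_sum]
  rw [add_comm]
  congr 1 <;>
  · refine Finset.sum_congr rfl fun k _ => ?_
    rw [← half_sq_s2]
    ring

theorem rw2_sgm_s2 (u : Bool → Matrix ι ι ℝ) :
    rw2 u * (sgm : Matrix (Bool × ι) (Bool × ι) ℝ) = rw2 (fun b => sg b • u b) := by
  ext i y
  unfold sgm
  rw [Matrix.mul_diagonal]
  simp only [rw2, Matrix.smul_apply, smul_eq_mul]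
  ring

theorem sgm_mul_s2 : (sgm : Matrix (Bool × ι) (Bool × ι) ℝ) * sgm = 1 := by
  unfold sgm
  rw [Matrix.diagonal_mul_diagonal]
  have : (fun i : Bool × ι => sg i.1 * sg i.1) = fun _ => (1 : ℝ) := by
    funext i
    cases i.1 <;> simp [sg]
  rw [this, Matrix.diagonal_one]

theorem sgm_tr_s2 : (sgm : Matrix (Bool × ι) (Bool × ι) ℝ)ᵀ = sgm := by
  unfold sgm
  rw [Matrix.diagonal_transpose]

theorem PP_sgm_s2 (A : Matrix ι (Bool × ι) ℝ) :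
    PP (A * (sgm : Matrix (Bool × ι) (Bool × ι) ℝ)) = sgm * PP A * sgm := by
  unfold PP
  have h1 : (A * (sgm : Matrix (Bool × ι) (Bool × ι) ℝ))ᵀ *
      (A * (sgm : Matrix (Bool × ι) (Bool × ι) ℝ)) = sgm * (Aᵀ * A) * sgm := by
    rw [Matrix.transpose_mul, sgm_tr_s2]
    simp only [Matrix.mul_assoc]
  have h2 : (1 : Matrix (Bool × ι) (Bool × ι) ℝ) + sgm * (Aᵀ * A) * sgm =
      sgm * (1 + Aᵀ * A) * sgm := by
    rw [Matrix.mul_add, Matrix.add_mul, Matrix.mul_one, sgm_mul_s2]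
  have h3 : (sgm * (1 + Aᵀ * A) * sgm)⁻¹ = sgm * (1 + Aᵀ * A)⁻¹ * sgm := by
    apply Matrix.inv_eq_right_inv
    have hu : IsUnit (1 + Aᵀ * A).det := by
      exact (Matrix.isUnit_iff_isUnit_det _).1 (posdef_row A).isUnit
    calc sgm * (1 + Aᵀ * A) * sgm * (sgm * (1 + Aᵀ * A)⁻¹ * sgm)
        = sgm * (1 + Aᵀ * A) * (sgm * sgm) * (1 + Aᵀ * A)⁻¹ * sgm := by
          simp only [Matrix.mul_assoc]
      _ = sgm * ((1 + Aᵀ * A) * (1 + Aᵀ * A)⁻¹) * sgm := by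
          rw [sgm_mul_s2, Matrix.mul_one]
          simp only [Matrix.mul_assoc]
      _ = 1 := by rw [Matrix.mul_nonsing_inv _ hu, Matrix.mul_one, sgm_mul_s2]
  rw [h1, h2, h3, Matrix.mul_sub, Matrix.sub_mul, Matrix.mul_one, sgm_mul_s2]

theorem XX_s2 (A : Matrix m n ℝ) (S : Matrix m m ℝ) (hS : IsUnit S.det)
    (hW : 1 + A * Aᵀ = S * Sᵀ) (i : m) :
    ((S⁻¹ * A) * (S⁻¹ * A)ᵀ : Matrix m m ℝ) i i ≤ 1 := by
  have h1 : S⁻¹ * S = 1 := Matrix.nonsing_inv_mul S hS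
  have h3 : Sᵀ * (S⁻¹)ᵀ = 1 := by rw [← Matrix.transpose_mul, h1, Matrix.transpose_one]
  have h4 : A * Aᵀ = S * Sᵀ - 1 := by rw [← hW, add_sub_cancel_left]
  have h5 : ((S⁻¹ * A) * (S⁻¹ * A)ᵀ : Matrix m m ℝ) = 1 - S⁻¹ * (S⁻¹)ᵀ := by
    calc ((S⁻¹ * A) * (S⁻¹ * A)ᵀ : Matrix m m ℝ) = S⁻¹ * (A * Aᵀ) * (S⁻¹)ᵀ := by
          rw [Matrix.transpose_mul]
          simp only [Matrix.mul_assoc]
      _ = (S⁻¹ * S) * (Sᵀ * (S⁻¹)ᵀ) - S⁻¹ * (S⁻¹)ᵀ := by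
          rw [h4, Matrix.mul_sub, Matrix.sub_mul, Matrix.mul_one]
          simp only [Matrix.mul_assoc]
      _ = 1 - S⁻¹ * (S⁻¹)ᵀ := by rw [h1, h3, Matrix.mul_one]
  have h6 : 0 ≤ (S⁻¹ * (S⁻¹)ᵀ : Matrix m m ℝ) i i := by
    rw [Matrix.mul_apply]
    refine Finset.sum_nonneg fun j _ => ?_
    rw [Matrix.transpose_apply]
    exact mul_self_nonneg _
  rw [h5, Matrix.sub_apply, Matrix.one_apply_eq]
  linarith

theorem YY_s2 (B : Matrix m n ℝ) (T : Matrix n n ℝ) (hT : IsUnit T.det)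
    (hV : 1 + Bᵀ * B = T * Tᵀ) :
    (B * (T⁻¹)ᵀ) * (B * (T⁻¹)ᵀ)ᵀ = QQ B := by
  have h1 : T⁻¹ * T = 1 := Matrix.nonsing_inv_mul T hT
  have h2 : T * T⁻¹ = 1 := Matrix.mul_nonsing_inv T hT
  have h3 : Tᵀ * (T⁻¹)ᵀ = 1 := by rw [← Matrix.transpose_mul, h1, Matrix.transpose_one]
  have h4 : (1 + Bᵀ * B) * ((T⁻¹)ᵀ * T⁻¹) = 1 := by
    rw [hV]
    calc T * Tᵀ * ((T⁻¹)ᵀ * T⁻¹) = T * (Tᵀ * (T⁻¹)ᵀ) * T⁻¹ := by simp only [Matrix.mul_assoc]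
      _ = 1 := by rw [h3, Matrix.mul_one, h2]
  rw [Q0_s2 B _ h4, Matrix.transpose_mul, Matrix.transpose_transpose]
  simp only [Matrix.mul_assoc]

theorem row_s2 {k : Type*} [Fintype k] [DecidableEq k] (A : Matrix m n ℝ) (B : Matrix n k ℝ)
    (S : Matrix m m ℝ) (T : Matrix k k ℝ) (hS : IsUnit S.det) (hT : IsUnit T.det)
    (hW : 1 + A * Aᵀ = S * Sᵀ) (hV : 1 + Bᵀ * B = T * Tᵀ) (i : m) :
    ∑ j, (S⁻¹ * (A * B) * (T⁻¹)ᵀ) i j ^ 2 ≤ 1 := by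
  have h1 : S⁻¹ * (A * B) * (T⁻¹)ᵀ = (S⁻¹ * A) * (B * (T⁻¹)ᵀ) := by
    simp only [Matrix.mul_assoc]
  rw [h1]
  refine rowR_s2 (S⁻¹ * A) (B * (T⁻¹)ᵀ) ?_ i (XX_s2 A S hS hW i)
  rw [YY_s2 B T hT hV]
  exact one_sub_QQ_psd B

theorem col_s2 {k : Type*} [Fintype k] [DecidableEq k] (A : Matrix m n ℝ) (B : Matrix n k ℝ)
    (S : Matrix m m ℝ) (T : Matrix k k ℝ) (hS : IsUnit S.det) (hT : IsUnit T.det)
    (hW : 1 + A * Aᵀ = S * Sᵀ) (hV : 1 + Bᵀ * B = T * Tᵀ) (j : k) :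
    ∑ i, (S⁻¹ * (A * B) * (T⁻¹)ᵀ) i j ^ 2 ≤ 1 := by
  have h1 := row_s2 Bᵀ Aᵀ T S hT hS (by rw [Matrix.transpose_transpose]; exact hV)
    (by rw [Matrix.transpose_transpose]; exact hW) j
  have h2 : T⁻¹ * (Bᵀ * Aᵀ) * (S⁻¹)ᵀ = (S⁻¹ * (A * B) * (T⁻¹)ᵀ)ᵀ := by
    simp only [Matrix.transpose_mul, Matrix.transpose_transpose, Matrix.mul_assoc]
  rw [h2] at h1
  exact h1

theorem avg_s2 (S : Matrix m m ℝ) (d : m → ℝ) :
    (1 / 2 : ℝ) • (S * diagonal (fun i => 1 + d i) * Sᵀ + S * diagonal (fun i => 1 - d i) * Sᵀ) =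
      S * Sᵀ := by
  rw [← Matrix.add_mul, ← Matrix.mul_add, Matrix.diagonal_add, ← Matrix.smul_mul,
    ← Matrix.mul_smul, ← Matrix.diagonal_smul]
  have : ((1 / 2 : ℝ) • fun i => 1 + d i + (1 - d i)) = fun _ => (1 : ℝ) := by
    funext i
    simp only [Pi.smul_apply, smul_eq_mul]
    ring
  rw [this, Matrix.diagonal_one, Matrix.mul_one]

theorem step2 (u v : Bool → Matrix ι ι ℝ) :
    trace (PP (rw2 u) * QQ (cl2 v)) + (1 / 2) * trace (PP (rw2 u) * sgm * QQ (cl2 v) * sgm)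
      ≤ (1 / 2) * ∑ b : Bool, trace (PP (u b) * QQ (v b))
        + 10 * LD (1 + u false * (u false)ᵀ) (1 + u true * (u true)ᵀ)
        + 10 * LD (1 + (v false)ᵀ * v false) (1 + (v true)ᵀ * v true) := by
  obtain ⟨S, d, hS, hd, hW0, hW1⟩ := simdiag (1 + u false * (u false)ᵀ)
    (1 + u true * (u true)ᵀ) (posdef_col (u false)) (posdef_col (u true))
  obtain ⟨T, e, hT, he, hV0, hV1⟩ := simdiag (1 + (v false)ᵀ * v false)
    (1 + (v true)ᵀ * v true) (posdef_row (v false)) (posdef_row (v true))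
  have hWA : 1 + rw2 u * (rw2 u)ᵀ = S * Sᵀ := by
    have h1 : 1 + rw2 u * (rw2 u)ᵀ =
        (1 / 2 : ℝ) • ((1 + u false * (u false)ᵀ) + (1 + u true * (u true)ᵀ)) := by
      rw [rw2_mul_self_s2]
      module
    rw [h1, hW0, hW1, avg_s2]
  have hVB : 1 + (cl2 v)ᵀ * cl2 v = T * Tᵀ := by
    have h1 : 1 + (cl2 v)ᵀ * cl2 v =
        (1 / 2 : ℝ) • ((1 + (v false)ᵀ * v false) + (1 + (v true)ᵀ * v true)) := by
      rw [cl2_mul_self_s2]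
      module
    rw [h1, hV0, hV1, avg_s2]
  have hWA' : 1 + (rw2 u * (sgm : Matrix (Bool × ι) (Bool × ι) ℝ)) *
      (rw2 u * (sgm : Matrix (Bool × ι) (Bool × ι) ℝ))ᵀ = S * Sᵀ := by
    rw [← hWA]
    congr 1
    rw [Matrix.transpose_mul, sgm_tr_s2]
    calc rw2 u * (sgm : Matrix (Bool × ι) (Bool × ι) ℝ) *
        ((sgm : Matrix (Bool × ι) (Bool × ι) ℝ) * (rw2 u)ᵀ) =
        rw2 u * ((sgm : Matrix (Bool × ι) (Bool × ι) ℝ) *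
          (sgm : Matrix (Bool × ι) (Bool × ι) ℝ)) * (rw2 u)ᵀ := by
          simp only [Matrix.mul_assoc]
      _ = rw2 u * (rw2 u)ᵀ := by rw [sgm_mul_s2, Matrix.mul_one]
  have eM : rw2 u * cl2 v = (1 / 2 : ℝ) • (u false * v false + u true * v true) :=
    rw2_mul_cl2_s2 u v
  have eN : rw2 u * (sgm : Matrix (Bool × ι) (Bool × ι) ℝ) * cl2 v =
      (1 / 2 : ℝ) • (u false * v false - u true * v true) := by
    rw [rw2_sgm_s2, rw2_mul_cl2_s2]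
    simp only [sg, if_true, Bool.false_eq_true, if_false, one_smul, neg_smul, Matrix.neg_mul]
    rw [sub_eq_add_neg]
  have hone : ∀ w : ι → ℝ, (∀ i, |w i| < 1) → (∀ i, 1 + w i ≠ 0) ∧ ∀ i, 1 - w i ≠ 0 := by
    intro w hw
    refine ⟨fun i => ?_, fun i => ?_⟩
    · have := (abs_lt.1 (hw i)).1
      intro h0
      linarith
    · have := (abs_lt.1 (hw i)).2
      intro h0
      linarith
  have t1 : trace (PP (rw2 u) * QQ (cl2 v)) =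
      ∑ i, ∑ j, (S⁻¹ * (rw2 u * cl2 v) * (T⁻¹)ᵀ) i j ^ 2 := by
    rw [trPQ_s2 (rw2 u) (cl2 v) S T (fun _ => 1) (fun _ => 1) hS hT (fun _ => one_ne_zero)
      (fun _ => one_ne_zero) (by rw [hWA, Matrix.diagonal_one, Matrix.mul_one])
      (by rw [hVB, Matrix.diagonal_one, Matrix.mul_one])]
    simp only [mul_one, div_one]
  have t2 : trace (PP (rw2 u) * sgm * QQ (cl2 v) * sgm) =
      ∑ i, ∑ j, (S⁻¹ * (rw2 u * (sgm : Matrix (Bool × ι) (Bool × ι) ℝ) * cl2 v) *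
        (T⁻¹)ᵀ) i j ^ 2 := by
    have h1 : trace (PP (rw2 u) * sgm * QQ (cl2 v) * sgm) =
        trace (PP (rw2 u * (sgm : Matrix (Bool × ι) (Bool × ι) ℝ)) * QQ (cl2 v)) := by
      rw [PP_sgm_s2, Matrix.trace_mul_comm]
      simp only [Matrix.mul_assoc]
    rw [h1, trPQ_s2 (rw2 u * (sgm : Matrix (Bool × ι) (Bool × ι) ℝ)) (cl2 v) S T (fun _ => 1)
      (fun _ => 1) hS hT (fun _ => one_ne_zero) (fun _ => one_ne_zero)
      (by rw [hWA', Matrix.diagonal_one, Matrix.mul_one])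
      (by rw [hVB, Matrix.diagonal_one, Matrix.mul_one])]
    simp only [mul_one, div_one]
  have t3 : trace (PP (u false) * QQ (v false)) =
      ∑ i, ∑ j, (S⁻¹ * (u false * v false) * (T⁻¹)ᵀ) i j ^ 2 / ((1 + d i) * (1 + e j)) :=
    trPQ_s2 (u false) (v false) S T (fun i => 1 + d i) (fun i => 1 + e i) hS hT
      (hone d hd).1 (hone e he).1 hW0 hV0
  have t4 : trace (PP (u true) * QQ (v true)) =
      ∑ i, ∑ j, (S⁻¹ * (u true * v true) * (T⁻¹)ᵀ) i j ^ 2 / ((1 - d i) * (1 - e j)) :=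
    trPQ_s2 (u true) (v true) S T (fun i => 1 - d i) (fun i => 1 - e i) hS hT
      (hone d hd).2 (hone e he).2 hW1 hV1
  have k0 : S⁻¹ * (u false * v false) * (T⁻¹)ᵀ =
      S⁻¹ * (rw2 u * cl2 v) * (T⁻¹)ᵀ +
        S⁻¹ * (rw2 u * (sgm : Matrix (Bool × ι) (Bool × ι) ℝ) * cl2 v) * (T⁻¹)ᵀ := by
    rw [← Matrix.add_mul, ← Matrix.mul_add, eM, eN]
    congr 2
    module
  have k1 : S⁻¹ * (u true * v true) * (T⁻¹)ᵀ =
      S⁻¹ * (rw2 u * cl2 v) * (T⁻¹)ᵀ -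
        S⁻¹ * (rw2 u * (sgm : Matrix (Bool × ι) (Bool × ι) ℝ) * cl2 v) * (T⁻¹)ᵀ := by
    rw [← Matrix.sub_mul, ← Matrix.mul_sub, eM, eN]
    congr 2
    module
  have hld := LD_sum_sq S d hS hd
  have hle := LD_sum_sq T e hT he
  rw [← hW0, ← hW1] at hld
  rw [← hV0, ← hV1] at hle
  have hsc := scal_s2 d e
    (fun i j => (S⁻¹ * (rw2 u * cl2 v) * (T⁻¹)ᵀ) i j)
    (fun i j => (S⁻¹ * (rw2 u * (sgm : Matrix (Bool × ι) (Bool × ι) ℝ) * cl2 v) * (T⁻¹)ᵀ) i j)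
    hd he (fun i => row_s2 _ _ S T hS hT hWA hVB i) (fun j => col_s2 _ _ S T hS hT hWA hVB j)
    (fun i => row_s2 _ _ S T hS hT hWA' hVB i) (fun j => col_s2 _ _ S T hS hT hWA' hVB j)
  rw [Fintype.sum_bool, t1, t2, t3, t4, k0, k1]
  simp only [Matrix.add_apply, Matrix.sub_apply]
  linarith

end

end Pool.Agent.TH704
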