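import Pool.Agent.Helper704.TH.Defs
import Pool.Agent.Helper704.TH.L_frob
import Pool.Agent.Helper704.TH.L_psd

set_option autoImplicit false
set_option maxHeartbeats 4000000
set_option linter.unusedVariables false
set_option linter.unusedSectionVars false

open Matrix Finset

namespace Pool.Agent.TH704

noncomputable section

variable {m n ι : Type*} [Fintype m] [DecidableEq m] [Fintype n] [DecidableEq n]
  [Fintype ι] [DecidableEq ι]









theorem symm_tr_abs (U V : Matrix ι ι ℝ) (hU : Uᵀ = U) (hV : Vᵀ = V) :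
    |trace (U * V)| ≤ (trace (U * U) + trace (V * V)) / 2 := by
  have h1 : 0 ≤ trace ((U - V) * (U - V)) := by
    have h := (Matrix.posSemidef_conjTranspose_mul_self (U - V)).trace_nonneg
    rwa [conjTranspose_eq_transpose_of_trivial, transpose_sub, hU, hV] at h
  have h2 : 0 ≤ trace ((U + V) * (U + V)) := by
    have h := (Matrix.posSemidef_conjTranspose_mul_self (U + V)).trace_nonneg
    rwa [conjTranspose_eq_transpose_of_trivial, transpose_add, hU, hV] at h
  have e1 : trace ((U - V) * (U - V)) = trace (U * U) - 2 * trace (U * V) + trace (V * V) := by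
    rw [sub_mul, mul_sub, mul_sub, trace_sub, trace_sub, trace_sub, trace_mul_comm V U]; ring
  have e2 : trace ((U + V) * (U + V)) = trace (U * U) + 2 * trace (U * V) + trace (V * V) := by
    rw [add_mul, mul_add, mul_add, trace_add, trace_add, trace_add, trace_mul_comm V U]; ring
  rw [abs_le]
  constructor <;> linarith

theorem cross_bd (f0 f1 g0 g1 : Matrix ι ι ℝ) :
    |trace (PP f0 * QQ g0) - trace (PP f0 * QQ g1) - trace (PP f1 * QQ g0) + trace (PP f1 * QQ g1)|
      ≤ 4 * (LD (1 + f0ᵀ * f0) (1 + f1ᵀ * f1) + LD (1 + g0 * g0ᵀ) (1 + g1 * g1ᵀ)) := by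
  set U := (1 + f0ᵀ * f0)⁻¹ - (1 + f1ᵀ * f1)⁻¹ with hUd
  set V := (1 + g0 * g0ᵀ)⁻¹ - (1 + g1 * g1ᵀ)⁻¹ with hVd
  have hU : Uᵀ = U := by
    rw [hUd, transpose_sub, transpose_nonsing_inv, transpose_nonsing_inv]
    simp [transpose_add, transpose_mul]
  have hV : Vᵀ = V := by
    rw [hVd, transpose_sub, transpose_nonsing_inv, transpose_nonsing_inv]
    simp [transpose_add, transpose_mul]
  have hPSD : ∀ A : Matrix ι ι ℝ, (1 + Aᵀ * A - 1).PosSemidef := by
    intro A
    rw [add_sub_cancel_left]
    have := Matrix.posSemidef_conjTranspose_mul_self A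
    rwa [conjTranspose_eq_transpose_of_trivial] at this
  have hPSD' : ∀ A : Matrix ι ι ℝ, (1 + A * Aᵀ - 1).PosSemidef := by
    intro A
    rw [add_sub_cancel_left]
    have := Matrix.posSemidef_self_mul_conjTranspose A
    rwa [conjTranspose_eq_transpose_of_trivial] at this
  have h1 := pair_frob (1 + f0ᵀ * f0) (1 + f1ᵀ * f1) (hPSD f0) (hPSD f1)
  have h2 := pair_frob (1 + g0 * g0ᵀ) (1 + g1 * g1ᵀ) (hPSD' g0) (hPSD' g1)
  rw [← hUd] at h1
  rw [← hVd] at h2
  have h3 := symm_tr_abs U V hU hV
  have e : trace (PP f0 * QQ g0) - trace (PP f0 * QQ g1) - trace (PP f1 * QQ g0)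
      + trace (PP f1 * QQ g1) = trace (U * V) := by
    have : U * V = PP f0 * QQ g0 - PP f0 * QQ g1 - PP f1 * QQ g0 + PP f1 * QQ g1 := by
      rw [hUd, hVd]
      unfold PP QQ
      noncomm_ring
    rw [this, trace_add, trace_sub, trace_sub]
  rw [e]
  linarith

theorem step3 (f g : Bool → Bool → Matrix ι ι ℝ) :
    (1 / 8) * ∑ a : Bool, ∑ b : Bool, ∑ c : Bool, trace (PP (f a b) * QQ (g b c))
      ≤ (1 / 4) * ∑ a : Bool, ∑ b : Bool, trace (PP (f a b) * QQ (g b (xor a b)))
        + (1 / 2) * ∑ b : Bool, LD (1 + (f false b)ᵀ * f false b) (1 + (f true b)ᵀ * f true b)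
        + (1 / 2) * ∑ b : Bool, LD (1 + g b false * (g b false)ᵀ) (1 + g b true * (g b true)ᵀ) := by
  have h1 := cross_bd (f false false) (f true false) (g false false) (g false true)
  have h2 := cross_bd (f false true) (f true true) (g true false) (g true true)
  rw [abs_le] at h1 h2
  simp only [Fintype.sum_bool, Bool.xor_false, Bool.xor_true, Bool.not_true, Bool.not_false]
  linarith [h1.1, h1.2, h2.1, h2.2]

end

end Pool.Agent.TH704
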