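import Pool.Agent.Helper704.TH.Defs
import Pool.Agent.Helper704.TH.L_psd

set_option autoImplicit false
set_option maxHeartbeats 4000000
set_option linter.unusedVariables false
set_option linter.unusedSectionVars false

open Matrix Finset

namespace Pool.Agent.TH704

noncomputable section

variable {m n ι : Type*} [Fintype m] [DecidableEq m] [Fintype n] [DecidableEq n]
  [Fintype ι] [DecidableEq ι]











theorem mul_bound406 {κ : Type*} [Fintype κ] (X Y : Matrix κ κ ℝ) (a b : ℝ) (ha : 0 ≤ a)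
    (hX : ∀ i j, |X i j| ≤ a) (hY : ∀ i j, |Y i j| ≤ b) (i j : κ) :
    |(X * Y) i j| ≤ (Fintype.card κ : ℝ) * (a * b) := by
  rw [Matrix.mul_apply]
  refine (Finset.abs_sum_le_sum_abs _ _).trans ?_
  have h : ∀ k ∈ (Finset.univ : Finset κ), |X i k * Y k j| ≤ a * b := by
    intro k _
    rw [abs_mul]
    exact mul_le_mul (hX i k) (hY k j) (abs_nonneg _) ha
  refine (Finset.sum_le_sum h).trans ?_
  rw [Finset.sum_const, Finset.card_univ, nsmul_eq_mul]

theorem bet_bound406 {κ : Type*} [Fintype κ] [DecidableEq κ] (X : Matrix κ κ ℝ) (i j : κ) :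
    |bet X i j| ≤ 1 := by
  obtain ⟨S, hS⟩ : ∃ S : Matrix κ κ ℝ, S = 1 + Xᵀ * X := ⟨_, rfl⟩
  have hpd : S.PosDef := by rw [hS]; exact posdef_row X
  have hdet : IsUnit S.det := hpd.det_pos.ne'.isUnit
  obtain ⟨G, hG⟩ : ∃ G : Matrix κ κ ℝ, G = S⁻¹ := ⟨_, rfl⟩
  have hSG : S * G = 1 := by rw [hG]; exact Matrix.mul_nonsing_inv S hdet
  have hbet : bet X = X * G := by rw [hG, hS]; rfl
  have h1 : (X * G)ᵀ * (X * G) + Gᵀ * G = Gᵀ := by
    have h2 : (X * G)ᵀ * (X * G) + Gᵀ * G = Gᵀ * ((1 + Xᵀ * X) * G) := by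
      rw [Matrix.transpose_mul, Matrix.add_mul, Matrix.mul_add, Matrix.one_mul]
      simp only [Matrix.mul_assoc]
      rw [add_comm]
    rw [h2, ← hS, hSG, Matrix.mul_one]
  have h3 := congrFun (congrFun h1 j) j
  rw [Matrix.add_apply, Matrix.mul_apply, Matrix.mul_apply] at h3
  simp only [Matrix.transpose_apply] at h3
  have hPP : 0 ≤ (PP X) j j := by
    have := (PP_psd X).diag_nonneg (i := j)
    exact this
  have hGjj : G j j ≤ 1 := by
    have : (PP X) j j = 1 - G j j := by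
      rw [hG, hS]
      simp [PP]
    linarith
  have h4 : (X * G) i j ^ 2 ≤ ∑ k, (X * G) k j * (X * G) k j := by
    have := Finset.single_le_sum (f := fun k => (X * G) k j * (X * G) k j)
      (fun k _ => mul_self_nonneg _) (Finset.mem_univ i)
    rw [sq]; exact this
  have h5 : 0 ≤ ∑ k, G k j * G k j := Finset.sum_nonneg fun k _ => mul_self_nonneg _
  have h6 : (X * G) i j ^ 2 ≤ 1 := by linarith
  rw [hbet]
  exact (sq_le_one_iff_abs_le_one _).1 h6

theorem sgm_bound406 (x y : Bool × ι) : |(sgm : Matrix (Bool × ι) (Bool × ι) ℝ) x y| ≤ 1 := by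
  unfold sgm
  rw [Matrix.diagonal_apply]
  split_ifs
  · unfold sg
    split_ifs <;> simp
  · simp

theorem DD_bound406 (A B C : Matrix (Bool × ι) (Bool × ι) ℝ) (hA : ∀ i j, |A i j| ≤ 1)
    (hB : ∀ i j, |B i j| ≤ 1) (hC : ∀ i j, |C i j| ≤ 1) :
    |DD A B C| ≤ (Fintype.card (Bool × ι) : ℝ) ^ 6 := by
  obtain ⟨N, hN⟩ : ∃ N : ℝ, N = (Fintype.card (Bool × ι) : ℝ) := ⟨_, rfl⟩
  have hN0 : 0 ≤ N := by rw [hN]; positivity
  obtain ⟨s, hs⟩ : ∃ s : Matrix (Bool × ι) (Bool × ι) ℝ, s = sgm := ⟨_, rfl⟩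
  have hsb : ∀ i j, |s i j| ≤ 1 := by rw [hs]; exact sgm_bound406
  have e1 : ∀ i j, |(s * A) i j| ≤ N := by
    intro i j
    have := mul_bound406 s A 1 1 zero_le_one hsb hA i j
    rw [← hN] at this; linarith
  have e2 : ∀ i j, |(s * A * s) i j| ≤ N ^ 2 := by
    intro i j
    have := mul_bound406 _ _ N 1 hN0 e1 hsb i j
    rw [← hN] at this; linarith [sq N]
  have e3 : ∀ i j, |(s * A * s * B) i j| ≤ N ^ 3 := by
    intro i j
    have := mul_bound406 _ _ (N ^ 2) 1 (by positivity) e2 hB i j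
    rw [← hN] at this
    calc _ ≤ _ := this
      _ = _ := by ring
  have e4 : ∀ i j, |(s * A * s * B * s) i j| ≤ N ^ 4 := by
    intro i j
    have := mul_bound406 _ _ (N ^ 3) 1 (by positivity) e3 hsb i j
    rw [← hN] at this
    calc _ ≤ _ := this
      _ = _ := by ring
  have e5 : ∀ i j, |(s * A * s * B * s * C) i j| ≤ N ^ 5 := by
    intro i j
    have := mul_bound406 _ _ (N ^ 4) 1 (by positivity) e4 hC i j
    rw [← hN] at this
    calc _ ≤ _ := this
      _ = _ := by ring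
  rw [hs] at e5
  unfold DD Matrix.trace
  refine (Finset.abs_sum_le_sum_abs _ _).trans ?_
  refine (Finset.sum_le_sum fun i _ => (e5 i i : _ ≤ N ^ 5)).trans ?_
  rw [Finset.sum_const, Finset.card_univ, nsmul_eq_mul, ← hN]
  exact le_of_eq (by ring)

theorem TT_zero (A B C : Matrix (Bool × ι) (Bool × ι) ℝ) :
    Filter.Tendsto (fun K : ℕ => TT ((2 ^ K)⁻¹) A B C) Filter.atTop (nhds 0) := by
  have hlim : Filter.Tendsto (fun K : ℕ => (((2 : ℝ) ^ K)⁻¹) ^ 3 *
      (Fintype.card (Bool × ι) : ℝ) ^ 6) Filter.atTop (nhds 0) := by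
    have h1 : Filter.Tendsto (fun K : ℕ => ((2 : ℝ) ^ K)⁻¹) Filter.atTop (nhds 0) := by
      have := tendsto_pow_atTop_nhds_zero_of_lt_one (r := (2 : ℝ)⁻¹) (by norm_num) (by norm_num)
      simpa only [inv_pow] using this
    have h2 := (h1.pow 3).mul_const ((Fintype.card (Bool × ι) : ℝ) ^ 6)
    simpa using h2
  refine squeeze_zero_norm (fun K => ?_) hlim
  rw [Real.norm_eq_abs]
  unfold TT
  rw [abs_mul, abs_of_nonneg (by positivity : (0 : ℝ) ≤ (((2 : ℝ) ^ K)⁻¹) ^ 3)]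
  exact mul_le_mul_of_nonneg_left (DD_bound406 _ _ _ (bet_bound406 _) (bet_bound406 _)
    (bet_bound406 _)) (by positivity)

end

end Pool.Agent.TH704
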