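import Pool.Agent.Helper704.TH.Defs
import Pool.Agent.Helper704.TH.Defs2
import Pool.Agent.Helper704.TH.L_simdiag
import Pool.Agent.Helper704.TH.L_ldsum
import Pool.Agent.Helper704.TH.L_delta
import Pool.Agent.Helper704.TH.L_frob
import Pool.Agent.Helper704.TH.L_psd
import Pool.Agent.Helper704.TH.L_psin
import Pool.Agent.Helper704.TH.L_step1
import Pool.Agent.Helper704.TH.L_step2
import Pool.Agent.Helper704.TH.L_step3
import Pool.Agent.Helper704.TH.L_chain
import Pool.Agent.Helper704.TH.L_attop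
import Pool.Agent.Helper704.TH.L_ttzero
import Pool.Agent.Helper704.TH.L_leafc
import Pool.Agent.Helper704.TH.L_phileaf
import Pool.Agent.Helper704.TH.L_scsum
import Pool.Agent.Helper704.TH.L_lamzero
import Pool.Agent.Helper704.TH.L_lamsucc
import Pool.Agent.Helper704.TH.L_betf
import Pool.Agent.Helper704.TH.L_bet2f
import Pool.Agent.Helper704.TH.L_del
import Pool.Agent.Helper704.TH.L_dbterm

set_option autoImplicit false
set_option maxHeartbeats 4000000

open Matrix Finset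

namespace Pool.Agent.TH704

noncomputable section

variable {m n ι : Type*} [Fintype m] [DecidableEq m] [Fintype n] [DecidableEq n]
  [Fintype ι] [DecidableEq ι]

/-! ### A: pairs of matrices -/

theorem LD_nonneg (X Y : Matrix n n ℝ) (hX : X.PosDef) (hY : Y.PosDef) : 0 ≤ LD X Y := by
  obtain ⟨S, d, hS, hd, e1, e2⟩ := simdiag X Y hX hY
  have h := LD_sum_sq S d hS hd
  rw [← e1, ← e2] at h
  have : 0 ≤ ∑ i, d i ^ 2 := Finset.sum_nonneg fun i _ => sq_nonneg _
  linarith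

/-! ### B: basic facts on P and Q -/

theorem phi_nonneg (A B C : Matrix ι ι ℝ) : 0 ≤ phi A B C := by
  unfold phi
  have h1 := trace_mul_nonneg (PP_psd A) (QQ_psd B)
  have h2 := trace_mul_nonneg (PP_psd B) (QQ_psd C)
  have h3 := trace_mul_nonneg (PP_psd C) (QQ_psd A)
  have h4 := Psi_nonneg A
  have h5 := Psi_nonneg B
  have h6 := Psi_nonneg C
  positivity

/-! ### C: the three steps -/

theorem PL (f g : Bool → Bool → Matrix ι ι ℝ) :
    trace (PP (blk f) * QQ (blk g)) + (1 / 2) * EE (blk f) (blk g)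
      ≤ (1 / 4) * ∑ a : Bool, ∑ b : Bool, trace (PP (f a b) * QQ (g b (xor a b)))
        + 11 * (dPsi f + dPsi g) := by
  have h1 := step1 f g
  have h2 : ∀ a c : Bool, _ := fun a c => step2 (f a) (fun b => g b c)
  have h3 := step3 f g
  have r1 := chain_row f
  have r2 := chain_col f
  have r3 := chain_row g
  have r4 := chain_col g
  have n1 : ∀ X Y : Matrix (Bool × ι) (Bool × ι) ℝ, X.PosDef → Y.PosDef → 0 ≤ LD X Y :=
    fun X Y => LD_nonneg X Y
  have n2 : ∀ X Y : Matrix ι ι ℝ, X.PosDef → Y.PosDef → 0 ≤ LD X Y :=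
    fun X Y => LD_nonneg X Y
  have p1 := n1 _ _ (posdef_row (rw2 (f false))) (posdef_row (rw2 (f true)))
  have p2 := n1 _ _ (posdef_col (cl2 (fun b => f b false))) (posdef_col (cl2 (fun b => f b true)))
  have p3 := n1 _ _ (posdef_row (rw2 (g false))) (posdef_row (rw2 (g true)))
  have p4 := n1 _ _ (posdef_col (cl2 (fun b => g b false))) (posdef_col (cl2 (fun b => g b true)))
  have h200 := h2 false false
  have h201 := h2 false true
  have h210 := h2 true false
  have h211 := h2 true true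
  simp only [Fintype.sum_bool, Bool.xor_false, Bool.xor_true, Bool.false_xor, Bool.true_xor,
    Bool.not_true, Bool.not_false] at *
  linarith

theorem node (f g h : Bool → Bool → Matrix ι ι ℝ) :
    phi (blk f) (blk g) (blk h) + (1 / 2) * E3 (blk f) (blk g) (blk h)
      ≤ (1 / 4) * ∑ a : Bool, ∑ b : Bool, phi (f a b) (g b (xor a b)) (h (xor a b) a) := by
  have h1 := PL f g
  have h2 := PL g h
  have h3 := PL h f
  unfold phi E3
  unfold dPsi at h1 h2 h3
  simp only [Fintype.sum_bool, Bool.xor_false, Bool.xor_true, Bool.false_xor, Bool.true_xor,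
    Bool.not_true, Bool.not_false] at *
  linarith

/-! ### D: domination of the form -/

theorem DB1 (A B C : Matrix (Bool × ι) (Bool × ι) ℝ) :
    |8 * DD (bet ((1 / 2 : ℝ) • A)) (bet ((1 / 2 : ℝ) • B)) (bet ((1 / 2 : ℝ) • C))
      - DD (bet A) (bet B) (bet C)| ≤ 4 * E3 A B C := by
  have f1 : ∀ M : Matrix (Bool × ι) (Bool × ι) ℝ,
      ((4 : ℝ) • QQ M - bet M * (bet M)ᵀ).PosSemidef ∧
      ((4 : ℝ) • PP M - (bet M)ᵀ * bet M).PosSemidef := by
    intro M
    obtain ⟨a, b⟩ := bet_facts M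
    have c := (QQ_psd M).smul (show (0:ℝ) ≤ 3 by norm_num)
    have d := (PP_psd M).smul (show (0:ℝ) ≤ 3 by norm_num)
    constructor
    · have := a.add c
      convert this using 1
      module
    · have := b.add d
      convert this using 1
      module
  obtain ⟨GA, hA1, hA2⟩ := del_fact A
  obtain ⟨GB, hB1, hB2⟩ := del_fact B
  obtain ⟨GC, hC1, hC2⟩ := del_fact C
  have t1 := DBterm A B C GA (bet2 B) (bet2 C) hA2 (bet2_facts B).1 (bet2_facts C).2
  have t2 := DBterm B C A GB (bet2 C) (bet A) hB2 (bet2_facts C).1 (f1 A).2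
  have t3 := DBterm C A B GC (bet A) (bet B) hC2 (f1 A).1 (f1 B).2
  rw [← hA1] at t1
  rw [← hB1] at t2
  rw [← hC1] at t3
  have key : 8 * DD (bet ((1 / 2 : ℝ) • A)) (bet ((1 / 2 : ℝ) • B)) (bet ((1 / 2 : ℝ) • C))
      - DD (bet A) (bet B) (bet C) =
      trace (sgm * (bet2 A - bet A) * sgm * bet2 B * sgm * bet2 C)
      + trace (sgm * (bet2 B - bet B) * sgm * bet2 C * sgm * bet A)
      + trace (sgm * (bet2 C - bet C) * sgm * bet A * sgm * bet B) := by
    have c1 : trace (sgm * (bet2 B - bet B) * sgm * bet2 C * sgm * bet A)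
        = trace (sgm * bet A * sgm * (bet2 B - bet B) * sgm * bet2 C) := by
      have : sgm * (bet2 B - bet B) * sgm * bet2 C * sgm * bet A
          = (sgm * (bet2 B - bet B) * sgm * bet2 C) * (sgm * bet A) := by
        simp only [Matrix.mul_assoc]
      rw [this, Matrix.trace_mul_comm]
      simp only [Matrix.mul_assoc]
    have c2 : trace (sgm * (bet2 C - bet C) * sgm * bet A * sgm * bet B)
        = trace (sgm * bet A * sgm * bet B * sgm * (bet2 C - bet C)) := by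
      have : sgm * (bet2 C - bet C) * sgm * bet A * sgm * bet B
          = (sgm * (bet2 C - bet C)) * (sgm * bet A * sgm * bet B) := by
        simp only [Matrix.mul_assoc]
      rw [this, Matrix.trace_mul_comm]
      simp only [Matrix.mul_assoc]
    rw [c1, c2]
    have c3 : 8 * DD (bet ((1 / 2 : ℝ) • A)) (bet ((1 / 2 : ℝ) • B)) (bet ((1 / 2 : ℝ) • C))
        = trace (sgm * bet2 A * sgm * bet2 B * sgm * bet2 C) := by
      unfold DD bet2
      simp only [Matrix.mul_smul, Matrix.smul_mul, Matrix.trace_smul, smul_eq_mul]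
      ring
    rw [c3]
    unfold DD
    simp only [Matrix.mul_sub, Matrix.sub_mul, Matrix.trace_sub]
    ring
  rw [key]
  unfold E3
  have a1 := abs_add_le (trace (sgm * (bet2 A - bet A) * sgm * bet2 B * sgm * bet2 C)
      + trace (sgm * (bet2 B - bet B) * sgm * bet2 C * sgm * bet A))
      (trace (sgm * (bet2 C - bet C) * sgm * bet A * sgm * bet B))
  have a2 := abs_add_le (trace (sgm * (bet2 A - bet A) * sgm * bet2 B * sgm * bet2 C))
      (trace (sgm * (bet2 B - bet B) * sgm * bet2 C * sgm * bet A))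
  linarith

theorem TT_step (l : ℝ) (hl : 0 < l) (A B C : Matrix (Bool × ι) (Bool × ι) ℝ) :
    |TT (2 * l) A B C - TT l A B C| ≤ 4 * (l ^ 3 * E3 (l⁻¹ • A) (l⁻¹ • B) (l⁻¹ • C)) := by
  have h := DB1 (l⁻¹ • A) (l⁻¹ • B) (l⁻¹ • C)
  have e : (2 * l)⁻¹ = (1 / 2) * l⁻¹ := by
    rw [mul_inv]; norm_num
  have : TT (2 * l) A B C - TT l A B C = l ^ 3 * (8 * DD (bet ((1 / 2 : ℝ) • (l⁻¹ • A)))
      (bet ((1 / 2 : ℝ) • (l⁻¹ • B))) (bet ((1 / 2 : ℝ) • (l⁻¹ • C)))
      - DD (bet (l⁻¹ • A)) (bet (l⁻¹ • B)) (bet (l⁻¹ • C))) := by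
    unfold TT
    rw [e]
    simp only [smul_smul]
    ring
  rw [this, abs_mul, abs_of_pos (by positivity)]
  nlinarith [pow_pos hl 3]

/-! ### E: trees -/

theorem mt1_eq_blk (n : ℕ) (f : Arr) : mt1 n f = blk (fun a b => mt n (sh n a b f)) := by
  funext i j
  simp only [mt1, blk, mt, sh]
  ring

theorem phi_mt_succ (n : ℕ) (f g h : Arr) :
    phi (mt (n + 1) f) (mt (n + 1) g) (mt (n + 1) h) = phi (mt1 n f) (mt1 n g) (mt1 n h) := rfl

/-- node energy -/
def NE (n : ℕ) (f g h : Arr) : ℝ := E3 (mt1 n f) (mt1 n g) (mt1 n h)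

theorem tree_E : ∀ (n : ℕ) (f g h : Arr),
    tree NE n f g h + 2 * phi (mt n f) (mt n g) (mt n h)
      ≤ 46 * leaf (fun x y z => sc x + sc y + sc z) n f g h
  | 0, f, g, h => by
    have := phi_leaf f g h
    simp only [tree, leaf]
    linarith
  | n + 1, f, g, h => by
    have hn := node (fun a b => mt n (sh n a b f)) (fun a b => mt n (sh n a b g))
      (fun a b => mt n (sh n a b h))
    rw [← mt1_eq_blk, ← mt1_eq_blk, ← mt1_eq_blk] at hn
    have ih : ∀ a b : Bool, _ := fun a b =>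
      tree_E n (sh n a b f) (sh n b (xor a b) g) (sh n (xor a b) a h)
    rw [phi_mt_succ]
    simp only [tree, leaf, NE]
    have i1 := ih false false
    have i2 := ih false true
    have i3 := ih true false
    have i4 := ih true true
    simp only [Fintype.sum_bool] at *
    linarith

theorem tree_mono {N N' : ℕ → Arr → Arr → Arr → ℝ}
    (h : ∀ n f g h, N n f g h ≤ N' n f g h) : ∀ (n : ℕ) (f g k : Arr),
    tree N n f g k ≤ tree N' n f g k
  | 0, f, g, k => le_refl _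
  | n + 1, f, g, k => by
    simp only [tree]
    have := h n f g k
    have h2 : ∑ a : Bool, ∑ b : Bool,
      tree N n (sh n a b f) (sh n b (xor a b) g) (sh n (xor a b) a k) ≤ ∑ a : Bool, ∑ b : Bool,
      tree N' n (sh n a b f) (sh n b (xor a b) g) (sh n (xor a b) a k) :=
      Finset.sum_le_sum fun a _ => Finset.sum_le_sum fun b _ => tree_mono h n _ _ _
    linarith

theorem leaf_mono {L L' : ℝ → ℝ → ℝ → ℝ}
    (h : ∀ x y z, L x y z ≤ L' x y z) : ∀ (n : ℕ) (f g k : Arr),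
    leaf L n f g k ≤ leaf L' n f g k
  | 0, f, g, k => h _ _ _
  | n + 1, f, g, k => by
    simp only [leaf]
    have h2 : ∑ a : Bool, ∑ b : Bool,
      leaf L n (sh n a b f) (sh n b (xor a b) g) (sh n (xor a b) a k) ≤ ∑ a : Bool, ∑ b : Bool,
      leaf L' n (sh n a b f) (sh n b (xor a b) g) (sh n (xor a b) a k) :=
      Finset.sum_le_sum fun a _ => Finset.sum_le_sum fun b _ => leaf_mono h n _ _ _
    linarith

/-- scaled array -/
def sA (c : ℝ) (f : Arr) : Arr := fun i j => c * f i j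

theorem sh_sA (n : ℕ) (a b : Bool) (c : ℝ) (f : Arr) : sh n a b (sA c f) = sA c (sh n a b f) := rfl

theorem mt1_sA (n : ℕ) (c : ℝ) (f : Arr) : mt1 n (sA c f) = c • mt1 n f := by
  funext i j
  simp only [mt1, sA, Matrix.smul_apply, smul_eq_mul]
  ring

theorem tree_sA (N : ℕ → Arr → Arr → Arr → ℝ) (c : ℝ) : ∀ (n : ℕ) (f g h : Arr),
    tree N n (sA c f) (sA c g) (sA c h) = tree (fun n f g h => N n (sA c f) (sA c g) (sA c h)) n f g h
  | 0, _, _, _ => rfl
  | n + 1, f, g, h => by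
    simp only [tree, sh_sA, tree_sA N c n]

theorem leaf_sA (L : ℝ → ℝ → ℝ → ℝ) (c : ℝ) : ∀ (n : ℕ) (f g h : Arr),
    leaf L n (sA c f) (sA c g) (sA c h) = leaf (fun x y z => L (c * x) (c * y) (c * z)) n f g h
  | 0, _, _, _ => rfl
  | n + 1, f, g, h => by
    simp only [leaf, sh_sA, leaf_sA L c n]

theorem tree_smul (N : ℕ → Arr → Arr → Arr → ℝ) (c : ℝ) : ∀ (n : ℕ) (f g h : Arr),
    tree (fun n f g h => c * N n f g h) n f g h = c * tree N n f g h
  | 0, _, _, _ => by simp [tree]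
  | n + 1, f, g, h => by
    simp only [tree, tree_smul N c n, ← Finset.mul_sum]
    ring

theorem leaf_smul (L : ℝ → ℝ → ℝ → ℝ) (c : ℝ) : ∀ (n : ℕ) (f g h : Arr),
    leaf (fun x y z => c * L x y z) n f g h = c * leaf L n f g h
  | 0, _, _, _ => rfl
  | n + 1, f, g, h => by
    simp only [leaf, leaf_smul L c n, ← Finset.mul_sum]
    ring

theorem tree_sum {κ : Type*} (s : Finset κ) (N : κ → ℕ → Arr → Arr → Arr → ℝ) :
    ∀ (n : ℕ) (f g h : Arr),
    tree (fun n f g h => ∑ k ∈ s, N k n f g h) n f g h = ∑ k ∈ s, tree (N k) n f g h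
  | 0, _, _, _ => by simp [tree]
  | n + 1, f, g, h => by
    simp only [tree, tree_sum s N n, Finset.sum_add_distrib, ← Finset.mul_sum]
    congr 2
    simp only [Fintype.sum_bool, Finset.sum_add_distrib]

theorem leaf_sum {κ : Type*} (s : Finset κ) (L : κ → ℝ → ℝ → ℝ → ℝ) :
    ∀ (n : ℕ) (f g h : Arr),
    leaf (fun x y z => ∑ k ∈ s, L k x y z) n f g h = ∑ k ∈ s, leaf (L k) n f g h
  | 0, _, _, _ => rfl
  | n + 1, f, g, h => by
    simp only [leaf, leaf_sum s L n, ← Finset.mul_sum]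
    congr 1
    simp only [Fintype.sum_bool, Finset.sum_add_distrib]

theorem tree_lim {N : ℕ → ℕ → Arr → Arr → Arr → ℝ} {N0 : ℕ → Arr → Arr → Arr → ℝ}
    (hN : ∀ n f g h, Filter.Tendsto (fun K => N K n f g h) Filter.atTop (nhds (N0 n f g h))) :
    ∀ (n : ℕ) (f g h : Arr),
    Filter.Tendsto (fun K => tree (N K) n f g h) Filter.atTop (nhds (tree N0 n f g h))
  | 0, _, _, _ => tendsto_const_nhds
  | n + 1, f, g, h => by
    simp only [tree]
    refine (hN n f g h).add (Filter.Tendsto.const_mul _ ?_)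
    exact tendsto_finsetSum _ fun a _ => tendsto_finsetSum _ fun b _ => tree_lim hN n _ _ _

theorem TT_tele (l : ℝ) (hl : 0 < l) (A B C : Matrix (Bool × ι) (Bool × ι) ℝ) : ∀ K : ℕ,
    |TT (2 ^ K * l) A B C - TT l A B C| ≤ ∑ k ∈ range K, 4 * ((2 ^ k * l) ^ 3 *
      E3 ((2 ^ k * l)⁻¹ • A) ((2 ^ k * l)⁻¹ • B) ((2 ^ k * l)⁻¹ • C))
  | 0 => by simp
  | K + 1 => by
    rw [Finset.sum_range_succ]
    have h1 := TT_tele l hl A B C K
    have h2 := TT_step (2 ^ K * l) (by positivity) A B C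
    rw [← mul_assoc, ← pow_succ'] at h2
    have h3 : TT (2 ^ (K + 1) * l) A B C - TT l A B C =
      (TT (2 ^ (K + 1) * l) A B C - TT (2 ^ K * l) A B C) + (TT (2 ^ K * l) A B C - TT l A B C) := by
      ring
    rw [h3]
    refine (abs_add_le _ _).trans ?_
    linarith

theorem tree_TT (l : ℝ) (hl : 0 < l) (K n : ℕ) (f g h : Arr) :
    tree (fun n f g h => |TT (2 ^ K * l) (mt1 n f) (mt1 n g) (mt1 n h)
      - TT l (mt1 n f) (mt1 n g) (mt1 n h)|) n f g h ≤ 736 * (a3 n f + a3 n g + a3 n h) := by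
  have h1 := tree_mono (N := fun n f g h => |TT (2 ^ K * l) (mt1 n f) (mt1 n g) (mt1 n h)
      - TT l (mt1 n f) (mt1 n g) (mt1 n h)|) (N' := fun n f g h => ∑ k ∈ range K,
        (4 * (2 ^ k * l) ^ 3) * NE n (sA (2 ^ k * l)⁻¹ f) (sA (2 ^ k * l)⁻¹ g)
          (sA (2 ^ k * l)⁻¹ h)) (fun n f g h => by
            have := TT_tele l hl (mt1 n f) (mt1 n g) (mt1 n h) K
            refine this.trans (le_of_eq ?_)
            refine Finset.sum_congr rfl fun k _ => ?_
            simp only [NE, mt1_sA]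
            ring) n f g h
  refine h1.trans ?_
  rw [tree_sum (range K) (fun k n f g h => (4 * (2 ^ k * l) ^ 3) * NE n (sA (2 ^ k * l)⁻¹ f)
    (sA (2 ^ k * l)⁻¹ g) (sA (2 ^ k * l)⁻¹ h)) n f g h]
  have h2 : ∀ k ∈ range K, tree (fun n f g h => (4 * (2 ^ k * l) ^ 3) *
      NE n (sA (2 ^ k * l)⁻¹ f) (sA (2 ^ k * l)⁻¹ g) (sA (2 ^ k * l)⁻¹ h)) n f g h
      ≤ 184 * leaf (fun x y z => (2 ^ k * l) ^ 3 * (sc ((2 ^ k * l)⁻¹ * x) +
        sc ((2 ^ k * l)⁻¹ * y) + sc ((2 ^ k * l)⁻¹ * z))) n f g h := by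
    intro k _
    rw [tree_smul (fun n f g h => NE n (sA (2 ^ k * l)⁻¹ f) (sA (2 ^ k * l)⁻¹ g)
      (sA (2 ^ k * l)⁻¹ h)), ← tree_sA NE]
    have h3 := tree_E n (sA (2 ^ k * l)⁻¹ f) (sA (2 ^ k * l)⁻¹ g) (sA (2 ^ k * l)⁻¹ h)
    have h4 := phi_nonneg (mt n (sA (2 ^ k * l)⁻¹ f)) (mt n (sA (2 ^ k * l)⁻¹ g))
      (mt n (sA (2 ^ k * l)⁻¹ h))
    rw [leaf_sA] at h3
    rw [leaf_smul (fun x y z => sc ((2 ^ k * l)⁻¹ * x) + sc ((2 ^ k * l)⁻¹ * y)
      + sc ((2 ^ k * l)⁻¹ * z))]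
    have h5 : (0:ℝ) < 4 * (2 ^ k * l) ^ 3 := by positivity
    have h6 : tree NE n (sA (2 ^ k * l)⁻¹ f) (sA (2 ^ k * l)⁻¹ g) (sA (2 ^ k * l)⁻¹ h) ≤
      46 * leaf (fun x y z => sc ((2 ^ k * l)⁻¹ * x) + sc ((2 ^ k * l)⁻¹ * y)
      + sc ((2 ^ k * l)⁻¹ * z)) n f g h := by linarith
    have h7 := mul_le_mul_of_nonneg_left h6 h5.le
    linarith
  refine (Finset.sum_le_sum h2).trans ?_
  rw [← Finset.mul_sum, ← leaf_sum (range K) (fun k x y z => (2 ^ k * l) ^ 3 *
    (sc ((2 ^ k * l)⁻¹ * x) + sc ((2 ^ k * l)⁻¹ * y) + sc ((2 ^ k * l)⁻¹ * z))) n f g h]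
  have h8 := leaf_mono (L := fun x y z => ∑ k ∈ range K, (2 ^ k * l) ^ 3 *
    (sc ((2 ^ k * l)⁻¹ * x) + sc ((2 ^ k * l)⁻¹ * y) + sc ((2 ^ k * l)⁻¹ * z)))
    (L' := fun x y z => 4 * (|x| ^ 3 + |y| ^ 3 + |z| ^ 3)) (fun x y z => by
      have hx := sc_sum l hl K x
      have hy := sc_sum l hl K y
      have hz := sc_sum l hl K z
      have : ∑ k ∈ range K, (2 ^ k * l) ^ 3 * (sc ((2 ^ k * l)⁻¹ * x) + sc ((2 ^ k * l)⁻¹ * y)
        + sc ((2 ^ k * l)⁻¹ * z)) = ∑ k ∈ range K, (2 ^ k * l) ^ 3 * sc ((2 ^ k * l)⁻¹ * x) +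
        ∑ k ∈ range K, (2 ^ k * l) ^ 3 * sc ((2 ^ k * l)⁻¹ * y) +
        ∑ k ∈ range K, (2 ^ k * l) ^ 3 * sc ((2 ^ k * l)⁻¹ * z) := by
        rw [← Finset.sum_add_distrib, ← Finset.sum_add_distrib]
        exact Finset.sum_congr rfl fun k _ => by ring
      rw [this]
      linarith) n f g h
  rw [leaf_smul (fun x y z => |x| ^ 3 + |y| ^ 3 + |z| ^ 3), leaf_cube] at h8
  linarith

theorem tree_DD (n : ℕ) (f g h : Arr) :
    tree (fun n f g h => |DD (mt1 n f) (mt1 n g) (mt1 n h)|) n f g h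
      ≤ 736 * (a3 n f + a3 n g + a3 n h) := by
  have h1 := tree_lim (N := fun K n f g h => |TT (2 ^ (2 * K) * (2 ^ K)⁻¹) (mt1 n f) (mt1 n g) (mt1 n h)
      - TT ((2 ^ K)⁻¹) (mt1 n f) (mt1 n g) (mt1 n h)|)
      (N0 := fun n f g h => |DD (mt1 n f) (mt1 n g) (mt1 n h)|) (fun n f g h => by
        have e1 := TT_atTop (mt1 n f) (mt1 n g) (mt1 n h)
        have e2 := TT_zero (mt1 n f) (mt1 n g) (mt1 n h)
        have e3 := (e1.sub e2).abs
        rw [sub_zero] at e3
        refine e3.congr fun K => ?_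
        have : (2:ℝ) ^ (2 * K) * (2 ^ K)⁻¹ = 2 ^ K := by
          rw [two_mul, pow_add, mul_assoc, mul_inv_cancel₀ (by positivity), mul_one]
        rw [this]) n f g h
  exact le_of_tendsto' h1 fun K => tree_TT _ (by positivity) _ _ _ _ _

/-! ### F: the discrete form -/

theorem Lam_tree : ∀ (n : ℕ) (f g h : Arr), ∑ s ∈ range n, |Lam n s f g h|
    ≤ tree (fun n f g h => |DD (mt1 n f) (mt1 n g) (mt1 n h)|) n f g h
  | 0, f, g, h => by simp [tree]
  | n + 1, f, g, h => by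
    rw [Finset.sum_range_succ']
    simp only [tree]
    rw [Lam_zero, add_comm]
    gcongr
    calc ∑ s ∈ range n, |Lam (n + 1) (s + 1) f g h|
        ≤ ∑ s ∈ range n, (1 / 4) * ∑ a : Bool, ∑ b : Bool,
          |Lam n s (sh n a b f) (sh n b (xor a b) g) (sh n (xor a b) a h)| := by
          refine Finset.sum_le_sum fun s hs => ?_
          rw [Lam_succ n s (Finset.mem_range.mp hs).le, abs_mul, abs_of_pos (by norm_num)]
          gcongr
          refine (Finset.abs_sum_le_sum_abs _ _).trans (Finset.sum_le_sum fun a _ => ?_)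
          exact Finset.abs_sum_le_sum_abs _ _
      _ = (1 / 4) * ∑ a : Bool, ∑ b : Bool, ∑ s ∈ range n,
          |Lam n s (sh n a b f) (sh n b (xor a b) g) (sh n (xor a b) a h)| := by
          rw [← Finset.mul_sum]
          congr 1
          rw [Finset.sum_comm]
          refine Finset.sum_congr rfl fun a _ => ?_
          rw [Finset.sum_comm]
      _ ≤ _ := by
          gcongr with a _ b _
          exact Lam_tree n _ _ _

theorem FSflat : ∃ C : ℝ, ∀ (n : ℕ) (f g h : ℕ → ℕ → ℝ),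
    ∑ s ∈ range n, |Lam n s f g h| ≤ C * (a3 n f + a3 n g + a3 n h) :=
  ⟨736, fun n f g h => (Lam_tree n f g h).trans (tree_DD n f g h)⟩

end

end Pool.Agent.TH704
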